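import Pool.Agent.Lib.MP_862c25_an.Defs

open scoped InnerProductSpace

namespace Pool.Agent.Lib.MP_862c25_an

namespace JonesTower

variable {H : Type*} [NormedAddCommGroup H] [InnerProductSpace ℂ H] [CompleteSpace H]

/-- `y = E_P(x)` for the trace preserving conditional expectation `E_P` onto `P`: the element `y`
lies in `P` and `τ(z x) = τ(z y)` for all `z ∈ P`, where `τ(x) = ⟪Ω, x Ω⟫`. -/
def IsCondExp (T : JonesTower H) (P : VonNeumannAlgebra H) (x y : H →L[ℂ] H) : Prop :=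
  y ∈ P ∧ ∀ z ∈ P, ⟪T.Ω, (z * x) T.Ω⟫_ℂ = ⟪T.Ω, (z * y) T.Ω⟫_ℂ

/-- `τ(η(y))` with `η(t) = - t log t`, through the continuous functional calculus. -/
noncomputable def tauEta (T : JonesTower H) (y : H →L[ℂ] H) : ℝ :=
  (⟪T.Ω, (cfc Real.negMulLog y) T.Ω⟫_ℂ).re

/-- The numbers `∑ i, τη(E_Q x_i) - τη(E_P x_i)`, over all finite families of positive operators
`x_i ∈ R` with `∑ i, x_i = 1`. -/
def entropySums (T : JonesTower H) (P Q : VonNeumannAlgebra H) : Set ℝ :=
  {s | ∃ (n : ℕ) (x p q : Fin n → (H →L[ℂ] H)),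
    (∀ i, x i ∈ T.R ∧ (x i).IsPositive ∧ T.IsCondExp P (x i) (p i) ∧ T.IsCondExp Q (x i) (q i)) ∧
      ∑ i, x i = 1 ∧ s = ∑ i, (T.tauEta (q i) - T.tauEta (p i))}

/-- The Connes-Stormer relative entropy `H(P|Q)` equals `h`: the conditional expectations of `R`
onto `P` and onto `Q` exist and are unique, and `h` is the supremum of the entropy sums. -/
def HasRelEntropy (T : JonesTower H) (P Q : VonNeumannAlgebra H) (h : ℝ) : Prop :=
  (∀ x ∈ T.R, (∃! y, T.IsCondExp P x y) ∧ ∃! y, T.IsCondExp Q x y) ∧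
    IsLUB (T.entropySums P Q) h

end JonesTower

end Pool.Agent.Lib.MP_862c25_an
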