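import Pool.Agent.Lib.MP_862c25_an.Exists
import Pool.Agent.Lib.MP_862c25_an.RE.Defs

open scoped InnerProductSpace Matrix

namespace Pool.Agent.Lib.MP_862c25_an

/-- diag(1,-1,1,-1) -/
noncomputable def mZ0 : M4 := !![1, 0, 0, 0; 0, -1, 0, 0; 0, 0, 1, 0; 0, 0, 0, -1]
/-- diag(1,1,-1,-1) -/
noncomputable def mZ1 : M4 := !![1, 0, 0, 0; 0, 1, 0, 0; 0, 0, -1, 0; 0, 0, 0, -1]
/-- the permutation (01)(23) -/
noncomputable def mX0 : M4 := !![0, 1, 0, 0; 1, 0, 0, 0; 0, 0, 0, 1; 0, 0, 1, 0]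
/-- the permutation (02)(13) -/
noncomputable def mX1 : M4 := !![0, 0, 1, 0; 0, 0, 0, 1; 1, 0, 0, 0; 0, 1, 0, 0]
/-- the matrices commuting with `mX1` -/
def mQ : Set M4 := {y | y * mX1 = mX1 * y}

variable {H : Type*} [NormedAddCommGroup H] [InnerProductSpace ℂ H] [CompleteSpace H]

namespace JonesTower

variable (T : JonesTower H)

/-- level `k` of the tower of `R` -/
noncomputable abbrev A (k : ℕ) : StarSubalgebra ℂ (H →L[ℂ] H) :=
  tower (T.π '' conjDiag 1) (Set.range T.π) T.e k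

/-- level `k` of the intermediate tower -/
noncomputable abbrev Qk (k : ℕ) : StarSubalgebra ℂ (H →L[ℂ] H) :=
  tower ∅ (T.π '' mQ) T.e k

/-- the algebra generated by the flat projection and the Jones projections -/
noncomputable def TL : StarSubalgebra ℂ (H →L[ℂ] H) :=
  StarAlgebra.adjoin ℂ ({T.π flat} ∪ Set.range T.e)

lemma A_succ (k : ℕ) : T.A k ≤ T.A (k + 1) := tower_succ_le _ _ _ (Set.image_subset_range _ _) k

lemma A_mono : Monotone T.A := monotone_nat_of_le_succ T.A_succ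

lemma Qk_succ (k : ℕ) : T.Qk k ≤ T.Qk (k + 1) := tower_succ_le _ _ _ (Set.empty_subset _) k

lemma Qk_mono : Monotone T.Qk := monotone_nat_of_le_succ T.Qk_succ

lemma Qk_le_A (k : ℕ) : T.Qk k ≤ T.A k :=
  tower_le_tower T.e (Set.empty_subset _) (Set.image_subset_range _ _) k

lemma pi_mem_A1 (y : M4) : T.π y ∈ T.A 1 := StarAlgebra.subset_adjoin ℂ _ ⟨y, rfl⟩

lemma diag_mem_A0 (d : Fin 4 → ℂ) : T.π (Matrix.diagonal d) ∈ T.A 0 :=
  StarAlgebra.subset_adjoin ℂ _ ⟨_, ⟨d, by simp⟩, rfl⟩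

/-- the union of the tower -/
noncomputable def Ainf : StarSubalgebra ℂ (H →L[ℂ] H) := unionAlg T.A T.A_mono

lemma mem_Ainf {x : H →L[ℂ] H} : x ∈ T.Ainf ↔ ∃ k, x ∈ T.A k := Set.mem_iUnion

lemma A_le_Ainf (k : ℕ) : T.A k ≤ T.Ainf := fun _ hx => T.mem_Ainf.2 ⟨k, hx⟩

lemma R_eq : T.R = vnGen (T.Ainf : Set (H →L[ℂ] H)) := rfl

lemma tr : Tr T.Ainf T.Ω := by
  constructor
  · intro a ha b hb
    obtain ⟨i, hi⟩ := T.mem_Ainf.1 ha
    obtain ⟨j, hj⟩ := T.mem_Ainf.1 hb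
    exact T.tracial (max i j) a (T.A_mono (le_max_left i j) hi) b (T.A_mono (le_max_right i j) hj)
  · refine T.cyclic.mono ?_
    rintro _ ⟨k, y, hy, rfl⟩
    exact ⟨y, T.mem_Ainf.2 ⟨k, hy⟩, rfl⟩

lemma inner_self : ⟪T.Ω, T.Ω⟫_ℂ = 1 := by
  have := T.trace_π 1
  rw [map_one] at this
  simpa using this

/-- faithfulness of the trace on `R` -/
lemma faithful {x : H →L[ℂ] H} (hx : x ∈ T.R) (h : ⟪T.Ω, (star x * x) T.Ω⟫_ℂ = 0) : x = 0 := by
  rw [← inner_apply_apply, inner_self_eq_zero] at h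
  exact T.tr.separating hx h

lemma Ainf_le_R {x : H →L[ℂ] H} (hx : x ∈ T.Ainf) : x ∈ T.R := subset_vnGen _ hx

end JonesTower

end Pool.Agent.Lib.MP_862c25_an
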