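import Pool.Agent.Lib.MP_862c25_an.RE.Base

open scoped InnerProductSpace Matrix

namespace Pool.Agent.Lib.MP_862c25_an.RE

variable {H : Type*} [NormedAddCommGroup H] [InnerProductSpace ℂ H] [CompleteSpace H]

/-- The trace as a linear map. -/
noncomputable def BaseRel_tau (T : JonesTower H) : (H →L[ℂ] H) →ₗ[ℂ] ℂ :=
  (innerₛₗ ℂ T.Ω).comp (ev T.Ω)

lemma BaseRel_tau_apply (T : JonesTower H) (x : H →L[ℂ] H) :
    BaseRel_tau T x = ⟪T.Ω, x T.Ω⟫_ℂ := rfl

lemma BaseRel_tau_one (T : JonesTower H) : BaseRel_tau T 1 = 1 := T.inner_self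

lemma BaseRel_exe (T : JonesTower H) (x : M4) :
    T.e 0 * T.π x * T.e 0 = T.π (Matrix.diagonal fun i => x i i) * T.e 0 := by
  obtain ⟨y, hy, h1, h2⟩ := T.jones 0 (T.π x) (T.pi_mem_A1 x)
  obtain ⟨d, rfl⟩ := mem_level_zero T.π hy
  have hd : d = fun i => x i i := by
    funext i
    have h := h1 _ (T.diag_mem_A0 (Pi.single i 1))
    rw [← map_mul, ← map_mul, T.trace_π, T.trace_π] at h
    simp [Matrix.trace, Matrix.diagonal_mul, Pi.single_apply] at h
    exact h.symm
  rw [h2, hd]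

lemma BaseRel_exe0 (T : JonesTower H) {x : M4} (hx : ∀ i, x i i = 0) :
    T.e 0 * T.π x * T.e 0 = 0 := by
  rw [BaseRel_exe, show (fun i => x i i) = fun _ => (0 : ℂ) from funext hx, Matrix.diagonal_zero,
    map_zero, zero_mul]

lemma BaseRel_idem {R : Type*} [Ring R] {e x y : R} (he : e * e = e) (hx : x * x = 1)
    (hy : y * y = 1) (hxy : y * x = x * y) (h1 : e * x * e = 0) (h2 : e * y * e = 0)
    (h3 : e * (x * y) * e = 0) :
    (e + x * e * x + y * e * y + x * y * e * (x * y)) *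
      (e + x * e * x + y * e * y + x * y * e * (x * y)) =
      e + x * e * x + y * e * y + x * y * e * (x * y) := by
  have he' : ∀ t, e * (e * t) = e * t := fun t => by rw [← mul_assoc, he]
  have hx' : ∀ t, x * (x * t) = t := fun t => by rw [← mul_assoc, hx, one_mul]
  have hy' : ∀ t, y * (y * t) = t := fun t => by rw [← mul_assoc, hy, one_mul]
  have hxy' : ∀ t, y * (x * t) = x * (y * t) := fun t => by rw [← mul_assoc, hxy, mul_assoc]
  have h1' : ∀ t, e * (x * (e * t)) = 0 := fun t => by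
    rw [← mul_assoc, ← mul_assoc, h1, zero_mul]
  have h2' : ∀ t, e * (y * (e * t)) = 0 := fun t => by
    rw [← mul_assoc, ← mul_assoc, h2, zero_mul]
  have h3' : ∀ t, e * (x * (y * (e * t))) = 0 := fun t => by
    rw [← mul_assoc x, ← mul_assoc, ← mul_assoc, h3, zero_mul]
  have h : ∀ t, (e + x * e * x + y * e * y + x * y * e * (x * y)) *
      ((e + x * e * x + y * e * y + x * y * e * (x * y)) * t) =
      (e + x * e * x + y * e * y + x * y * e * (x * y)) * t := fun t => by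
    simp only [add_mul, mul_add, mul_assoc, he', hx', hy', hxy', h1', h2', h3', mul_zero,
      add_zero, zero_add]
  simpa only [mul_one] using h 1

lemma BaseRel_x00 : mX0 * mX0 = 1 := by
  ext i j
  fin_cases i <;> fin_cases j <;> simp [mX0, Matrix.mul_apply, Fin.sum_univ_four]

lemma BaseRel_x11 : mX1 * mX1 = 1 := by
  ext i j
  fin_cases i <;> fin_cases j <;> simp [mX1, Matrix.mul_apply, Fin.sum_univ_four]

lemma BaseRel_x10 : mX1 * mX0 = mX0 * mX1 := by
  ext i j
  fin_cases i <;> fin_cases j <;> simp [mX0, mX1, Matrix.mul_apply, Fin.sum_univ_four]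

lemma BaseRel_sx0 : star mX0 = mX0 := by
  ext i j
  fin_cases i <;> fin_cases j <;> simp [mX0]

lemma BaseRel_sx1 : star mX1 = mX1 := by
  ext i j
  fin_cases i <;> fin_cases j <;> simp [mX1]

lemma BaseRel_X00 (T : JonesTower H) : T.π mX0 * T.π mX0 = 1 := by
  rw [← map_mul, BaseRel_x00, map_one]

lemma BaseRel_X11 (T : JonesTower H) : T.π mX1 * T.π mX1 = 1 := by
  rw [← map_mul, BaseRel_x11, map_one]

lemma BaseRel_X10 (T : JonesTower H) : T.π mX1 * T.π mX0 = T.π mX0 * T.π mX1 := by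
  rw [← map_mul, BaseRel_x10, map_mul]

lemma BaseRel_e0 (T : JonesTower H) : T.e 0 * T.π mX0 * T.e 0 = 0 :=
  BaseRel_exe0 T fun i => by fin_cases i <;> simp [mX0]

lemma BaseRel_e1 (T : JonesTower H) : T.e 0 * T.π mX1 * T.e 0 = 0 :=
  BaseRel_exe0 T fun i => by fin_cases i <;> simp [mX1]

lemma BaseRel_e01 (T : JonesTower H) : T.e 0 * (T.π mX0 * T.π mX1) * T.e 0 = 0 := by
  rw [← map_mul]
  exact BaseRel_exe0 T fun i => by
    fin_cases i <;> simp [mX0, mX1, Matrix.mul_apply, Fin.sum_univ_four]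

lemma BaseRel_tau_conj (T : JonesTower H) {u : H →L[ℂ] H} (hu : u ∈ T.A 1) (h : u * u = 1) :
    BaseRel_tau T (u * T.e 0 * u) = 1 / 4 := by
  have h2 := T.A_succ 1 hu
  rw [BaseRel_tau_apply, T.tracial 2 _ (mul_mem h2 (e_mem_tower _ _ _ 0)) _ h2, ← mul_assoc, h,
    T.markov 0 1 (one_mem _)]
  exact congrArg (· / 4) T.inner_self

lemma BaseRel_sum (T : JonesTower H) :
    T.e 0 + T.π mX0 * T.e 0 * T.π mX0 + T.π mX1 * T.e 0 * T.π mX1 +
      T.π mX0 * T.π mX1 * T.e 0 * (T.π mX0 * T.π mX1) = 1 := by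
  have hi := BaseRel_idem (T.proj 0).isIdempotentElem.eq (BaseRel_X00 T) (BaseRel_X11 T)
    (BaseRel_X10 T) (BaseRel_e0 T) (BaseRel_e1 T) (BaseRel_e01 T)
  have m0 := T.pi_mem_A1 mX0
  have m1 := T.pi_mem_A1 mX1
  have n0 := T.A_succ 1 m0
  have n1 := T.A_succ 1 m1
  have ne : T.e 0 ∈ T.A 2 := e_mem_tower _ _ _ 0
  have t0 := BaseRel_tau_conj T (one_mem _) (mul_one 1)
  rw [one_mul, mul_one] at t0
  have t3 := BaseRel_tau_conj T (mul_mem m0 m1) (by
    rw [mul_assoc, ← mul_assoc (T.π mX1), BaseRel_X10, mul_assoc, BaseRel_X11, mul_one,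
      BaseRel_X00])
  have s0 : star (T.π mX0) = T.π mX0 := by rw [← map_star, BaseRel_sx0]
  have s1 : star (T.π mX1) = T.π mX1 := by rw [← map_star, BaseRel_sx1]
  have s2 : star (T.π mX0 * T.π mX1) = T.π mX0 * T.π mX1 := by
    rw [star_mul, s0, s1, BaseRel_X10]
  have se : star (T.e 0) = T.e 0 := (T.proj 0).isSelfAdjoint.star_eq
  have sc : ∀ u : H →L[ℂ] H, star u = u → star (u * T.e 0 * u) = u * T.e 0 * u := fun u hu => by
    rw [star_mul, star_mul, hu, se, mul_assoc]
  generalize hs : T.e 0 + T.π mX0 * T.e 0 * T.π mX0 + T.π mX1 * T.e 0 * T.π mX1 +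
      T.π mX0 * T.π mX1 * T.e 0 * (T.π mX0 * T.π mX1) = s at hi
  have h1 : star s = s := by
    rw [← hs, star_add, star_add, star_add, se, sc _ s0, sc _ s1, sc _ s2]
  have h2 : BaseRel_tau T s = 1 := by
    rw [← hs, map_add, map_add, map_add, t0, t3, BaseRel_tau_conj T m0 (BaseRel_X00 T),
      BaseRel_tau_conj T m1 (BaseRel_X11 T)]
    norm_num
  have h3 : s ∈ T.A 2 := by
    rw [← hs]
    exact add_mem (add_mem (add_mem ne (mul_mem (mul_mem n0 ne) n0)) (mul_mem (mul_mem n1 ne) n1))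
      (mul_mem (mul_mem (mul_mem n0 n1) ne) (mul_mem n0 n1))
  refine (sub_eq_zero.1 (T.faithful (x := 1 - s)
    (T.Ainf_le_R (T.A_le_Ainf 2 (sub_mem (one_mem _) h3))) ?_)).symm
  rw [← BaseRel_tau_apply, star_sub, star_one, h1, sub_mul, one_mul, mul_sub, mul_one, hi, sub_self,
    sub_zero, map_sub, BaseRel_tau_one, h2, sub_self]

lemma BaseRel_key {R : Type*} [Ring R] [Algebra ℂ R] {e x y z v : R} (hx : x * x = 1)
    (hy : y * y = 1) (hxy : y * x = x * y) (hze : z * e = e * z) (hzx : x * z = z * x)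
    (hzy : y * z = -(z * y)) (h0 : e * x * e = 0)
    (hs : e + x * e * x + y * e * y + x * y * e * (x * y) = 1)
    (hv : v = 1 - (2 : ℂ) • e - (2 : ℂ) • (x * e * x)) :
    (1 - (2 : ℂ) • e) * (-(z * x)) * (1 - (2 : ℂ) • e) = -(x * (z * v)) ∧
      x * (z * v) = z * v * x ∧ y * (z * v) = z * v * y := by
  have hx' : ∀ t, x * (x * t) = t := fun t => by rw [← mul_assoc, hx, one_mul]
  have hxv : x * v = v * x := by
    rw [hv]
    simp only [mul_sub, sub_mul, mul_smul_comm, smul_mul_assoc, mul_assoc, hx', hx, mul_one,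
      one_mul]
    abel
  have hg : (1 - (2 : ℂ) • e) * x * (1 - (2 : ℂ) • e) = x * v := by
    rw [hv]
    simp only [mul_sub, sub_mul, mul_smul_comm, smul_mul_assoc, h0, mul_one, one_mul, smul_zero,
      smul_sub]
    simp only [mul_assoc, hx', sub_zero]
    abel
  have hyv : y * v = -(v * y) := by
    have h1 : y * v * y = -v := by
      have h2 : y * (x * e * x) * y = x * y * e * (x * y) := by
        rw [← mul_assoc, ← mul_assoc, hxy, mul_assoc]
      rw [hv]
      simp only [mul_sub, sub_mul, mul_smul_comm, smul_mul_assoc, mul_one, hy, h2]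
      have h3 : x * y * e * (x * y) = 1 - e - x * e * x - y * e * y := by rw [← hs]; abel
      rw [h3]
      simp only [two_smul]
      abel
    rw [← neg_mul, ← h1, mul_assoc, hy, mul_one]
  have hzg : (1 - (2 : ℂ) • e) * z = z * (1 - (2 : ℂ) • e) := by
    simp only [mul_sub, sub_mul, mul_smul_comm, smul_mul_assoc, mul_one, one_mul, hze]
  refine ⟨?_, ?_, ?_⟩
  · rw [mul_neg, neg_mul, ← mul_assoc, hzg, mul_assoc z, mul_assoc z, hg, ← mul_assoc, ← hzx,
      mul_assoc]
  · rw [← mul_assoc, hzx, mul_assoc, hxv, mul_assoc]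
  · rw [← mul_assoc, hzy, neg_mul, mul_assoc, hyv, mul_neg, neg_neg, mul_assoc]

lemma BaseRel_conj {R : Type*} [Ring R] {f g z n y y' : R} (hf : f * f = 1) (hg : g * g = 1)
    (hn : g * (f * z * f) * g = n) (h : n * y = y' * n) :
    z * (f * g * y * g * f) = f * g * y' * g * f * z := by
  have hf' : ∀ t, f * (f * t) = t := fun t => by rw [← mul_assoc, hf, one_mul]
  have hg' : ∀ t, g * (g * t) = t := fun t => by rw [← mul_assoc, hg, one_mul]
  have h1 : z * (f * g * y * g * f) = f * g * (n * y) * g * f := by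
    rw [← hn]
    simp only [mul_assoc, hf', hg']
  rw [h1, h, ← hn]
  simp only [mul_assoc, hg', hf, mul_one]

lemma BaseRel_sym {R : Type*} [Ring R] [Algebra ℂ R] {p : R} (hp : p * p = p) :
    (1 - (2 : ℂ) • p) * (1 - (2 : ℂ) • p) = 1 := by
  simp only [two_smul, mul_sub, sub_mul, mul_add, add_mul, mul_one, one_mul, hp]
  abel

lemma BaseRel_all (T : JonesTower H) {t : H →L[ℂ] H}
    (hd : ∀ d, T.π (Matrix.diagonal d) * t = t * T.π (Matrix.diagonal d))
    (h0 : T.π mX0 * t = t * T.π mX0) (h1 : T.π mX1 * t = t * T.π mX1) (y : M4) :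
    T.π y * t = t * T.π y := by
  have hy : y = Matrix.diagonal ![y 0 0, y 1 1, y 2 2, y 3 3] +
      Matrix.diagonal ![y 0 1, y 1 0, y 2 3, y 3 2] * mX0 +
      Matrix.diagonal ![y 0 2, y 1 3, y 2 0, y 3 1] * mX1 +
      Matrix.diagonal ![y 0 3, y 1 2, y 2 1, y 3 0] * (mX0 * mX1) := by
    ext i j
    fin_cases i <;> fin_cases j <;> simp [mX0, mX1, Matrix.diagonal_mul]
  rw [hy]
  simp only [map_add, map_mul]
  exact (((Commute.add_left (hd _) (Commute.mul_left (hd _) h0)).add_left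
    (Commute.mul_left (hd _) h1)).add_left (Commute.mul_left (hd _) (Commute.mul_left h0 h1))).eq

lemma BaseRel_diag (T : JonesTower H) {x : M4} (c : Fin 4 → ℂ)
    (hx : ∀ d : Fin 4 → ℂ, ∃ d' : Fin 4 → ℂ, Matrix.diagonal d * x = x * Matrix.diagonal d' ∧
      Matrix.diagonal d' * x = x * Matrix.diagonal d) (d : Fin 4 → ℂ) :
    T.π (Matrix.diagonal d) * (T.π (Matrix.diagonal c) *
        (1 - (2 : ℂ) • T.e 0 - (2 : ℂ) • (T.π x * T.e 0 * T.π x))) =
      T.π (Matrix.diagonal c) * (1 - (2 : ℂ) • T.e 0 - (2 : ℂ) • (T.π x * T.e 0 * T.π x)) *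
        T.π (Matrix.diagonal d) := by
  obtain ⟨d', h1, h2⟩ := hx d
  have he : ∀ a, Commute (T.π (Matrix.diagonal a)) (T.e 0) := fun a =>
    (T.comm 0 _ (T.diag_mem_A0 a)).symm
  have h3 : Commute (T.π (Matrix.diagonal d)) (T.π x * T.e 0 * T.π x) := by
    change _ * _ = _ * _
    rw [← mul_assoc, ← mul_assoc, ← map_mul, h1, map_mul, mul_assoc (T.π x), (he d').eq,
      ← mul_assoc, mul_assoc, ← map_mul, h2, map_mul, ← mul_assoc]
  have h4 : Commute (T.π (Matrix.diagonal d)) (T.π (Matrix.diagonal c)) :=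
    (Matrix.commute_diagonal d c).map T.π
  exact (h4.mul_right (((Commute.one_right _).sub_right ((he d).smul_right _)).sub_right
    (h3.smul_right _))).eq

lemma BaseRel_z0 : mZ0 = Matrix.diagonal ![1, -1, 1, -1] := by
  ext i j
  fin_cases i <;> fin_cases j <;> simp [mZ0]

lemma BaseRel_z1 : mZ1 = Matrix.diagonal ![1, 1, -1, -1] := by
  ext i j
  fin_cases i <;> fin_cases j <;> simp [mZ1]

lemma BaseRel_f (T : JonesTower H) {z w : M4}
    (h : (1 - (2 : ℂ) • flat) * z * (1 - (2 : ℂ) • flat) = -(z * w)) :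
    (1 - (2 : ℂ) • T.π flat) * T.π z * (1 - (2 : ℂ) • T.π flat) = -(T.π z * T.π w) := by
  have := congrArg T.π h
  simpa only [map_mul, map_sub, map_one, map_smul, map_neg] using this

/-- The conjugate of `π y`, `y ∈ mQ`, by the first two braid elements commutes with `π mZ0`. -/
theorem base_z0 (T : JonesTower H) {y : M4} (hy : y ∈ mQ) :
    T.π mZ0 * ((1 - (2 : ℂ) • T.π flat) * (1 - (2 : ℂ) • T.e 0) * T.π y *
        (1 - (2 : ℂ) • T.e 0) * (1 - (2 : ℂ) • T.π flat)) =
      ((1 - (2 : ℂ) • T.π flat) * (1 - (2 : ℂ) • T.e 0) * T.π y *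
        (1 - (2 : ℂ) • T.e 0) * (1 - (2 : ℂ) • T.π flat)) * T.π mZ0 := by
  have hF := BaseRel_sym (flat_proj.map T.π).isIdempotentElem.eq
  have hG := BaseRel_sym (T.proj 0).isIdempotentElem.eq
  have hf := BaseRel_f T (z := mZ0) (w := mX1) (by
    ext i j
    fin_cases i <;> fin_cases j <;>
      simp [mZ0, mX1, flat, Matrix.mul_apply, Fin.sum_univ_four, Matrix.one_apply] <;> norm_num)
  have hs := BaseRel_sum T
  rw [add_right_comm (T.e 0), ← BaseRel_X10] at hs
  obtain ⟨k1, k2, k3⟩ := BaseRel_key (z := T.π mZ0) (BaseRel_X11 T) (BaseRel_X00 T)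
    (BaseRel_X10 T).symm (by rw [BaseRel_z0]; exact (T.comm 0 _ (T.diag_mem_A0 _)).symm)
    (by
      rw [← map_mul, ← map_mul]
      congr 1
      ext i j
      fin_cases i <;> fin_cases j <;> simp [mZ0, mX1, Matrix.mul_apply, Fin.sum_univ_four])
    (by
      rw [← map_mul, ← map_mul, ← map_neg]
      congr 1
      ext i j
      fin_cases i <;> fin_cases j <;> simp [mZ0, mX0, Matrix.mul_apply, Fin.sum_univ_four])
    (BaseRel_e1 T) hs rfl
  have hall := BaseRel_all T (fun d => by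
    rw [BaseRel_z0]
    exact BaseRel_diag T (x := mX1) _ (fun d => ⟨![d 2, d 3, d 0, d 1], by
      constructor <;> ext i j <;> fin_cases i <;> fin_cases j <;>
        simp [mX1, Matrix.diagonal_mul, Matrix.mul_diagonal]⟩) d) k3 k2 y
  have hy1 : T.π mX1 * T.π y = T.π y * T.π mX1 := by
    rw [← map_mul, ← map_mul, show y * mX1 = mX1 * y from hy]
  refine BaseRel_conj hF hG (by rw [hf, k1]) ?_
  rw [neg_mul, mul_neg, mul_assoc, ← hall, ← mul_assoc, hy1, mul_assoc]

/-- Conjugation by `π mZ1` acts on the same conjugate of `π y` as `mX0` acts on `y`. -/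
theorem base_z1 (T : JonesTower H) (y : M4) :
    T.π mZ1 * ((1 - (2 : ℂ) • T.π flat) * (1 - (2 : ℂ) • T.e 0) * T.π y *
        (1 - (2 : ℂ) • T.e 0) * (1 - (2 : ℂ) • T.π flat)) * T.π mZ1 =
      (1 - (2 : ℂ) • T.π flat) * (1 - (2 : ℂ) • T.e 0) * T.π (mX0 * y * mX0) *
        (1 - (2 : ℂ) • T.e 0) * (1 - (2 : ℂ) • T.π flat) := by
  have hF := BaseRel_sym (flat_proj.map T.π).isIdempotentElem.eq
  have hG := BaseRel_sym (T.proj 0).isIdempotentElem.eq
  have hf := BaseRel_f T (z := mZ1) (w := mX0) (by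
    ext i j
    fin_cases i <;> fin_cases j <;>
      simp [mZ1, mX0, flat, Matrix.mul_apply, Fin.sum_univ_four, Matrix.one_apply] <;> norm_num)
  obtain ⟨k1, k2, k3⟩ := BaseRel_key (z := T.π mZ1) (BaseRel_X00 T) (BaseRel_X11 T)
    (BaseRel_X10 T) (by rw [BaseRel_z1]; exact (T.comm 0 _ (T.diag_mem_A0 _)).symm)
    (by
      rw [← map_mul, ← map_mul]
      congr 1
      ext i j
      fin_cases i <;> fin_cases j <;> simp [mZ1, mX0, Matrix.mul_apply, Fin.sum_univ_four])
    (by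
      rw [← map_mul, ← map_mul, ← map_neg]
      congr 1
      ext i j
      fin_cases i <;> fin_cases j <;> simp [mZ1, mX1, Matrix.mul_apply, Fin.sum_univ_four])
    (BaseRel_e0 T) (BaseRel_sum T) rfl
  have hall := BaseRel_all T (fun d => by
    rw [BaseRel_z1]
    exact BaseRel_diag T (x := mX0) _ (fun d => ⟨![d 1, d 0, d 3, d 2], by
      constructor <;> ext i j <;> fin_cases i <;> fin_cases j <;>
        simp [mX0, Matrix.diagonal_mul, Matrix.mul_diagonal]⟩) d) k2 k3 y
  have hz : T.π mZ1 * T.π mZ1 = 1 := by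
    rw [← map_mul, ← map_one T.π]
    congr 1
    ext i j
    fin_cases i <;> fin_cases j <;> simp [mZ1, Matrix.mul_apply, Fin.sum_univ_four]
  rw [BaseRel_conj (y' := T.π (mX0 * y * mX0)) hF hG (by rw [hf, k1]) ?_, mul_assoc, hz, mul_one]
  rw [neg_mul, mul_neg, mul_assoc, ← hall, map_mul, map_mul, mul_assoc (T.π mX0 * T.π y),
    ← mul_assoc (T.π mX0) (T.π mX0), BaseRel_X00, one_mul, mul_assoc (T.π mX0) (T.π y)]

/-- An operator commuting with `mZ0`, `flat` and `mZ1 flat mZ1` commutes with `π mQ`. -/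
theorem comm_mQ (T : JonesTower H) {t : H →L[ℂ] H} (h0 : T.π mZ0 * t = t * T.π mZ0)
    (h1 : T.π flat * t = t * T.π flat)
    (h2 : T.π (mZ1 * flat * mZ1) * t = t * T.π (mZ1 * flat * mZ1)) {y : M4} (hy : y ∈ mQ) :
    T.π y * t = t * T.π y := by
  have c0 : Commute (T.π mZ0) t := h0
  have c1 : Commute (T.π flat) t := h1
  have c2 : Commute (T.π (mZ1 * flat * mZ1)) t := h2
  have e0 : mX0 = (2 : ℂ) • (flat + mZ1 * flat * mZ1) - 1 := by
    ext i j
    simp only [Matrix.sub_apply, Matrix.smul_apply, Matrix.add_apply, Matrix.mul_apply,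
      Fin.sum_univ_four, flat, Matrix.of_apply]
    fin_cases i <;> fin_cases j <;> simp [mZ1, mX0] <;> norm_num
  have e1 : mX1 = (flat - mZ1 * flat * mZ1) + mZ0 * (flat - mZ1 * flat * mZ1) * mZ0 := by
    ext i j
    simp only [Matrix.sub_apply, Matrix.add_apply, Matrix.mul_apply, Fin.sum_univ_four, flat,
      Matrix.of_apply]
    fin_cases i <;> fin_cases j <;> simp [mZ0, mZ1, mX1] <;> norm_num
  have x0 : Commute (T.π mX0) t := by
    rw [e0, map_sub, map_smul, map_add, map_one]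
    exact ((c1.add_left c2).smul_left _).sub_left (Commute.one_left _)
  have x1 : Commute (T.π mX1) t := by
    rw [e1, map_add, map_mul, map_mul, map_sub]
    exact (c1.sub_left c2).add_left ((c0.mul_left (c1.sub_left c2)).mul_left c0)
  have q : ∀ i j, (y * mX1) i j = (mX1 * y) i j := fun i j => congrFun (congrFun hy i) j
  have q0 := q 0 0
  have q1 := q 0 1
  have q2 := q 0 2
  have q3 := q 0 3
  have q4 := q 1 0
  have q5 := q 1 1
  have q6 := q 1 2
  have q7 := q 1 3
  simp [mX1, Matrix.mul_apply, Fin.sum_univ_four] at q0 q1 q2 q3 q4 q5 q6 q7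
  have hl : ∀ a b : ℂ, Commute (T.π (Matrix.diagonal ![a, b, a, b])) t := fun a b => by
    have : Matrix.diagonal ![a, b, a, b] = ((a + b) / 2) • (1 : M4) + ((a - b) / 2) • mZ0 := by
      ext i j
      fin_cases i <;> fin_cases j <;> simp [mZ0] <;> ring
    rw [this, map_add, map_smul, map_smul, map_one]
    exact ((Commute.one_left _).smul_left _).add_left (c0.smul_left _)
  have hy' : y = Matrix.diagonal ![y 0 0, y 1 1, y 0 0, y 1 1] +
      Matrix.diagonal ![y 0 1, y 1 0, y 0 1, y 1 0] * mX0 +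
      Matrix.diagonal ![y 0 2, y 1 3, y 0 2, y 1 3] * mX1 +
      Matrix.diagonal ![y 0 3, y 1 2, y 0 3, y 1 2] * (mX0 * mX1) := by
    ext i j
    fin_cases i <;> fin_cases j <;>
      simp [mX0, mX1, Matrix.diagonal_mul, q0, q1, q2, q3, q4, q5, q6, q7]
  rw [hy']
  simp only [map_add, map_mul]
  exact ((((hl _ _).add_left ((hl _ _).mul_left x0)).add_left
    ((hl _ _).mul_left x1)).add_left ((hl _ _).mul_left (x0.mul_left x1))).eq

/-- Temperley-Lieb relations at the bottom of the tower. -/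
theorem tl_base (T : JonesTower H) :
    T.e 0 * T.π flat * T.e 0 = (1 / 4 : ℂ) • T.e 0 ∧
      T.π flat * T.e 0 * T.π flat = (1 / 4 : ℂ) • T.π flat := by
  constructor
  · rw [BaseRel_exe, show (Matrix.diagonal fun i => flat i i) = (1 / 4 : ℂ) • (1 : M4) by
      ext i j
      by_cases h : i = j <;> simp [flat, h], map_smul, map_one, smul_mul_assoc, one_mul]
  · have a0 : T.π flat * T.π mX0 = T.π flat ∧ T.π mX0 * T.π flat = T.π flat := by
      rw [← map_mul, ← map_mul]
      constructor <;> congr 1 <;> ext i j <;> fin_cases i <;> fin_cases j <;>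
        simp [mX0, flat, Matrix.mul_apply, Fin.sum_univ_four]
    have a1 : T.π flat * T.π mX1 = T.π flat ∧ T.π mX1 * T.π flat = T.π flat := by
      rw [← map_mul, ← map_mul]
      constructor <;> congr 1 <;> ext i j <;> fin_cases i <;> fin_cases j <;>
        simp [mX1, flat, Matrix.mul_apply, Fin.sum_univ_four]
    have b0 : ∀ t, T.π flat * (T.π mX0 * t) = T.π flat * t := fun t => by rw [← mul_assoc, a0.1]
    have b1 : ∀ t, T.π flat * (T.π mX1 * t) = T.π flat * t := fun t => by rw [← mul_assoc, a1.1]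
    have h := congrArg (fun s => T.π flat * s * T.π flat) (BaseRel_sum T)
    simp only [mul_add, add_mul, mul_assoc, a0.2, a1.2, b0, b1, one_mul,
      (flat_proj.map T.π).isIdempotentElem.eq] at h
    nth_rewrite 3 [← h]
    rw [mul_assoc]
    module

/-- Temperley-Lieb relations in the tower. -/
theorem tl_succ (T : JonesTower H) (k : ℕ) :
    T.e (k + 1) * T.e k * T.e (k + 1) = (1 / 4 : ℂ) • T.e (k + 1) ∧
      T.e k * T.e (k + 1) * T.e k = (1 / 4 : ℂ) • T.e k := by
  have m0 : T.e k ∈ T.A (k + 2) := e_mem_tower _ _ _ k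
  have m1 : T.e (k + 1) ∈ T.A (k + 3) := e_mem_tower _ _ _ (k + 1)
  have n0 : T.e k ∈ T.A (k + 3) := T.A_succ _ m0
  have hp := (T.proj k).isIdempotentElem.eq
  have sp := (T.proj k).isSelfAdjoint.star_eq
  have sq := (T.proj (k + 1)).isSelfAdjoint.star_eq
  have h1 : T.e (k + 1) * T.e k * T.e (k + 1) = (1 / 4 : ℂ) • T.e (k + 1) := by
    obtain ⟨y, hy, h2, h3⟩ := T.jones (k + 1) (T.e k) m0
    have hc : y - (1 / 4 : ℂ) • 1 ∈ T.A (k + 1) :=
      sub_mem hy (SMulMemClass.smul_mem _ (one_mem _))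
    have h4 := T.faithful (T.Ainf_le_R (T.A_le_Ainf _ hc)) (by
      have h5 := h2 _ (star_mem hc)
      rw [T.markov k _ (star_mem hc)] at h5
      rw [← BaseRel_tau_apply, mul_sub, map_sub, mul_smul_comm, mul_one, map_smul,
        BaseRel_tau_apply, BaseRel_tau_apply, ← h5, smul_eq_mul]
      ring)
    rw [h3, sub_eq_zero.1 h4, smul_mul_assoc, one_mul]
  refine ⟨h1, sub_eq_zero.1 (T.faithful (T.Ainf_le_R (T.A_le_Ainf (k + 3)
    (sub_mem (mul_mem (mul_mem n0 m1) n0) (SMulMemClass.smul_mem _ n0)))) ?_)⟩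
  have h2 : BaseRel_tau T (T.e k * (T.e (k + 1) * T.e k)) = BaseRel_tau T (T.e k) / 4 := by
    rw [← mul_assoc, BaseRel_tau_apply, T.tracial (k + 3) _ (mul_mem n0 m1) _ n0, ← mul_assoc, hp,
      T.markov (k + 1) _ m0, BaseRel_tau_apply]
  have hp' : ∀ t, T.e k * (T.e k * t) = T.e k * t := fun t => by rw [← mul_assoc, hp]
  have h1' : ∀ t, T.e (k + 1) * (T.e k * (T.e (k + 1) * t)) = (1 / 4 : ℂ) • (T.e (k + 1) * t) :=
    fun t => by rw [← mul_assoc, ← mul_assoc, h1, smul_mul_assoc]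
  have h3 : star (1 / 4 : ℂ) = 1 / 4 := by simp
  rw [← BaseRel_tau_apply, star_sub, star_mul, star_mul, star_smul, sp, sq, h3]
  simp only [mul_sub, sub_mul, mul_smul_comm, smul_mul_assoc, mul_assoc, hp, hp', h1', map_sub,
    map_smul, h2, smul_eq_mul]
  ring

end Pool.Agent.Lib.MP_862c25_an.RE
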