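import Pool.Agent.Lib.MP_862c25_an.RE.Base

open scoped InnerProductSpace

namespace Pool.Agent.Lib.MP_862c25_an.RE

variable {H : Type*} [NormedAddCommGroup H] [InnerProductSpace ℂ H] [CompleteSpace H]

lemma Concave_pow {s t : ℝ} (ht : 0 < t) : t ^ (1 - s) = t * Real.exp (-(s * Real.log t)) := by
  rw [Real.rpow_def_of_pos ht, show Real.log t * (1 - s) = Real.log t + -(s * Real.log t) by ring,
    Real.exp_add, Real.exp_log ht]

lemma Concave_lower {s t : ℝ} (hs : 0 < s) (hs1 : s < 1) (ht : 0 ≤ t) :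
    Real.negMulLog t ≤ s⁻¹ * (t ^ (1 - s) - t) := by
  rcases ht.eq_or_lt with h | h
  · subst h
    rw [Real.zero_rpow (by linarith)]
    simp
  · rw [Concave_pow h, ← div_eq_inv_mul, le_div_iff₀ hs, Real.negMulLog]
    have := Real.add_one_le_exp (-(s * Real.log t))
    nlinarith [mul_le_mul_of_nonneg_left this h.le]

lemma Concave_exp (u : ℝ) : Real.exp u - 1 - u ≤ u ^ 2 * (1 + Real.exp u) := by
  have h1 := Real.add_one_le_exp u
  have h2 := Real.add_one_le_exp (-u)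
  have hp := Real.exp_pos u
  have h3 : Real.exp (-u) * Real.exp u = 1 := by rw [← Real.exp_add]; simp
  have h4 : Real.exp u - 1 ≤ u * Real.exp u := by
    nlinarith [mul_le_mul_of_nonneg_right h2 hp.le]
  rcases le_total 0 u with hu | hu
  · nlinarith [mul_le_mul_of_nonneg_left h4 hu, sq_nonneg u]
  · have h5 : (-u) * (1 - Real.exp u) ≤ (-u) * (-u) :=
      mul_le_mul_of_nonneg_left (by linarith) (by linarith)
    nlinarith [mul_nonneg (sq_nonneg u) hp.le]

lemma Concave_bd {s t K : ℝ} (hs : 0 < s) (hs1 : s ≤ 1 / 2) (ht : 0 < t) (hK : t ≤ K) :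
    Real.log t ^ 2 * (t + t ^ (1 - s)) ≤ 32 + 2 * K ^ 3 := by
  have hK0 : 0 < K := ht.trans_le hK
  rcases le_total t 1 with h1 | h1
  · have a1 : t ^ (1 - s) ≤ t ^ (1 / 2 : ℝ) :=
      Real.rpow_le_rpow_of_exponent_ge ht h1 (by linarith)
    have a2 : t ≤ t ^ (1 / 2 : ℝ) := by
      have := Real.rpow_le_rpow_of_exponent_ge ht h1 (show (1 / 2 : ℝ) ≤ 1 by norm_num)
      rwa [Real.rpow_one] at this
    have a3 := Real.abs_log_mul_self_rpow_lt t (1 / 4) ht h1 (by norm_num)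
    have a4 : (Real.log t * t ^ (1 / 4 : ℝ)) ^ 2 ≤ 16 := by
      have h := abs_lt.1 a3
      norm_num at h
      nlinarith [h.1, h.2]
    have a5 : (t ^ (1 / 4 : ℝ)) ^ 2 = t ^ (1 / 2 : ℝ) := by
      rw [← Real.rpow_natCast, ← Real.rpow_mul ht.le]; norm_num
    rw [mul_pow, a5] at a4
    have a6 : Real.log t ^ 2 * (t + t ^ (1 - s)) ≤
        Real.log t ^ 2 * (t ^ (1 / 2 : ℝ) + t ^ (1 / 2 : ℝ)) :=
      mul_le_mul_of_nonneg_left (add_le_add a2 a1) (sq_nonneg _)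
    have a7 : 0 ≤ K ^ 3 := by positivity
    linarith
  · have a1 : t ^ (1 - s) ≤ t := by
      have := Real.rpow_le_rpow_of_exponent_le h1 (show 1 - s ≤ 1 by linarith)
      rwa [Real.rpow_one] at this
    have a2 : 0 ≤ Real.log t := Real.log_nonneg h1
    have a3 : Real.log t ≤ t := (Real.log_le_sub_one_of_pos ht).trans (by linarith)
    have a4 : Real.log t ^ 2 ≤ K ^ 2 := pow_le_pow_left₀ a2 (a3.trans hK) 2
    have a5 : 0 ≤ t ^ (1 - s) := Real.rpow_nonneg ht.le _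
    have a6 : Real.log t ^ 2 * (t + t ^ (1 - s)) ≤ K ^ 2 * (K + K) :=
      mul_le_mul a4 (add_le_add hK (a1.trans hK)) (by linarith) (sq_nonneg _)
    nlinarith

lemma Concave_upper {s t K : ℝ} (hs : 0 < s) (hs1 : s ≤ 1 / 2) (ht : 0 ≤ t) (hK : t ≤ K) :
    s⁻¹ * (t ^ (1 - s) - t) ≤ Real.negMulLog t + s * (32 + 2 * K ^ 3) := by
  rcases ht.eq_or_lt with h | h
  · subst h
    rw [Real.zero_rpow (by linarith)]
    simp only [sub_self, mul_zero, Real.negMulLog_zero, zero_add]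
    positivity
  · have hb := Concave_bd hs hs1 h hK
    rw [Concave_pow h] at hb
    rw [Concave_pow h, ← div_eq_inv_mul, div_le_iff₀ hs, Real.negMulLog]
    have h1 := mul_le_mul_of_nonneg_left (Concave_exp (-(s * Real.log t))) h.le
    have h2 := mul_le_mul_of_nonneg_left hb (sq_nonneg s)
    nlinarith

omit [CompleteSpace H] in
lemma Concave_mono (Ω : H) {a b : H →L[ℂ] H} (h : a ≤ b) :
    (⟪Ω, a Ω⟫_ℂ).re ≤ (⟪Ω, b Ω⟫_ℂ).re := by
  have h1 := ((ContinuousLinearMap.le_def a b).1 h).re_inner_nonneg_right Ω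
  rw [ContinuousLinearMap.sub_apply, inner_sub_right] at h1
  simp only [RCLike.re_to_complex, Complex.sub_re] at h1
  linarith

lemma Concave_cfc {s : ℝ} (hs1 : s < 1) {a : H →L[ℂ] H} (ha : 0 ≤ a) :
    cfc (fun t : ℝ => s⁻¹ * (t ^ (1 - s) - t)) a = s⁻¹ • (a ^ (1 - s) - a) := by
  have hc : Continuous fun t : ℝ => t ^ (1 - s) := Real.continuous_rpow_const (by linarith)
  have hsa : IsSelfAdjoint a := ha.isSelfAdjoint
  have hd : Continuous fun t : ℝ => t ^ (1 - s) - t := hc.sub continuous_id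
  have hi : Continuous fun t : ℝ => t := continuous_id
  rw [cfc_const_mul _ _ a hd.continuousOn,
    cfc_sub _ _ a hc.continuousOn hi.continuousOn, cfc_id' ℝ a, CFC.rpow_eq_cfc_real ha]

lemma Concave_conj {V y : H →L[ℂ] H} (hV : star V = V) (hVV : V * V = 1) (hy0 : 0 ≤ y)
    {f : ℝ → ℝ} (hf : Continuous f) : cfc f (V * y * V) = V * cfc f y * V := by
  let u : unitary (H →L[ℂ] H) := ⟨V, by rw [Unitary.mem_iff, hV]; exact ⟨hVV, hVV⟩⟩
  have hφ : ∀ x, Unitary.conjStarAlgAut ℂ (H →L[ℂ] H) u x = V * x * V := fun x => by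
    rw [Unitary.conjStarAlgAut_apply]
    change V * x * star V = _
    rw [hV]
  have hc : Continuous (Unitary.conjStarAlgAut ℂ (H →L[ℂ] H) u) := by
    rw [funext hφ]; fun_prop
  have hsa : IsSelfAdjoint y := hy0.isSelfAdjoint
  have hsa' : IsSelfAdjoint (Unitary.conjStarAlgAut ℂ (H →L[ℂ] H) u y) := by
    rw [hφ, IsSelfAdjoint, star_mul, star_mul, hV, hsa.star_eq, mul_assoc]
  have := StarAlgHomClass.map_cfc (S := ℂ) (Unitary.conjStarAlgAut ℂ (H →L[ℂ] H) u) f y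
    hf.continuousOn hc hsa hsa'
  rw [hφ, hφ] at this
  exact this.symm

lemma Concave_tau_conj (Ω : H) {V : H →L[ℂ] H} (hV : star V = V) (hVΩ : V Ω = Ω)
    (x : H →L[ℂ] H) : ⟪Ω, (V * x * V) Ω⟫_ℂ = ⟪Ω, x Ω⟫_ℂ := by
  rw [ContinuousLinearMap.mul_apply, ContinuousLinearMap.mul_apply, hVΩ,
    ← ContinuousLinearMap.adjoint_inner_left, ← ContinuousLinearMap.star_eq_adjoint, hV, hVΩ]

/-- Averaging over a symmetry does not lower `τη` (operator concavity of `η`). -/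
theorem concave_avg (Ω : H) {V y : H →L[ℂ] H} (hV : star V = V) (hVV : V * V = 1)
    (hVΩ : V Ω = Ω) (hy0 : 0 ≤ y) :
    (⟪Ω, (cfc Real.negMulLog y) Ω⟫_ℂ).re ≤
      (⟪Ω, (cfc Real.negMulLog ((1 / 2 : ℂ) • (y + V * y * V))) Ω⟫_ℂ).re := by
  have hz0 : 0 ≤ V * y * V := by
    have := star_left_conjugate_nonneg hy0 V
    rwa [hV] at this
  set B : H →L[ℂ] H := (1 / 2 : ℂ) • (y + V * y * V) with hB
  have hB' : B = (1 / 2 : ℝ) • y + (1 / 2 : ℝ) • (V * y * V) := by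
    rw [hB, ← smul_add, ← Complex.coe_smul]; norm_num
  have hB0 : 0 ≤ B := by
    rw [hB']
    exact add_nonneg (smul_nonneg (by norm_num) hy0) (smul_nonneg (by norm_num) hz0)
  set C : ℝ := (32 + 2 * ‖B‖ ^ 3) * (⟪Ω, Ω⟫_ℂ).re with hC
  have key : ∀ s : ℝ, 0 < s → s ≤ 1 / 2 → (⟪Ω, (cfc Real.negMulLog y) Ω⟫_ℂ).re ≤
      (⟪Ω, (cfc Real.negMulLog B) Ω⟫_ℂ).re + s * C := by
    intro s hs hs2
    have hs1 : s < 1 := by linarith
    have hc : Continuous fun t : ℝ => t ^ (1 - s) := Real.continuous_rpow_const (by linarith)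
    have hφ : Continuous fun t : ℝ => s⁻¹ * (t ^ (1 - s) - t) :=
      continuous_const.mul (hc.sub continuous_id)
    have h1 : cfc Real.negMulLog y ≤ s⁻¹ • (y ^ (1 - s) - y) := by
      rw [← Concave_cfc hs1 hy0]
      exact cfc_mono (fun t ht => Concave_lower hs hs1 (spectrum_nonneg_of_nonneg hy0 ht))
        Real.continuous_negMulLog.continuousOn hφ.continuousOn
    have h2 : s⁻¹ • (B ^ (1 - s) - B) ≤
        cfc Real.negMulLog B + (s * (32 + 2 * ‖B‖ ^ 3)) • (1 : H →L[ℂ] H) := by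
      have hsa : IsSelfAdjoint B := hB0.isSelfAdjoint
      rw [← Concave_cfc hs1 hB0, ← Algebra.algebraMap_eq_smul_one,
        ← cfc_add_const _ _ B Real.continuous_negMulLog.continuousOn]
      refine cfc_mono (fun t ht => Concave_upper hs hs2 (spectrum_nonneg_of_nonneg hB0 ht) ?_)
        hφ.continuousOn (Real.continuous_negMulLog.add continuous_const).continuousOn
      rcases subsingleton_or_nontrivial (H →L[ℂ] H) with hn | hn
      · simp [spectrum.of_subsingleton] at ht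
      · exact (le_abs_self t).trans (spectrum.norm_le_norm_of_mem ht)
    have h3 : (1 / 2 : ℝ) • y ^ (1 - s) + (1 / 2 : ℝ) • (V * y * V) ^ (1 - s) ≤ B ^ (1 - s) := by
      rw [hB']
      exact (CFC.concaveOn_rpow (A := H →L[ℂ] H) (p := 1 - s) ⟨by linarith, by linarith⟩).2
        hy0 hz0 (by norm_num) (by norm_num) (by norm_num)
    have h4 : (V * y * V) ^ (1 - s) = V * y ^ (1 - s) * V := by
      rw [CFC.rpow_eq_cfc_real hz0, CFC.rpow_eq_cfc_real hy0, Concave_conj hV hVV hy0 hc]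
    rw [h4] at h3
    have e1 := Concave_mono Ω h1
    have e2 := Concave_mono Ω h2
    have e3 := Concave_mono Ω h3
    have e4 : (⟪Ω, B Ω⟫_ℂ).re = (⟪Ω, y Ω⟫_ℂ).re := by
      rw [hB, ContinuousLinearMap.smul_apply, ContinuousLinearMap.add_apply, inner_smul_right,
        inner_add_right, Concave_tau_conj Ω hV hVΩ]
      congr 1; ring
    have hr : ∀ (r : ℝ) (x : H →L[ℂ] H), (⟪Ω, (r • x) Ω⟫_ℂ).re = r * (⟪Ω, x Ω⟫_ℂ).re := by
      intro r x
      rw [← Complex.coe_smul, ContinuousLinearMap.smul_apply, inner_smul_right,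
        Complex.re_ofReal_mul]
    rw [hr, ContinuousLinearMap.sub_apply, inner_sub_right, Complex.sub_re] at e1
    rw [hr, ContinuousLinearMap.sub_apply, inner_sub_right, Complex.sub_re,
      ContinuousLinearMap.add_apply, inner_add_right, Complex.add_re, hr,
      ContinuousLinearMap.one_apply, e4] at e2
    rw [ContinuousLinearMap.add_apply, inner_add_right, Complex.add_re, hr, hr,
      Concave_tau_conj Ω hV hVΩ] at e3
    have e5 : s⁻¹ * ((⟪Ω, (y ^ (1 - s)) Ω⟫_ℂ).re - (⟪Ω, y Ω⟫_ℂ).re) ≤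
        s⁻¹ * ((⟪Ω, (B ^ (1 - s)) Ω⟫_ℂ).re - (⟪Ω, y Ω⟫_ℂ).re) :=
      mul_le_mul_of_nonneg_left (by linarith) (inv_nonneg.2 hs.le)
    rw [hC]
    linarith
  have hlim : Filter.Tendsto (fun s : ℝ => (⟪Ω, (cfc Real.negMulLog B) Ω⟫_ℂ).re + s * C)
      (nhdsWithin 0 (Set.Ioi 0)) (nhds ((⟪Ω, (cfc Real.negMulLog B) Ω⟫_ℂ).re + 0 * C)) :=
    ((continuous_const.add (continuous_id.mul continuous_const)).tendsto 0).mono_left
      nhdsWithin_le_nhds
  rw [zero_mul, add_zero] at hlim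
  refine ge_of_tendsto hlim ?_
  have h₁ : ∀ᶠ s : ℝ in nhdsWithin 0 (Set.Ioi 0), 0 < s ∧ s < 1 / 2 :=
    (nhdsGT_basis 0).mem_of_mem (by norm_num)
  filter_upwards [h₁] with s hs
  exact key s hs.1 hs.2.le

end Pool.Agent.Lib.MP_862c25_an.RE
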