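import Pool.Agent.Lib.MP_862c25_an.RE.BaseRel

open scoped InnerProductSpace Matrix

namespace Pool.Agent.Lib.MP_862c25_an.RE

variable {H : Type*} [NormedAddCommGroup H] [InnerProductSpace ℂ H] [CompleteSpace H]

/-- the projections `flat, e 0, e 1, …` -/
noncomputable def ee (T : JonesTower H) : ℕ → (H →L[ℂ] H)
  | 0 => T.π flat
  | k + 1 => T.e k

/-- the braid elements -/
noncomputable def gg (T : JonesTower H) (k : ℕ) : H →L[ℂ] H := 1 - (2 : ℂ) • ee T k

/-- the moving unitaries -/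
noncomputable def GG (T : JonesTower H) : ℕ → (H →L[ℂ] H)
  | 0 => 1
  | k + 1 => gg T k * gg T (k + 1) * GG T k

theorem copies_braid {R : Type*} [Ring R] [Algebra ℂ R] {p q : R} (hp : p * p = p) (hq : q * q = q)
    (h1 : p * q * p = (1 / 4 : ℂ) • p) (h2 : q * p * q = (1 / 4 : ℂ) • q) :
    q * ((1 - (2 : ℂ) • p) * (1 - (2 : ℂ) • q)) =
      (1 - (2 : ℂ) • p) * (1 - (2 : ℂ) • q) * p := by
  have e1 : q * ((1 - (2 : ℂ) • p) * (1 - (2 : ℂ) • q)) =
      q - (2 : ℂ) • (q * q) - (2 : ℂ) • (q * p) + (4 : ℂ) • (q * p * q) := by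
    simp only [mul_sub, sub_mul, mul_one, one_mul, mul_smul_comm, smul_mul_assoc, mul_assoc]
    module
  have e2 : (1 - (2 : ℂ) • p) * (1 - (2 : ℂ) • q) * p =
      p - (2 : ℂ) • (p * p) - (2 : ℂ) • (q * p) + (4 : ℂ) • (p * q * p) := by
    simp only [mul_sub, sub_mul, mul_one, one_mul, mul_smul_comm, smul_mul_assoc, mul_assoc]
    module
  rw [e1, e2, hp, hq, h1, h2]
  module

theorem copies_flat_mQ : flat ∈ mQ := by
  change flat * mX1 = mX1 * flat
  ext i j
  fin_cases i <;> fin_cases j <;> simp [flat, mX1, Matrix.mul_apply, Fin.sum_univ_four]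

theorem copies_star_X1 : star mX1 = mX1 := by
  ext i j
  fin_cases i <;> fin_cases j <;> simp [mX1, Matrix.star_apply]

theorem copies_X0X1 : mX0 * mX1 = mX1 * mX0 := by
  ext i j
  fin_cases i <;> fin_cases j <;> simp [mX0, mX1, Matrix.mul_apply, Fin.sum_univ_four]

theorem copies_Z1Z1 : mZ1 * mZ1 = 1 := by
  ext i j
  fin_cases i <;> fin_cases j <;> simp [mZ1, Matrix.mul_apply, Fin.sum_univ_four]

theorem copies_Z0_diag : mZ0 = Matrix.diagonal ![1, -1, 1, -1] := by
  ext i j
  fin_cases i <;> fin_cases j <;> simp [mZ0]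

theorem copies_Z1_diag : mZ1 = Matrix.diagonal ![1, 1, -1, -1] := by
  ext i j
  fin_cases i <;> fin_cases j <;> simp [mZ1]

theorem copies_star_mQ {y : M4} (hy : y ∈ mQ) : star y ∈ mQ := by
  have h : y * mX1 = mX1 * y := hy
  have h2 := congrArg star h
  rw [star_mul, star_mul, copies_star_X1] at h2
  exact h2.symm

theorem copies_conj_mQ {y : M4} (hy : y ∈ mQ) : mX0 * y * mX0 ∈ mQ := by
  have h : y * mX1 = mX1 * y := hy
  change mX0 * y * mX0 * mX1 = mX1 * (mX0 * y * mX0)
  calc mX0 * y * mX0 * mX1 = mX0 * (y * mX1) * mX0 := by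
        rw [mul_assoc (mX0 * y), copies_X0X1]; simp only [mul_assoc]
    _ = mX1 * (mX0 * y * mX0) := by
        rw [h, ← mul_assoc mX0, copies_X0X1]; simp only [mul_assoc]

theorem copies_ee_proj (T : JonesTower H) : ∀ k, IsStarProjection (ee T k)
  | 0 => flat_proj.map T.π
  | k + 1 => T.proj k

theorem copies_ee_Q (T : JonesTower H) : ∀ k, ee T k ∈ T.Qk (k + 1)
  | 0 => StarAlgebra.subset_adjoin ℂ _ ⟨flat, copies_flat_mQ, rfl⟩
  | k + 1 => e_mem_tower _ _ _ k

theorem copies_ee_TL (T : JonesTower H) : ∀ k, ee T k ∈ T.TL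
  | 0 => StarAlgebra.subset_adjoin ℂ _ (Or.inl rfl)
  | k + 1 => StarAlgebra.subset_adjoin ℂ _ (Or.inr ⟨k, rfl⟩)

theorem copies_gg_mem (T : JonesTower H) (k : ℕ) {S : StarSubalgebra ℂ (H →L[ℂ] H)}
    (h : ee T k ∈ S) : gg T k ∈ S :=
  sub_mem (one_mem S) (SMulMemClass.smul_mem _ h)

theorem copies_gg_star (T : JonesTower H) (k : ℕ) : star (gg T k) = gg T k := by
  rw [gg, star_sub, star_one, star_smul, (copies_ee_proj T k).isSelfAdjoint.star_eq]
  simp

theorem copies_gg_sq (T : JonesTower H) (k : ℕ) : gg T k * gg T k = 1 := by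
  have h : ee T k * ee T k = ee T k := (copies_ee_proj T k).isIdempotentElem.eq
  simp only [gg, mul_sub, sub_mul, mul_one, one_mul, mul_smul_comm, smul_mul_assoc, h]
  module

theorem copies_gg_comm (T : JonesTower H) (k : ℕ) {x : H →L[ℂ] H} (hx : x ∈ T.A k) :
    Commute x (gg T (k + 1)) :=
  (Commute.one_right x).sub_right (Commute.smul_right (T.comm k x hx).symm _)

theorem copies_tl (T : JonesTower H) : ∀ k,
    ee T (k + 1) * ee T k * ee T (k + 1) = (1 / 4 : ℂ) • ee T (k + 1) ∧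
      ee T k * ee T (k + 1) * ee T k = (1 / 4 : ℂ) • ee T k
  | 0 => tl_base T
  | k + 1 => tl_succ T k

theorem copies_move (T : JonesTower H) (k : ℕ) :
    ee T k * (gg T (k + 1) * gg T k) = gg T (k + 1) * gg T k * ee T (k + 1) :=
  copies_braid (copies_ee_proj T (k + 1)).isIdempotentElem.eq
    (copies_ee_proj T k).isIdempotentElem.eq (copies_tl T k).1 (copies_tl T k).2

/-- The moving unitaries are unitaries of the Temperley-Lieb algebra. -/
theorem GG_unitary (T : JonesTower H) (k : ℕ) :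
    GG T k ∈ T.TL ∧ GG T k ∈ T.Qk (k + 1) ∧ star (GG T k) * GG T k = 1 ∧
      GG T k * star (GG T k) = 1 := by
  induction k with
  | zero => exact ⟨one_mem _, one_mem _, by simp [GG], by simp [GG]⟩
  | succ k ih =>
    obtain ⟨h1, h2, h3, h4⟩ := ih
    have e : GG T (k + 1) = gg T k * gg T (k + 1) * GG T k := rfl
    have es : star (GG T (k + 1)) = star (GG T k) * (gg T (k + 1) * gg T k) := by
      rw [e, star_mul, star_mul, copies_gg_star, copies_gg_star]
    refine ⟨?_, ?_, ?_, ?_⟩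
    · exact mul_mem (mul_mem (copies_gg_mem T _ (copies_ee_TL T _))
        (copies_gg_mem T _ (copies_ee_TL T _))) h1
    · exact mul_mem (mul_mem (copies_gg_mem T _ (T.Qk_succ _ (copies_ee_Q T k)))
        (copies_gg_mem T _ (copies_ee_Q T (k + 1)))) (T.Qk_succ _ h2)
    · rw [es, e]
      calc _ = star (GG T k) * (gg T (k + 1) * (gg T k * gg T k) * gg T (k + 1)) * GG T k := by
            simp only [mul_assoc]
        _ = 1 := by rw [copies_gg_sq, mul_one, copies_gg_sq, mul_one, h3]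
    · rw [es, e]
      calc _ = gg T k * (gg T (k + 1) * (GG T k * star (GG T k)) * gg T (k + 1)) * gg T k := by
            simp only [mul_assoc]
        _ = 1 := by rw [h4, mul_one, copies_gg_sq, mul_one, copies_gg_sq]

/-- the moved copy -/
noncomputable def copiesC (T : JonesTower H) (k : ℕ) (y : M4) : H →L[ℂ] H :=
  GG T k * T.π y * star (GG T k)

theorem copiesC_succ (T : JonesTower H) (k : ℕ) (y : M4) :
    copiesC T (k + 1) y =
      gg T k * gg T (k + 1) * copiesC T k y * (gg T (k + 1) * gg T k) := by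
  have e : GG T (k + 1) = gg T k * gg T (k + 1) * GG T k := rfl
  rw [copiesC, copiesC, e, star_mul, star_mul, copies_gg_star, copies_gg_star]
  simp only [mul_assoc]

theorem copiesC_mem (T : JonesTower H) (k : ℕ) (y : M4) : copiesC T k y ∈ T.A (k + 1) := by
  have h := T.Qk_le_A _ (GG_unitary T k).2.1
  exact mul_mem (mul_mem h (T.A_mono (by omega) (T.pi_mem_A1 y))) (star_mem h)

theorem copiesC_star (T : JonesTower H) (k : ℕ) (y : M4) :
    star (copiesC T k y) = copiesC T k (star y) := by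
  rw [copiesC, copiesC, star_mul, star_mul, star_star, map_star, mul_assoc]

theorem copies_step (T : JonesTower H) (k : ℕ) (y : M4) {q : H →L[ℂ] H} (hq : q ∈ T.A k)
    (h : Commute q (copiesC T (k + 1) y)) : Commute q (copiesC T (k + 2) y) := by
  have h1 := copies_gg_comm T k hq
  have h2 := copies_gg_comm T (k + 1) (T.A_succ k hq)
  rw [copiesC_succ T (k + 1)]
  exact ((h1.mul_right h2).mul_right h).mul_right (h2.mul_right h1)

theorem copies_key (T : JonesTower H) (j : ℕ) (y : M4) :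
    Commute (ee T j) (copiesC T (j + 2) y) := by
  have hc : Commute (gg T j) (gg T (j + 2)) :=
    copies_gg_comm T (j + 1) (copies_gg_mem T j (T.Qk_le_A _ (copies_ee_Q T j)))
  set w := gg T (j + 1) * gg T j * (gg T (j + 2) * gg T (j + 1)) with hw
  have e1 : ee T j * w = w * ee T (j + 2) := by
    rw [hw, ← mul_assoc, copies_move, mul_assoc, copies_move T (j + 1), ← mul_assoc]
  have e2 : star w * ee T j = ee T (j + 2) * star w := by
    have := congrArg star e1
    rwa [star_mul, star_mul w, (copies_ee_proj T j).isSelfAdjoint.star_eq,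
      (copies_ee_proj T (j + 2)).isSelfAdjoint.star_eq] at this
  have e3 : copiesC T (j + 2) y = w * copiesC T j y * star w := by
    have w1 : w = gg T (j + 1) * gg T (j + 2) * (gg T j * gg T (j + 1)) := by
      rw [hw, mul_assoc, mul_assoc, ← mul_assoc (gg T j), hc.eq, mul_assoc]
    rw [copiesC_succ T (j + 1), copiesC_succ T j, w1]
    simp only [star_mul, copies_gg_star, mul_assoc]
  have e4 : ee T (j + 2) * copiesC T j y = copiesC T j y * ee T (j + 2) :=
    T.comm (j + 1) _ (copiesC_mem T j y)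
  change ee T j * _ = _ * ee T j
  rw [e3]
  calc _ = (ee T j * w) * copiesC T j y * star w := by simp only [mul_assoc]
    _ = w * (ee T (j + 2) * copiesC T j y) * star w := by rw [e1]; simp only [mul_assoc]
    _ = w * copiesC T j y * (ee T (j + 2) * star w) := by rw [e4]; simp only [mul_assoc]
    _ = _ := by rw [← e2]; simp only [mul_assoc]

theorem copies_one (T : JonesTower H) (y : M4) : copiesC T 1 y =
    (1 - (2 : ℂ) • T.π flat) * (1 - (2 : ℂ) • T.e 0) * T.π y *
      (1 - (2 : ℂ) • T.e 0) * (1 - (2 : ℂ) • T.π flat) := by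
  have e0 : copiesC T 0 y = T.π y := by simp [copiesC, GG]
  rw [copiesC_succ, e0, ← mul_assoc]
  rfl

theorem copies_two (T : JonesTower H) {y : M4} (hy : y ∈ mQ) {z : M4} (hz : z ∈ mQ) :
    Commute (T.π z) (copiesC T 2 y) := by
  have a0 : T.π mZ0 ∈ T.A 0 := by rw [copies_Z0_diag]; exact T.diag_mem_A0 _
  have a1 : T.π mZ1 ∈ T.A 0 := by rw [copies_Z1_diag]; exact T.diag_mem_A0 _
  have zz : T.π mZ1 * T.π mZ1 = 1 := by rw [← map_mul, copies_Z1Z1, map_one]
  have c1 := copies_gg_comm T 0 a1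
  have c2 := copies_gg_comm T 1 (T.A_succ 0 a1)
  have hz1 : T.π mZ1 * copiesC T 2 y * T.π mZ1 = copiesC T 2 (mX0 * y * mX0) := by
    rw [copiesC_succ T 1, copiesC_succ T 1, copies_one, copies_one, ← base_z1, ← copies_one]
    calc _ = (T.π mZ1 * (gg T 1 * gg T 2)) * copiesC T 1 y * ((gg T 2 * gg T 1) * T.π mZ1) := by
          simp only [mul_assoc]
      _ = _ := by
          rw [(c1.mul_right c2).eq, ← (c2.mul_right c1).eq]
          simp only [mul_assoc]
  refine comm_mQ T ?_ (copies_key T 0 y).eq ?_ hz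
  · refine (copies_step T 0 y a0 ?_).eq
    rw [copies_one]
    exact base_z0 T hy
  · have k : T.π flat * copiesC T 2 (mX0 * y * mX0) = copiesC T 2 (mX0 * y * mX0) * T.π flat :=
      (copies_key T 0 _).eq
    rw [← hz1] at k
    rw [map_mul, map_mul]
    calc _ = T.π mZ1 * T.π flat * T.π mZ1 * copiesC T 2 y * (T.π mZ1 * T.π mZ1) := by
          rw [zz, mul_one]
      _ = T.π mZ1 * (T.π flat * (T.π mZ1 * copiesC T 2 y * T.π mZ1)) * T.π mZ1 := by
          simp only [mul_assoc]
      _ = (T.π mZ1 * T.π mZ1) * copiesC T 2 y * (T.π mZ1 * T.π flat * T.π mZ1) := by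
          rw [k]; simp only [mul_assoc]
      _ = _ := by rw [zz, one_mul]

theorem copies_adjoin (T : JonesTower H) (k : ℕ) {S : Set (H →L[ℂ] H)}
    (h : ∀ q ∈ S, ∀ y ∈ mQ, Commute q (copiesC T k y)) {q : H →L[ℂ] H}
    (hq : q ∈ StarAlgebra.adjoin ℂ S) {y : M4} (hy : y ∈ mQ) : Commute q (copiesC T k y) := by
  have hle : StarAlgebra.adjoin ℂ S ≤ StarSubalgebra.centralizer ℂ (copiesC T k '' mQ) := by
    refine StarAlgebra.adjoin_le fun x hx => ?_
    rw [SetLike.mem_coe, StarSubalgebra.mem_centralizer_iff]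
    rintro _ ⟨z, hz, rfl⟩
    rw [copiesC_star]
    exact ⟨(h x hx z hz).symm.eq, (h x hx _ (copies_star_mQ hz)).symm.eq⟩
  exact (((StarSubalgebra.mem_centralizer_iff ℂ).1 (hle hq)) _ ⟨y, hy, rfl⟩).1.symm

theorem copies_succ (T : JonesTower H) (k : ℕ) : ∀ q ∈ T.Qk (k + 1), ∀ y ∈ mQ,
    Commute q (copiesC T (k + 2) y) := by
  induction k with
  | zero =>
    intro q hq y hy
    have hq' : q ∈ StarAlgebra.adjoin ℂ (T.π '' mQ) := hq
    refine copies_adjoin T 2 ?_ hq' hy
    rintro _ ⟨z, hz, rfl⟩ y hy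
    exact copies_two T hy hz
  | succ k ih =>
    intro q hq y hy
    have hq' : q ∈ StarAlgebra.adjoin ℂ ((T.Qk (k + 1) : Set (H →L[ℂ] H)) ∪ {T.e k}) := hq
    refine copies_adjoin T (k + 1 + 2) ?_ hq' hy
    intro x hx y hy
    rcases hx with hx | hx
    · exact copies_step T (k + 1) y (T.Qk_le_A _ hx) (ih x hx y hy)
    · rw [Set.mem_singleton_iff.1 hx]
      exact copies_key T (k + 1) y

theorem copies_main (T : JonesTower H) (k : ℕ) : ∀ q ∈ T.Qk k, ∀ y ∈ mQ,
    Commute q (copiesC T (k + 1) y) := by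
  cases k with
  | zero =>
    intro q hq y hy
    have hq' : q ∈ StarAlgebra.adjoin ℂ (∅ : Set (H →L[ℂ] H)) := hq
    exact copies_adjoin T (0 + 1) (fun _ h => h.elim) hq' hy
  | succ k => exact copies_succ T k

/-- The moved copy of `π mQ` commutes with the lower levels of the intermediate tower. -/
theorem GG_comm (T : JonesTower H) (k : ℕ) {y : M4} (hy : y ∈ mQ) {q : H →L[ℂ] H}
    (hq : q ∈ T.Qk k) :
    q * (GG T (k + 1) * T.π y * star (GG T (k + 1))) =
      (GG T (k + 1) * T.π y * star (GG T (k + 1))) * q := by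
  exact (copies_main T k q hq y hy).eq

end Pool.Agent.Lib.MP_862c25_an.RE
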