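import Pool.Agent.Lib.MP_862c25_an.RE.Copies

open scoped InnerProductSpace Matrix

namespace Pool.Agent.Lib.MP_862c25_an.RE

variable {H : Type*} [NormedAddCommGroup H] [InnerProductSpace ℂ H] [CompleteSpace H]

/-- `x` lies in level `j + 1` and is orthogonal to level `j` -/
def IndepOrth (T : JonesTower H) (j : ℕ) (x : H →L[ℂ] H) : Prop :=
  x ∈ T.A (j + 1) ∧ ∀ z ∈ T.A j, ⟪T.Ω, (z * x) T.Ω⟫_ℂ = 0

lemma Indep_e_mem (T : JonesTower H) (j : ℕ) : T.e j ∈ T.A (j + 2) := e_mem_tower _ _ _ j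

lemma Indep_gg_mem (T : JonesTower H) : ∀ j : ℕ, gg T j ∈ T.A (j + 1)
  | 0 => sub_mem (one_mem _) (SMulMemClass.smul_mem _ (T.pi_mem_A1 flat))
  | j + 1 => sub_mem (one_mem _) (SMulMemClass.smul_mem _ (Indep_e_mem T j))

lemma Indep_ee_proj (T : JonesTower H) : ∀ j : ℕ, IsStarProjection (ee T j)
  | 0 => flat_proj.map T.π
  | j + 1 => T.proj j

lemma Indep_gg_star (T : JonesTower H) (j : ℕ) : star (gg T j) = gg T j := by
  have hes : star (ee T j) = ee T j := (Indep_ee_proj T j).isSelfAdjoint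
  simp [gg, hes]

lemma Indep_gg_sq (T : JonesTower H) (j : ℕ) : gg T j * gg T j = 1 := by
  have hee : ee T j * ee T j = ee T j := (Indep_ee_proj T j).isIdempotentElem
  simp only [gg, sub_mul, mul_sub, one_mul, mul_one, smul_mul_assoc, mul_smul_comm, hee]
  module

lemma Indep_up (T : JonesTower H) {j : ℕ} {x : H →L[ℂ] H} (hx : IndepOrth T j x) :
    IndepOrth T (j + 1) (gg T (j + 1) * x * gg T (j + 1)) := by
  have hg := Indep_gg_mem T (j + 1)
  have he := Indep_e_mem T j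
  have m1 : ∀ {a}, a ∈ T.A (j + 1) → a ∈ T.A (j + 2) := fun ha => T.A_succ _ ha
  refine ⟨mul_mem (mul_mem hg (m1 hx.1)) hg, fun z hz => ?_⟩
  obtain ⟨w, hw, -, hw'⟩ := T.jones j z hz
  have hw1 : w ∈ T.A (j + 1) := T.A_succ _ hw
  have htr := T.tracial (j + 2)
  have hm := T.markov j
  have e1 : z * (gg T (j + 1) * x * gg T (j + 1)) = z * x - (2 : ℂ) • ((z * T.e j) * x)
      - (2 : ℂ) • (z * x * T.e j) + (4 : ℂ) • ((z * T.e j * x) * T.e j) := by
    simp only [gg, ee, sub_mul, mul_sub, one_mul, mul_one, smul_mul_assoc, mul_smul_comm,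
      mul_assoc]
    module
  have t1 : ⟪T.Ω, ((z * T.e j) * x) T.Ω⟫_ℂ = ⟪T.Ω, (z * x) T.Ω⟫_ℂ / 4 := by
    rw [htr _ (mul_mem (m1 hz) he) _ (m1 hx.1), ← mul_assoc, hm _ (mul_mem hx.1 hz),
      htr _ (m1 hx.1) _ (m1 hz)]
  have t2 := hm _ (mul_mem hz hx.1)
  have t3 : ⟪T.Ω, ((z * T.e j * x) * T.e j) T.Ω⟫_ℂ = ⟪T.Ω, (w * x) T.Ω⟫_ℂ / 4 := by
    rw [htr _ (mul_mem (mul_mem (m1 hz) he) (m1 hx.1)) _ he]
    have : T.e j * (z * T.e j * x) = (w * T.e j) * x := by rw [← hw']; noncomm_ring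
    rw [this, htr _ (mul_mem (m1 hw1) he) _ (m1 hx.1), ← mul_assoc,
      hm _ (mul_mem hx.1 hw1), htr _ (m1 hx.1) _ (m1 hw1)]
  rw [e1]
  simp only [ContinuousLinearMap.add_apply, ContinuousLinearMap.sub_apply,
    ContinuousLinearMap.smul_apply, inner_add_right, inner_sub_right, inner_smul_right]
  rw [t1, t2, t3, hx.2 w hw]
  ring

lemma Indep_conj (T : JonesTower H) {j : ℕ} {x g : H →L[ℂ] H} (hx : IndepOrth T j x)
    (hg : g ∈ T.A j) : IndepOrth T j (g * x * g) := by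
  have hg1 : g ∈ T.A (j + 1) := T.A_succ _ hg
  refine ⟨mul_mem (mul_mem hg1 hx.1) hg1, fun z hz => ?_⟩
  have hz1 : z ∈ T.A (j + 1) := T.A_succ _ hz
  have e1 : z * (g * x * g) = (z * g * x) * g := by noncomm_ring
  have e2 : g * (z * g * x) = (g * z * g) * x := by noncomm_ring
  rw [e1, T.tracial (j + 1) _ (mul_mem (mul_mem hz1 hg1) hx.1) _ hg1, e2]
  exact hx.2 _ (mul_mem (mul_mem hg hz) hg)

lemma Indep_fix (T : JonesTower H) {j : ℕ} {x : H →L[ℂ] H} (hx : x ∈ T.A j) :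
    gg T (j + 1) * x * gg T (j + 1) = x := by
  have hc : gg T (j + 1) * x = x * gg T (j + 1) := by
    have := T.comm j x hx
    simp only [gg, ee, sub_mul, mul_sub, one_mul, mul_one, smul_mul_assoc, mul_smul_comm, this]
  rw [hc, mul_assoc, Indep_gg_sq, mul_one]

lemma Indep_rec (T : JonesTower H) (k : ℕ) (x : H →L[ℂ] H) :
    GG T (k + 1) * x * star (GG T (k + 1)) =
      gg T k * (gg T (k + 1) * (GG T k * x * star (GG T k)) * gg T (k + 1)) * gg T k := by
  simp only [GG, star_mul, Indep_gg_star, mul_assoc]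

lemma Indep_zero (T : JonesTower H) {y : M4} (hy : ∀ i, y i i = 0) : IndepOrth T 0 (T.π y) := by
  refine ⟨T.pi_mem_A1 y, fun z hz => ?_⟩
  obtain ⟨d, rfl⟩ := mem_level_zero T.π hz
  rw [← map_mul, T.trace_π]
  simp [Matrix.trace, Matrix.diagonal_mul, hy]

lemma Indep_diag (T : JonesTower H) {d : Fin 4 → ℂ} (hd : ∑ i, d i = 0) (k : ℕ) :
    IndepOrth T k (GG T (k + 1) * T.π (Matrix.diagonal d) * star (GG T (k + 1))) := by
  induction k with
  | zero =>
    rw [Indep_rec]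
    simp only [GG, star_one, one_mul, mul_one]
    rw [Indep_fix T (T.diag_mem_A0 d)]
    have e1 : gg T 0 = T.π (1 - (2 : ℂ) • flat) := by
      simp [gg, ee]
    rw [e1, ← map_mul, ← map_mul]
    refine Indep_zero T fun i => ?_
    rw [Fin.sum_univ_four] at hd
    fin_cases i <;>
      simp [flat, Matrix.mul_apply, Fin.sum_univ_four, Matrix.diagonal, Matrix.one_apply] <;>
      linear_combination (1 / 4 : ℂ) * hd
  | succ k ih =>
    rw [Indep_rec, Indep_fix T ih.1]
    exact Indep_up T ih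

lemma Indep_off (T : JonesTower H) {y : M4} (hy : ∀ i, y i i = 0) (k : ℕ) :
    IndepOrth T (k + 1) (GG T (k + 1) * T.π y * star (GG T (k + 1))) := by
  induction k with
  | zero =>
    rw [Indep_rec]
    simp only [GG, star_one, one_mul, mul_one]
    exact Indep_conj T (Indep_up T (Indep_zero T hy)) (Indep_gg_mem T 0)
  | succ k ih =>
    rw [Indep_rec]
    exact Indep_conj T (Indep_up T ih) (Indep_gg_mem T (k + 1))

/-- The moved copy of `π M_4` is independent of the lower levels of the tower. -/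
theorem GG_indep (T : JonesTower H) (k : ℕ) (y : M4) {z : H →L[ℂ] H} (hz : z ∈ T.A k) :
    ⟪T.Ω, (z * (GG T (k + 1) * T.π y * star (GG T (k + 1)))) T.Ω⟫_ℂ =
      Matrix.trace y / 4 * ⟪T.Ω, z T.Ω⟫_ℂ := by
  set c : ℂ := Matrix.trace y / 4 with hc
  set d : Fin 4 → ℂ := fun i => y i i - c with hd
  set y1 : M4 := y - Matrix.diagonal (fun i => y i i) with hy1
  have hsum : ∑ i, d i = 0 := by
    simp only [hd, hc, Matrix.trace, Fin.sum_univ_four, Matrix.diag_apply]
    ring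
  have hoff : ∀ i, y1 i i = 0 := fun i => by simp [hy1]
  have hdec : y = c • (1 : M4) + Matrix.diagonal d + y1 := by
    ext i j
    by_cases h : i = j
    · subst h
      simp [hd, hy1]
    · simp [hd, hy1, h, Matrix.one_apply]
  have h0 := (Indep_diag T hsum k).2 z hz
  have h1 := (Indep_off T hoff k).2 z (T.A_succ _ hz)
  have hu := (GG_unitary T (k + 1)).2.2.2
  have e1 : z * (GG T (k + 1) * T.π y * star (GG T (k + 1))) =
      c • z + z * (GG T (k + 1) * T.π (Matrix.diagonal d) * star (GG T (k + 1))) +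
        z * (GG T (k + 1) * T.π y1 * star (GG T (k + 1))) := by
    have e2 : T.π y = c • 1 + T.π (Matrix.diagonal d) + T.π y1 := by
      conv_lhs => rw [hdec]
      simp only [map_add, map_smul, map_one]
    rw [e2]
    simp only [mul_add, add_mul, mul_smul_comm, smul_mul_assoc, mul_one, hu]
  rw [e1]
  simp only [ContinuousLinearMap.add_apply, ContinuousLinearMap.smul_apply, inner_add_right,
    inner_smul_right]
  rw [h0, h1]
  ring

end Pool.Agent.Lib.MP_862c25_an.RE
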