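import Pool.Agent.Lib.MP_862c25_an.RE.Base

open scoped InnerProductSpace

namespace Pool.Agent.Lib.MP_862c25_an.RE

variable {H : Type*} [NormedAddCommGroup H] [InnerProductSpace ℂ H] [CompleteSpace H]

/-- `η` of a projection vanishes. -/
theorem eta_proj {p : H →L[ℂ] H} (hp : IsStarProjection p) : cfc Real.negMulLog p = 0 := by
  have h : cfc Real.negMulLog p = cfc (fun _ : ℝ => (0 : ℝ)) p := by
    refine cfc_congr fun t ht => ?_
    rcases hp.isIdempotentElem.spectrum_subset ℝ ht with rfl | rfl <;> simp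
  rw [h]
  simp

lemma ProjBound_eta (t : ℝ) (ht : 0 ≤ t) :
    (1 + Real.log 2) * t - 2 * (t * t) ≤ Real.negMulLog t := by
  rcases ht.eq_or_lt with rfl | ht
  · simp
  have h1 := Real.log_le_sub_one_of_pos (show 0 < 2 * t by positivity)
  rw [Real.log_mul two_ne_zero ht.ne'] at h1
  unfold Real.negMulLog
  nlinarith

lemma ProjBound_re_star (Ω : H) (x : H →L[ℂ] H) :
    (⟪Ω, (star x) Ω⟫_ℂ).re = (⟪Ω, x Ω⟫_ℂ).re := by
  rw [ContinuousLinearMap.star_eq_adjoint, ContinuousLinearMap.adjoint_inner_right,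
    ← inner_conj_symm, Complex.conj_re]

/-- Lower bound for `τη` of the average of a projection and its conjugate. -/
theorem proj_bound (Ω : H) {V p : H →L[ℂ] H} (hV : star V = V) (hVV : V * V = 1)
    (hVΩ : V Ω = Ω) (hp : IsStarProjection p) :
    Real.log 2 * (⟪Ω, p Ω⟫_ℂ).re - (⟪Ω, (p * (V * p * V)) Ω⟫_ℂ).re ≤
      (⟪Ω, (cfc Real.negMulLog ((1 / 2 : ℂ) • (p + V * p * V))) Ω⟫_ℂ).re := by
  have hpp : p * p = p := hp.isIdempotentElem
  have hps : star p = p := hp.isSelfAdjoint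
  have hτ : ⟪Ω, (V * p * V) Ω⟫_ℂ = ⟪Ω, p Ω⟫_ℂ := by
    have h1 := inner_apply_apply Ω V (p * V)
    rw [hV, ← mul_assoc, hVΩ, mul_apply_eq_comp, hVΩ] at h1
    exact h1.symm
  have hq0 : 0 ≤ V * p * V := by
    have := star_left_conjugate_nonneg hp.nonneg V
    rwa [hV] at this
  have hqq : V * p * V * (V * p * V) = V * p * V := by
    calc V * p * V * (V * p * V) = V * (p * (V * V) * p) * V := by simp only [mul_assoc]
      _ = V * p * V := by rw [hVV, mul_one, hpp]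
  have hqs : star (V * p * V) = V * p * V := by
    simp only [star_mul, hV, hps, mul_assoc]
  generalize V * p * V = q at hτ hq0 hqq hqs ⊢
  have hc : (1 / 2 : ℂ) • (p + q) = (1 / 2 : ℝ) • (p + q) := by
    rw [← Complex.coe_smul]
    norm_num
  rw [hc]
  have hB0 : 0 ≤ (1 / 2 : ℝ) • (p + q) := smul_nonneg (by norm_num) (add_nonneg hp.nonneg hq0)
  obtain ⟨B, hB⟩ : ∃ B, B = (1 / 2 : ℝ) • (p + q) := ⟨_, rfl⟩
  rw [← hB] at hB0 ⊢
  have hBs : IsSelfAdjoint B := hB0.isSelfAdjoint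
  have h1 : cfc (fun t : ℝ => (1 + Real.log 2) * t - 2 * (t * t)) B ≤ cfc Real.negMulLog B :=
    cfc_mono (fun t ht => ProjBound_eta t (spectrum_nonneg_of_nonneg hB0 ht)) (by fun_prop)
      Real.continuous_negMulLog.continuousOn
  have h2 : cfc (fun t : ℝ => (1 + Real.log 2) * t - 2 * (t * t)) B =
      (1 + Real.log 2) • B - (2 : ℝ) • (B * B) := by
    rw [cfc_sub _ _ B, cfc_const_mul _ _ B, cfc_const_mul _ _ B, cfc_mul _ _ B, cfc_id' ℝ B]
  rw [h2] at h1
  have h3 := ((ContinuousLinearMap.nonneg_iff_isPositive _).1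
    (sub_nonneg.2 h1)).re_inner_nonneg_right Ω
  have h4 : (1 + Real.log 2) • B - (2 : ℝ) • (B * B) =
      (Real.log 2 / 2) • (p + q) - (1 / 2 : ℝ) • (p * q + star (p * q)) := by
    rw [hB, star_mul, hqs, hps, smul_mul_smul_comm, add_mul, mul_add, mul_add, hpp, hqq]
    module
  have h5 := ProjBound_re_star Ω (p * q)
  rw [h4] at h3
  simp only [sub_apply, smul_apply,
    add_apply, inner_sub_right, inner_add_right, ← Complex.coe_smul,
    inner_smul_right, RCLike.re_to_complex, Complex.sub_re, Complex.add_re, Complex.re_ofReal_mul,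
    hτ, h5] at h3
  linarith

lemma ProjBound_half {s : H →L[ℂ] H} (hs : star s = s) (hss : s * s = 1) {σ : ℂ}
    (hσ : σ = 1 ∨ σ = -1) : IsStarProjection ((1 / 2 : ℂ) • (1 + σ • s)) := by
  constructor
  · show _ * _ = _
    rw [smul_mul_smul_comm, add_mul, mul_add, mul_add, smul_mul_smul_comm, hss]
    simp only [one_mul, mul_one]
    rcases hσ with rfl | rfl <;> module
  · show star _ = _
    rcases hσ with rfl | rfl <;> simp [star_smul, hs]

lemma ProjBound_part (Ω : H) (hΩ : ⟪Ω, Ω⟫_ℂ = 1) (B : StarSubalgebra ℂ (H →L[ℂ] H))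
    (Q : ℕ → StarSubalgebra ℂ (H →L[ℂ] H)) (hQ : Monotone Q) {V : H →L[ℂ] H}
    (hVV : V * V = 1) (r : ℝ)
    (hs : ∀ k, ∃ s ∈ B, star s = s ∧ s * s = 1 ∧ (∃ m, s ∈ Q m ∧ V * s * V ∈ Q m) ∧
      (∀ q ∈ Q k, q * s = s * q) ∧
      ∀ q ∈ Q k, ⟪Ω, (q * (s * (V * s * V))) Ω⟫_ℂ = (r : ℂ) * ⟪Ω, q Ω⟫_ℂ) (N : ℕ) :
    ∃ (ι : Type) (_ : Fintype ι) (p : ι → (H →L[ℂ] H)) (m : ℕ),
      (∀ i, p i ∈ B ∧ IsStarProjection (p i) ∧ p i ∈ Q m ∧ V * p i * V ∈ Q m) ∧
      ∑ i, p i = 1 ∧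
      ∑ i, ⟪Ω, (p i * (V * p i * V)) Ω⟫_ℂ = ((((1 + r) / 2) ^ N : ℝ) : ℂ) := by
  induction N with
  | zero =>
    refine ⟨Unit, inferInstance, fun _ => 1, 0, fun _ => ⟨one_mem _, .one _, one_mem _, ?_⟩,
      by simp, ?_⟩
    · rw [mul_one, hVV]
      exact one_mem _
    · simp only [mul_one, hVV, Finset.univ_unique, Finset.sum_singleton, pow_zero,
        Complex.ofReal_one]
      exact hΩ
  | succ N ih =>
    obtain ⟨ι, _, p, m, hp, h1, h2⟩ := ih
    obtain ⟨s, hsB, hs1, hs2, ⟨m', hs3, hs4⟩, hs5, hs6⟩ := hs m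
    let σ : Bool → ℂ := fun b => if b then 1 else -1
    have hσ : ∀ b, σ b = 1 ∨ σ b = -1 := fun b => by cases b <;> simp [σ]
    let e : Bool → (H →L[ℂ] H) := fun b => (1 / 2 : ℂ) • (1 + σ b • s)
    have hmem : ∀ (S : StarSubalgebra ℂ (H →L[ℂ] H)) (x : H →L[ℂ] H), x ∈ S → ∀ b,
        (1 / 2 : ℂ) • (1 + σ b • x) ∈ S := fun S x hx b =>
      S.smul_mem (add_mem (one_mem _) (S.smul_mem hx _)) _
    have hce : ∀ q ∈ Q m, ∀ b, q * e b = e b * q := fun q hq b => by
      simp only [e, mul_smul_comm, smul_mul_assoc, mul_add, add_mul, mul_one, one_mul, hs5 q hq]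
    have hVe : ∀ b, V * e b * V = (1 / 2 : ℂ) • (1 + σ b • (V * s * V)) := fun b => by
      simp only [e, mul_smul_comm, smul_mul_assoc, mul_add, add_mul, mul_one, hVV]
    have hsplit : ∀ x y : H →L[ℂ] H, V * (x * y) * V = V * x * V * (V * y * V) := fun x y => by
      calc V * (x * y) * V = V * (x * (V * V) * y) * V := by rw [hVV, mul_one]
        _ = V * x * V * (V * y * V) := by simp only [mul_assoc]
    refine ⟨ι × Bool, inferInstance, fun j => p j.1 * e j.2, max m m', fun j => ⟨?_, ?_, ?_, ?_⟩,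
      ?_, ?_⟩
    · exact mul_mem (hp j.1).1 (hmem B s hsB j.2)
    · exact (hp j.1).2.1.mul (ProjBound_half hs1 hs2 (hσ j.2)) (hce _ (hp j.1).2.2.1 j.2)
    · exact mul_mem (hQ (le_max_left m m') (hp j.1).2.2.1)
        (hmem _ s (hQ (le_max_right m m') hs3) j.2)
    · rw [hsplit, hVe]
      exact mul_mem (hQ (le_max_left m m') (hp j.1).2.2.2)
        (hmem _ _ (hQ (le_max_right m m') hs4) j.2)
    · rw [Fintype.sum_prod_type, ← h1]
      refine Finset.sum_congr rfl fun i _ => ?_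
      have : e true + e false = 1 := by
        simp only [e, σ, if_true, Bool.false_eq_true, if_false]
        module
      simp only [Fintype.sum_bool]
      rw [← mul_add, this, mul_one]
    · rw [Fintype.sum_prod_type, pow_succ, Complex.ofReal_mul, ← h2, Finset.sum_mul]
      refine Finset.sum_congr rfl fun i _ => ?_
      have hq : p i * (V * p i * V) ∈ Q m := mul_mem (hp i).2.2.1 (hp i).2.2.2
      have h3 : ∀ b, p i * e b * (V * (p i * e b) * V) =
          p i * (V * p i * V) * (e b * (V * e b * V)) := fun b => by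
        rw [hsplit]
        calc p i * e b * (V * p i * V * (V * e b * V))
            = p i * (e b * (V * p i * V)) * (V * e b * V) := by simp only [mul_assoc]
          _ = p i * (V * p i * V * e b) * (V * e b * V) := by rw [hce _ (hp i).2.2.2 b]
          _ = _ := by simp only [mul_assoc]
      have h4 : e true * (V * e true * V) + e false * (V * e false * V) =
          (1 / 2 : ℂ) • (1 + s * (V * s * V)) := by
        rw [hVe, hVe]
        generalize V * s * V = t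
        simp only [e, σ, if_true, Bool.false_eq_true, if_false, mul_smul_comm, smul_mul_assoc,
          mul_add, add_mul, mul_one, one_mul]
        module
      simp only [Fintype.sum_bool, h3]
      rw [← inner_add_right, ← add_apply, ← mul_add, h4, mul_smul_comm,
        mul_add, mul_one, smul_apply, add_apply,
        inner_smul_right, inner_add_right, hs6 _ hq]
      push_cast
      ring

/-- Repeated splitting of a partition of unity by independent symmetries. -/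
theorem partitions (Ω : H) (hΩ : ⟪Ω, Ω⟫_ℂ = 1) (B : StarSubalgebra ℂ (H →L[ℂ] H))
    (Q : ℕ → StarSubalgebra ℂ (H →L[ℂ] H)) (hQ : Monotone Q) {V : H →L[ℂ] H}
    (hVV : V * V = 1) (r : ℝ)
    (hs : ∀ k, ∃ s ∈ B, star s = s ∧ s * s = 1 ∧ (∃ m, s ∈ Q m ∧ V * s * V ∈ Q m) ∧
      (∀ q ∈ Q k, q * s = s * q) ∧
      ∀ q ∈ Q k, ⟪Ω, (q * (s * (V * s * V))) Ω⟫_ℂ = (r : ℂ) * ⟪Ω, q Ω⟫_ℂ) (N : ℕ) :
    ∃ (n : ℕ) (p : Fin n → (H →L[ℂ] H)), (∀ i, p i ∈ B ∧ IsStarProjection (p i)) ∧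
      ∑ i, p i = 1 ∧
      ∑ i, ⟪Ω, (p i * (V * p i * V)) Ω⟫_ℂ = ((((1 + r) / 2) ^ N : ℝ) : ℂ) := by
  obtain ⟨ι, _, p, m, hp, h1, h2⟩ := ProjBound_part Ω hΩ B Q hQ hVV r hs N
  let f := (Fintype.equivFin ι).symm
  refine ⟨Fintype.card ι, fun i => p (f i), fun i => ⟨(hp _).1, (hp _).2.1⟩, ?_, ?_⟩
  · rw [← h1]
    exact f.sum_comp p
  · rw [← h2]
    exact f.sum_comp fun i => ⟪Ω, (p i * (V * p i * V)) Ω⟫_ℂ

end Pool.Agent.Lib.MP_862c25_an.RE
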