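import Pool.Agent.Lib.MP_862c25_an.RE.Base

open scoped InnerProductSpace

namespace Pool.Agent.Lib.MP_862c25_an.RE

variable {H : Type*} [NormedAddCommGroup H] [InnerProductSpace ℂ H] [CompleteSpace H]

/-- The trace identity for one factor in the star algebra. -/
lemma tracial_one {𝒜 : StarSubalgebra ℂ (H →L[ℂ] H)} {Ω : H} (h : Tr 𝒜 Ω)
    {x a : H →L[ℂ] H} (hx : x ∈ vnGen (𝒜 : Set (H →L[ℂ] H))) (ha : a ∈ 𝒜) :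
    ⟪Ω, (x * a) Ω⟫_ℂ = ⟪Ω, (a * x) Ω⟫_ℂ := by
  obtain ⟨r, hr⟩ := h.exists_rho ha
  have h1 : r Ω = a Ω := by simpa using hr 1 (one_mem _)
  have h2 := congrArg (fun t : H →L[ℂ] H => t Ω) (h.rho_comm hr hx)
  simp only [mul_apply_eq_comp, h1] at h2
  have h3 : ∀ ξ : H, ⟪Ω, r ξ⟫_ℂ = ⟪Ω, a ξ⟫_ℂ := by
    intro ξ
    refine h.ind (fun ξ => ⟪Ω, r ξ⟫_ℂ = ⟪Ω, a ξ⟫_ℂ) ξ ?_ ?_
    · rintro _ ⟨b, hb, rfl⟩
      rw [hr b hb, h.tr b hb a ha]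
      rfl
    · exact isClosed_eq (by fun_prop) (by fun_prop)
  simp only [mul_apply_eq_comp]
  rw [← h2, h3]

/-- The adjoint does not increase the two-norm. -/
lemma tracial_norm {𝒜 : StarSubalgebra ℂ (H →L[ℂ] H)} {Ω : H} (h : Tr 𝒜 Ω)
    {t : H →L[ℂ] H} (ht : t ∈ vnGen (𝒜 : Set (H →L[ℂ] H))) :
    ‖(star t) Ω‖ ≤ ‖t Ω‖ := by
  have h1 : ∀ ξ : H, ‖⟪(star t) Ω, ξ⟫_ℂ‖ ≤ ‖ξ‖ * ‖t Ω‖ := by
    intro ξ
    refine h.ind (fun ξ => ‖⟪(star t) Ω, ξ⟫_ℂ‖ ≤ ‖ξ‖ * ‖t Ω‖) ξ ?_ ?_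
    · rintro _ ⟨b, hb, rfl⟩
      rw [inner_apply_apply, star_star, tracial_one h ht hb, ← h.norm_star hb]
      have h2 : ⟪Ω, (b * t) Ω⟫_ℂ = ⟪(star b) Ω, t Ω⟫_ℂ := by
        rw [inner_apply_apply, star_star]
      rw [h2]
      exact norm_inner_le_norm _ _
    · exact isClosed_le (by fun_prop) (by fun_prop)
  have h2 := h1 ((star t) Ω)
  rw [inner_self_eq_norm_sq_to_K] at h2
  have h3 : ‖(star t) Ω‖ * ‖(star t) Ω‖ ≤ ‖(star t) Ω‖ * ‖t Ω‖ := by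
    simpa [sq] using h2
  rcases (norm_nonneg ((star t) Ω)).eq_or_lt with h0 | h0
  · rw [← h0]
    exact norm_nonneg _
  · exact le_of_mul_le_mul_left h3 h0

/-- The vector state is a trace on the generated von Neumann algebra. -/
theorem tracial_vn {𝒜 : StarSubalgebra ℂ (H →L[ℂ] H)} {Ω : H} (h : Tr 𝒜 Ω)
    {x y : H →L[ℂ] H} (hx : x ∈ vnGen (𝒜 : Set (H →L[ℂ] H)))
    (hy : y ∈ vnGen (𝒜 : Set (H →L[ℂ] H))) :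
    ⟪Ω, (x * y) Ω⟫_ℂ = ⟪Ω, (y * x) Ω⟫_ℂ := by
  have key : ∀ ξ : H, ‖⟪Ω, (x * y) Ω⟫_ℂ - ⟪Ω, (y * x) Ω⟫_ℂ‖ ≤
      (‖y Ω‖ + ‖(star y) Ω‖) * ‖x Ω - ξ‖ := by
    intro ξ
    refine h.ind (fun ξ => ‖⟪Ω, (x * y) Ω⟫_ℂ - ⟪Ω, (y * x) Ω⟫_ℂ‖ ≤
      (‖y Ω‖ + ‖(star y) Ω‖) * ‖x Ω - ξ‖) ξ ?_ ?_
    · rintro _ ⟨a, ha, rfl⟩
      have hxa : x - a ∈ vnGen (𝒜 : Set (H →L[ℂ] H)) := sub_mem hx (subset_vnGen _ ha)
      have e1 : ⟪Ω, (x * y) Ω⟫_ℂ - ⟪Ω, (y * x) Ω⟫_ℂ =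
          ⟪(star (x - a)) Ω, y Ω⟫_ℂ - ⟪(star y) Ω, (x - a) Ω⟫_ℂ := by
        rw [inner_apply_apply, inner_apply_apply, star_star, star_star, sub_mul, mul_sub,
          sub_apply, sub_apply, inner_sub_right,
          inner_sub_right, tracial_one h hy ha]
        ring
      have e2 : (x - a) Ω = x Ω - a Ω := rfl
      have n1 := norm_inner_le_norm (𝕜 := ℂ) ((star (x - a)) Ω) (y Ω)
      have n2 := norm_inner_le_norm (𝕜 := ℂ) ((star y) Ω) ((x - a) Ω)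
      have n3 := tracial_norm h hxa
      have n4 := mul_le_mul_of_nonneg_right n3 (norm_nonneg (y Ω))
      rw [e1, ← e2]
      refine (norm_sub_le _ _).trans ?_
      nlinarith
    · exact isClosed_le (by fun_prop) (by fun_prop)
  have h0 := key (x Ω)
  rw [sub_self, norm_zero, mul_zero] at h0
  exact sub_eq_zero.1 (norm_le_zero_iff.1 h0)

end Pool.Agent.Lib.MP_862c25_an.RE
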