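import Pool.Agent.Lib.MP_862c25_an.RE.Base

open scoped InnerProductSpace

namespace Pool.Agent.Lib.MP_862c25_an.RE

variable {H : Type*} [NormedAddCommGroup H] [InnerProductSpace ℂ H] [CompleteSpace H]

lemma Upper_cfc_mem (M : VonNeumannAlgebra H) (f : ℝ → ℝ) {a : H →L[ℂ] H} (ha : a ∈ M) :
    cfc f a ∈ M := by
  rw [← M.commutant_commutant, VonNeumannAlgebra.mem_commutant_iff]
  intro g hg
  have h : Commute a g := VonNeumannAlgebra.mem_commutant_iff.1 hg a ha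
  exact (h.cfc_real f).symm.eq

lemma Upper_smul_mem (M : VonNeumannAlgebra H) (c : ℝ) {a : H →L[ℂ] H} (ha : a ∈ M) :
    c • a ∈ M := by
  have h : (c : ℂ) • a ∈ M.toStarSubalgebra := M.toStarSubalgebra.smul_mem ha _
  rw [Complex.coe_smul] at h
  exact h

lemma Upper_algebraMap_mem (M : VonNeumannAlgebra H) (c : ℝ) :
    algebraMap ℝ (H →L[ℂ] H) c ∈ M := by
  rw [Algebra.algebraMap_eq_smul_one]
  exact Upper_smul_mem M c (one_mem M)

lemma Upper_re_nonneg (Ω : H) {a : H →L[ℂ] H} (ha : 0 ≤ a) : 0 ≤ (⟪Ω, a Ω⟫_ℂ).re :=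
  ((ContinuousLinearMap.nonneg_iff_isPositive a).1 ha).re_inner_nonneg_right Ω

lemma Upper_mul_nonneg (M : VonNeumannAlgebra H) (Ω : H)
    (htr : ∀ x ∈ M, ∀ y ∈ M, ⟪Ω, (x * y) Ω⟫_ℂ = ⟪Ω, (y * x) Ω⟫_ℂ) {a S : H →L[ℂ] H}
    (ha : a ∈ M) (hS : S ∈ M) (ha0 : 0 ≤ a) (hS0 : 0 ≤ S) : 0 ≤ (⟪Ω, (a * S) Ω⟫_ℂ).re := by
  have hr : cfc Real.sqrt a ∈ M := Upper_cfc_mem M _ ha
  have hsa : IsSelfAdjoint (cfc Real.sqrt a) := cfc_predicate _ a
  have hrr : cfc Real.sqrt a * cfc Real.sqrt a = a := by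
    rw [← cfc_mul _ _ a]
    conv_rhs => rw [← cfc_id' ℝ a ha0.isSelfAdjoint]
    refine cfc_congr fun x hx => Real.mul_self_sqrt (spectrum_nonneg_of_nonneg ha0 hx)
  have h1 : a * S = cfc Real.sqrt a * (cfc Real.sqrt a * S) := by rw [← mul_assoc, hrr]
  rw [h1, htr _ hr _ (mul_mem hr hS)]
  apply Upper_re_nonneg
  have h2 := star_left_conjugate_nonneg hS0 (cfc Real.sqrt a)
  rwa [hsa.star_eq] at h2

lemma Upper_negMulLog {a : H →L[ℂ] H} (ha : IsStrictlyPositive a) :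
    cfc Real.negMulLog a = -(a * CFC.log a) := by
  have hc : ContinuousOn Real.log (spectrum ℝ a) :=
    Real.continuousOn_log.mono fun x hx => (ha.spectrum_pos hx).ne'
  have h1 : Real.negMulLog = fun x : ℝ => -(x * Real.log x) := by
    funext x
    rw [Real.negMulLog, neg_mul]
  rw [h1, cfc_neg, cfc_mul (fun x : ℝ => x) Real.log a continuousOn_id hc,
    cfc_id' ℝ a ha.isSelfAdjoint, CFC.log]

lemma Upper_half (a : H →L[ℂ] H) : (1 / 2 : ℂ) • a = (1 / 2 : ℝ) • a := by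
  rw [← Complex.coe_smul]
  norm_num

lemma Upper_strict (M : VonNeumannAlgebra H) (Ω : H)
    (htr : ∀ x ∈ M, ∀ y ∈ M, ⟪Ω, (x * y) Ω⟫_ℂ = ⟪Ω, (y * x) Ω⟫_ℂ)
    {V y : H →L[ℂ] H} (hV : star V = V) (hVV : V * V = 1) (hVΩ : V Ω = Ω)
    (hy : y ∈ M) (hy0 : IsStrictlyPositive y) (hVy : V * y * V ∈ M) :
    (⟪Ω, (cfc Real.negMulLog ((1 / 2 : ℝ) • (y + V * y * V))) Ω⟫_ℂ).re ≤
      (⟪Ω, (cfc Real.negMulLog y) Ω⟫_ℂ).re + Real.log 2 * (⟪Ω, y Ω⟫_ℂ).re := by
  have hq : 0 ≤ V * y * V := by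
    have h := star_left_conjugate_nonneg hy0.nonneg V
    rwa [hV] at h
  set B : H →L[ℂ] H := (1 / 2 : ℝ) • (y + V * y * V) with hB
  have hhalf : (0 : ℝ) < 1 / 2 := by norm_num
  have hy2 : IsStrictlyPositive ((1 / 2 : ℝ) • y) := hy0.smul hhalf
  have hle : (1 / 2 : ℝ) • y ≤ B :=
    smul_le_smul_of_nonneg_left ((le_add_iff_nonneg_right y).2 hq) hhalf.le
  have hB0 : IsStrictlyPositive B := hy2.of_le hle
  have hBM : B ∈ M := Upper_smul_mem M _ (add_mem hy hVy)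
  have hlog := CFC.log_le_log hle hy2
  rw [CFC.log_smul' y hhalf hy0] at hlog
  have hS := Upper_mul_nonneg M Ω htr hy
    (sub_mem (Upper_cfc_mem M Real.log hBM)
      (add_mem (Upper_algebraMap_mem M (Real.log (1 / 2))) (Upper_cfc_mem M Real.log hy)))
    hy0.nonneg (sub_nonneg.2 hlog)
  have hBV : Commute B V := by
    have h1 : (y + V * y * V) * V = V * (y + V * y * V) := by
      have e1 : V * y * V * V = V * y := by rw [mul_assoc, hVV, mul_one]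
      have e2 : V * (V * y * V) = y * V := by rw [← mul_assoc, ← mul_assoc, hVV, one_mul]
      rw [add_mul, mul_add, e1, e2, add_comm]
    exact Commute.smul_left h1 _
  have hLV : Commute (CFC.log B) V := hBV.cfc_real _
  have hadj : ∀ ξ : H, ⟪Ω, V ξ⟫_ℂ = ⟪Ω, ξ⟫_ℂ := by
    intro ξ
    rw [← ContinuousLinearMap.adjoint_inner_left, ← ContinuousLinearMap.star_eq_adjoint, hV, hVΩ]
  have h3 : ⟪Ω, (V * y * V * CFC.log B) Ω⟫_ℂ = ⟪Ω, (y * CFC.log B) Ω⟫_ℂ := by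
    rw [mul_assoc (V * y), ← hLV.eq]
    simp only [ContinuousLinearMap.mul_apply]
    rw [hadj, hVΩ]
  have h4 : ⟪Ω, (B * CFC.log B) Ω⟫_ℂ = ⟪Ω, (y * CFC.log B) Ω⟫_ℂ := by
    have e : B * CFC.log B = (1 / 2 : ℂ) • (y * CFC.log B + V * y * V * CFC.log B) := by
      rw [Upper_half, ← add_mul, ← smul_mul_assoc]
    rw [e, ContinuousLinearMap.smul_apply, ContinuousLinearMap.add_apply, inner_smul_right,
      inner_add_right, h3]
    ring
  have h5 : y * (cfc Real.log B - (algebraMap ℝ (H →L[ℂ] H) (Real.log (1 / 2)) + cfc Real.log y)) =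
      y * CFC.log B - (((Real.log (1 / 2) : ℝ) : ℂ) • y + y * CFC.log y) := by
    rw [mul_sub, mul_add, Algebra.algebraMap_eq_smul_one, mul_smul_comm, mul_one, Complex.coe_smul]
    rfl
  rw [h5, ContinuousLinearMap.sub_apply, ContinuousLinearMap.add_apply,
    ContinuousLinearMap.smul_apply, inner_sub_right, inner_add_right, inner_smul_right,
    Complex.sub_re, Complex.add_re, Complex.re_ofReal_mul, one_div, Real.log_inv] at hS
  rw [Upper_negMulLog hB0, Upper_negMulLog hy0, ContinuousLinearMap.neg_apply,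
    ContinuousLinearMap.neg_apply, inner_neg_right, inner_neg_right, h4, Complex.neg_re,
    Complex.neg_re]
  linarith

lemma Upper_continuous (Ω : H) {a : H →L[ℂ] H} (ha : IsSelfAdjoint a) :
    Continuous fun ε : ℝ =>
      (⟪Ω, (cfc Real.negMulLog (a + algebraMap ℝ (H →L[ℂ] H) ε)) Ω⟫_ℂ).re := by
  have h1 : Continuous fun ε : ℝ => cfc Real.negMulLog (a + algebraMap ℝ (H →L[ℂ] H) ε) := by
    refine Continuous.cfc_of_mem_nhdsSet (s := Set.univ) Real.negMulLog Filter.univ_mem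
      (continuous_const.add (continuous_algebraMap ℝ _)) (fun ε => ?_)
      Real.continuous_negMulLog.continuousOn
    exact ha.add (IsSelfAdjoint.algebraMap _ (IsSelfAdjoint.all ε))
  exact Complex.continuous_re.comp (continuous_const.inner (h1.clm_apply continuous_const))

/-- Averaging over a symmetry raises `τη` by at most `τ(y) log 2`. -/
theorem upper_avg (M : VonNeumannAlgebra H) (Ω : H)
    (htr : ∀ x ∈ M, ∀ y ∈ M, ⟪Ω, (x * y) Ω⟫_ℂ = ⟪Ω, (y * x) Ω⟫_ℂ)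
    {V y : H →L[ℂ] H} (hV : star V = V) (hVV : V * V = 1) (hVΩ : V Ω = Ω)
    (hy : y ∈ M) (hy0 : 0 ≤ y) (hVy : V * y * V ∈ M) :
    (⟪Ω, (cfc Real.negMulLog ((1 / 2 : ℂ) • (y + V * y * V))) Ω⟫_ℂ).re ≤
      (⟪Ω, (cfc Real.negMulLog y) Ω⟫_ℂ).re + Real.log 2 * (⟪Ω, y Ω⟫_ℂ).re := by
  have hq : 0 ≤ V * y * V := by
    have h := star_left_conjugate_nonneg hy0 V
    rwa [hV] at h
  rw [Upper_half]
  have hB : IsSelfAdjoint ((1 / 2 : ℝ) • (y + V * y * V)) :=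
    (smul_nonneg (by norm_num : (0 : ℝ) ≤ 1 / 2) (add_nonneg hy0 hq)).isSelfAdjoint
  have c1 := Upper_continuous Ω hB
  have c2 : Continuous fun ε : ℝ =>
      (⟪Ω, (cfc Real.negMulLog (y + algebraMap ℝ (H →L[ℂ] H) ε)) Ω⟫_ℂ).re +
        Real.log 2 * (⟪Ω, (y + algebraMap ℝ (H →L[ℂ] H) ε) Ω⟫_ℂ).re :=
    (Upper_continuous Ω hy0.isSelfAdjoint).add (continuous_const.mul (Complex.continuous_re.comp
      (continuous_const.inner ((continuous_const.add (continuous_algebraMap ℝ _)).clm_apply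
        continuous_const))))
  have key : ∀ ε ∈ Set.Ioi (0 : ℝ),
      (⟪Ω, (cfc Real.negMulLog ((1 / 2 : ℝ) • (y + V * y * V) +
        algebraMap ℝ (H →L[ℂ] H) ε)) Ω⟫_ℂ).re ≤
      (⟪Ω, (cfc Real.negMulLog (y + algebraMap ℝ (H →L[ℂ] H) ε)) Ω⟫_ℂ).re +
        Real.log 2 * (⟪Ω, (y + algebraMap ℝ (H →L[ℂ] H) ε) Ω⟫_ℂ).re := by
    intro ε hε
    have e1 : V * (y + algebraMap ℝ (H →L[ℂ] H) ε) * V =
        V * y * V + algebraMap ℝ (H →L[ℂ] H) ε := by
      rw [mul_add, add_mul, Algebra.algebraMap_eq_smul_one, mul_smul_comm, mul_one,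
        smul_mul_assoc, hVV]
    have h := Upper_strict M Ω htr hV hVV hVΩ (add_mem hy (Upper_algebraMap_mem M ε))
      (IsStrictlyPositive.nonneg_add hy0 (isStrictlyPositive_algebraMap hε))
      (by rw [e1]; exact add_mem hVy (Upper_algebraMap_mem M ε))
    have e2 : (1 / 2 : ℝ) • (y + algebraMap ℝ (H →L[ℂ] H) ε +
        V * (y + algebraMap ℝ (H →L[ℂ] H) ε) * V) =
        (1 / 2 : ℝ) • (y + V * y * V) + algebraMap ℝ (H →L[ℂ] H) ε := by
      rw [e1]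
      module
    rwa [e2] at h
  have h0 : (0 : ℝ) ∈ closure (Set.Ioi (0 : ℝ)) := by
    rw [closure_Ioi]
    exact Set.self_mem_Ici
  have h := le_on_closure key c1.continuousOn c2.continuousOn h0
  simpa only [map_zero, add_zero] using h

end Pool.Agent.Lib.MP_862c25_an.RE
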