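import Pool.Agent.Lib.MP_862c25_an.RE.Refl
import Pool.Agent.Lib.MP_862c25_an.RE.Tracial
import Pool.Agent.Lib.MP_862c25_an.RE.Upper
import Pool.Agent.Lib.MP_862c25_an.RE.Concave
import Pool.Agent.Lib.MP_862c25_an.RE.ProjBound
import Pool.Agent.Lib.MP_862c25_an.RE.Indep

open scoped InnerProductSpace Matrix ComplexConjugate

namespace Pool.Agent.Lib.MP_862c25_an.RE

variable {H : Type*} [NormedAddCommGroup H] [InnerProductSpace ℂ H] [CompleteSpace H]

lemma tau_conj {Ω : H} {V : H →L[ℂ] H} (hs : star V = V) (hf : V Ω = Ω) (x : H →L[ℂ] H) :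
    ⟪Ω, (V * x * V) Ω⟫_ℂ = ⟪Ω, x Ω⟫_ℂ := by
  have h1 := inner_apply_apply Ω V (x * V)
  rw [hs, ← mul_assoc, mul_apply_eq_comp x V, hf] at h1
  exact h1.symm

lemma tau_avg {Ω : H} {V z : H →L[ℂ] H} (hs : star V = V) (hf : V Ω = Ω) (hz : V * z = z * V)
    (x : H →L[ℂ] H) :
    ⟪Ω, (z * ((1 / 2 : ℂ) • (x + V * x * V))) Ω⟫_ℂ = ⟪Ω, (z * x) Ω⟫_ℂ := by
  have e1 : z * (V * x * V) = V * (z * x) * V := by
    rw [← mul_assoc, ← mul_assoc, ← hz, mul_assoc V z x]
  rw [mul_smul_comm, smul_apply, inner_smul_right, mul_add, add_apply, inner_add_right, e1,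
    tau_conj hs hf]
  ring

lemma avg_nonneg {V x : H →L[ℂ] H} (hs : star V = V) (hx : 0 ≤ x) :
    0 ≤ (1 / 2 : ℂ) • (x + V * x * V) := by
  have h1 : 0 ≤ V * x * V := by
    have := star_left_conjugate_nonneg hx V
    rwa [hs] at this
  have h2 : (1 / 2 : ℂ) • (x + V * x * V) = (1 / 2 : ℝ) • (x + V * x * V) := by
    rw [← Complex.coe_smul]
    norm_num
  rw [h2]
  exact smul_nonneg (by norm_num) (add_nonneg hx h1)

lemma condExp_unique (T : JonesTower H) (u : M4) {x y y' : H →L[ℂ] H}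
    (h : T.IsCondExp (T.spin u) x y) (h' : T.IsCondExp (T.spin u) x y') : y = y' := by
  have hm : y - y' ∈ T.spin u := sub_mem h.1 h'.1
  refine sub_eq_zero.1 (T.faithful (T.spin_le u hm) ?_)
  rw [mul_sub, sub_apply, inner_sub_right, ← h.2 _ (star_mem hm), ← h'.2 _ (star_mem hm), sub_self]

lemma Q_le_R (T : JonesTower H) {y : H →L[ℂ] H} (hy : y ∈ vnGen (Qinf T : Set (H →L[ℂ] H))) :
    y ∈ T.R := by
  rw [T.R_eq]
  exact vnGen_mono (Qinf_le_Ainf T) hy

lemma refl_split {T : JonesTower H} {c : ℂ} (hc : ‖c‖ = 1) {V : H →L[ℂ] H} (hV : IsRefl T c V)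
    {y : H →L[ℂ] H} (hy : y ∈ vnGen (Qinf T : Set (H →L[ℂ] H))) :
    V * y * V ∈ vnGen (Qinf T : Set (H →L[ℂ] H)) ∧
      (1 / 2 : ℂ) • (y + V * y * V) ∈ T.spin (hadamard c) := by
  rw [spin_eq]
  exact split (Z0_sq T) hV.sq (split_Q T hc) (Binf_le_Qinf T c) (pi_mem_Qinf T mZ0_mem_mQ)
    (Z0_conj T c) hV.comm hV.anti hy

/-- The conditional expectations onto the spin model subfactors, through the intermediate
algebra. -/
lemma exists_mid (T : JonesTower H) {x : H →L[ℂ] H} (hx : x ∈ T.R) :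
    ∃ y ∈ vnGen (Qinf T : Set (H →L[ℂ] H)), (0 ≤ x → 0 ≤ y) ∧ ⟪T.Ω, y T.Ω⟫_ℂ = ⟪T.Ω, x T.Ω⟫_ℂ ∧
      ∀ c V, ‖c‖ = 1 → IsRefl T c V →
        T.IsCondExp (T.spin (hadamard c)) x ((1 / 2 : ℂ) • (y + V * y * V)) := by
  obtain ⟨U, h1, h2, h3, h4, h5⟩ := exists_U T
  rw [T.R_eq] at hx
  have hy := (split (Z1_sq T) h2 (split_A T) (Qinf_le_Ainf T) (pi_mem_Ainf T mZ1) (Z1_conj T)
    h3 h4 hx).2
  refine ⟨_, hy, avg_nonneg h1, ?_, fun c V hc hV => ⟨(refl_split hc hV hy).2, fun z hz => ?_⟩⟩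
  · have := tau_avg (z := 1) h1 h5 (by rw [mul_one, one_mul]) x
    rwa [one_mul, one_mul] at this
  · rw [tau_avg hV.star_eq hV.fix (hV.comm_spin hz), tau_avg h1 h5]
    rw [spin_eq] at hz
    exact mem_vnGen_iff.1 hz U fun d hd => h3 d (Binf_le_Qinf T c hd)

lemma entropy_le (T : JonesTower H) {a b : ℂ} (ha : ‖a‖ = 1) (hb : ‖b‖ = 1) {s : ℝ}
    (hs : s ∈ T.entropySums (T.spin (hadamard a)) (T.spin (hadamard b))) : s ≤ Real.log 2 := by
  obtain ⟨n, x, p, q, h, hsum, rfl⟩ := hs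
  obtain ⟨V, hV⟩ := exists_refl T ha
  obtain ⟨W, hW⟩ := exists_refl T hb
  have key : ∀ i, T.tauEta (q i) - T.tauEta (p i) ≤ Real.log 2 * (⟪T.Ω, x i T.Ω⟫_ℂ).re := by
    intro i
    obtain ⟨hx, hpos, hp, hq⟩ := h i
    obtain ⟨y, hy, hy0, hτ, hE⟩ := exists_mid T hx
    have hy0' := hy0 ((ContinuousLinearMap.nonneg_iff_isPositive _).2 hpos)
    rw [condExp_unique T _ hp (hE a V ha hV), condExp_unique T _ hq (hE b W hb hW), ← hτ]
    have u1 := upper_avg T.R T.Ω (fun x hx y hy => tracial_vn T.tr hx hy) hW.star_eq hW.sq hW.fix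
      (Q_le_R T hy) hy0' (Q_le_R T (refl_split hb hW hy).1)
    have u2 := concave_avg T.Ω hV.star_eq hV.sq hV.fix hy0'
    unfold JonesTower.tauEta
    linarith
  refine (Finset.sum_le_sum fun i _ => key i).trans_eq ?_
  rw [← Finset.mul_sum, ← Complex.re_sum, ← inner_sum, ← sum_apply, hsum]
  change Real.log 2 * (⟪T.Ω, T.Ω⟫_ℂ).re = _
  rw [T.inner_self]
  simp

lemma TL_le_Binf (T : JonesTower H) (c : ℂ) : T.TL ≤ Binf T c := by
  refine StarAlgebra.adjoin_le ?_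
  rintro _ (rfl | ⟨k, rfl⟩)
  · exact pi_mem_Binf T (flat_mem c)
  · exact e_mem_Binf T c k

lemma entropy_ge (T : JonesTower H) {a b : ℂ} (ha : ‖a‖ = 1) (hb : ‖b‖ = 1) (N : ℕ) :
    ∃ s ∈ T.entropySums (T.spin (hadamard a)) (T.spin (hadamard b)),
      Real.log 2 - ((1 + (1 + ((a * conj b) ^ 2).re) / 2) / 2) ^ N ≤ s := by
  obtain ⟨W, hW⟩ := exists_refl T hb
  have ha' : ‖b ^ 2 * conj a‖ = 1 := by simp [ha, hb]
  have hX : W * T.π (mX a) * W = T.π (mX (b ^ 2 * conj a)) := by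
    have := mX_conj ha hb ![1, 1, -1, -1]
    rw [← mZ1_eq] at this
    rw [hW.conj_pi hb (conjDiag_sub_mQ (mX_mem a))]
    exact congrArg T.π this
  obtain ⟨n, p, hp, hsum, hD⟩ := partitions T.Ω T.inner_self (Binf T a) T.Qk T.Qk_mono hW.sq
    ((1 + ((a * conj b) ^ 2).re) / 2) (fun k => by
      obtain ⟨g1, g2, g3, g4⟩ := GG_unitary T (k + 1)
      set G := GG T (k + 1) with hG
      have g3' : ∀ z, star G * (G * z) = z := fun z => by rw [← mul_assoc, g3, one_mul]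
      have hWs : W * (G * T.π (mX a) * star G) * W = G * T.π (mX (b ^ 2 * conj a)) * star G := by
        have c1 := hW.comm _ (TL_le_Binf T b g1)
        have c2 := hW.comm _ (star_mem (TL_le_Binf T b g1))
        rw [← hX, mul_assoc, mul_assoc, c2, ← mul_assoc, ← mul_assoc, ← mul_assoc, ← c1]
        simp only [mul_assoc]
      have hQ : ∀ y ∈ mQ, G * T.π y * star G ∈ T.Qk (k + 1 + 1) := fun y hy =>
        mul_mem (mul_mem g2 (T.Qk_mono (by omega : 1 ≤ k + 1 + 1)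
          (StarAlgebra.subset_adjoin ℂ _ ⟨y, hy, rfl⟩))) (star_mem g2)
      refine ⟨G * T.π (mX a) * star G, mul_mem (mul_mem (TL_le_Binf T a g1)
        (pi_mem_Binf T (mX_mem a))) (star_mem (TL_le_Binf T a g1)), ?_, ?_,
        ⟨k + 1 + 1, hQ _ (conjDiag_sub_mQ (mX_mem a)), ?_⟩,
        fun q hq => GG_comm T k (conjDiag_sub_mQ (mX_mem a)) hq, fun q hq => ?_⟩
      · rw [star_mul, star_mul, star_star, ← map_star, Matrix.star_eq_conjTranspose, mX_star,
          mul_assoc]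
      · simp only [mul_assoc, g3']
        rw [← mul_assoc (T.π (mX a)), ← map_mul, mX_sq ha, map_one, one_mul, g4]
      · rw [hWs]
        exact hQ _ (conjDiag_sub_mQ (mX_mem _))
      · have e1 : G * T.π (mX a) * star G * (G * T.π (mX (b ^ 2 * conj a)) * star G) =
            G * T.π (mX a * mX (b ^ 2 * conj a)) * star G := by
          simp only [mul_assoc, g3', map_mul]
        rw [hWs, e1, GG_indep T k _ (T.Qk_le_A k hq), trace_mX_mul ha ha']
        congr 1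
        have e2 := Complex.add_conj ((a * conj b) ^ 2)
        simp only [map_mul, map_pow, Complex.conj_conj] at e2 ⊢
        push_cast at e2 ⊢
        linear_combination (1 / 4 : ℂ) * e2) N
  have hpQ : ∀ i, p i ∈ vnGen (Qinf T : Set (H →L[ℂ] H)) := fun i =>
    subset_vnGen _ (Binf_le_Qinf T a (hp i).1)
  refine ⟨_, ⟨n, p, p, fun i => (1 / 2 : ℂ) • (p i + W * p i * W), fun i =>
    ⟨Q_le_R T (hpQ i), (ContinuousLinearMap.nonneg_iff_isPositive _).1 (hp i).2.nonneg,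
      ⟨?_, fun _ _ => rfl⟩, (refl_split hb hW (hpQ i)).2, fun z hz => ?_⟩, hsum, rfl⟩, ?_⟩
  · rw [spin_eq]
    exact subset_vnGen _ (hp i).1
  · rw [tau_avg hW.star_eq hW.fix (hW.comm_spin hz)]
  · have key : ∀ i, Real.log 2 * (⟪T.Ω, p i T.Ω⟫_ℂ).re -
        (⟪T.Ω, (p i * (W * p i * W)) T.Ω⟫_ℂ).re ≤
        T.tauEta ((1 / 2 : ℂ) • (p i + W * p i * W)) - T.tauEta (p i) := by
      intro i
      have := proj_bound T.Ω hW.star_eq hW.sq hW.fix (hp i).2
      unfold JonesTower.tauEta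
      rw [eta_proj (hp i).2]
      simpa using this
    refine le_trans (le_of_eq ?_) (Finset.sum_le_sum fun i _ => key i)
    rw [Finset.sum_sub_distrib, ← Finset.mul_sum, ← Complex.re_sum, ← Complex.re_sum, hD,
      ← inner_sum, ← sum_apply, hsum, Complex.ofReal_re]
    change _ = Real.log 2 * (⟪T.Ω, T.Ω⟫_ℂ).re - _
    rw [T.inner_self]
    simp

/-- The relative entropy of two different spin model subfactors of the family is `log 2`. -/
theorem relEntropy (T : JonesTower H) {a b : ℂ} (ha : ‖a‖ = 1) (hb : ‖b‖ = 1) (h1 : a ≠ b)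
    (h2 : a ≠ -b) : T.HasRelEntropy (T.spin (hadamard a)) (T.spin (hadamard b)) (Real.log 2) := by
  have hE : ∀ c, ‖c‖ = 1 → ∀ x ∈ T.R, ∃! y, T.IsCondExp (T.spin (hadamard c)) x y := by
    intro c hc x hx
    obtain ⟨V, hV⟩ := exists_refl T hc
    obtain ⟨y, -, -, -, hE⟩ := exists_mid T hx
    exact ⟨_, hE c V hc hV, fun y' hy' => condExp_unique T _ hy' (hE c V hc hV)⟩
  refine ⟨fun x hx => ⟨hE a ha x hx, hE b hb x hx⟩, fun s hs => entropy_le T ha hb hs,
    fun u hu => ?_⟩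
  have hn : ‖(a * conj b) ^ 2‖ = 1 := by simp [ha, hb]
  have hlo : -1 ≤ ((a * conj b) ^ 2).re := by
    have := Complex.abs_re_le_norm ((a * conj b) ^ 2)
    rw [hn] at this
    exact (abs_le.1 this).1
  have hhi : ((a * conj b) ^ 2).re < 1 := by
    have h3 := Complex.re_le_norm ((a * conj b) ^ 2)
    rw [hn] at h3
    refine lt_of_le_of_ne h3 fun h4 => ?_
    have h5 : (a * conj b) ^ 2 = 1 := by
      have h6 := Complex.sq_norm ((a * conj b) ^ 2)
      rw [hn, Complex.normSq_apply, h4] at h6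
      have h7 : ((a * conj b) ^ 2).im = 0 := by nlinarith
      exact Complex.ext (by simpa using h4) (by simpa using h7)
    have h8 := conj_mul_self hb
    have h9 : (a - b) * (a + b) = 0 := by
      linear_combination b ^ 2 * h5 - a ^ 2 * (conj b * b + 1) * h8
    rcases mul_eq_zero.1 h9 with h | h
    · exact h1 (sub_eq_zero.1 h)
    · exact h2 (eq_neg_of_add_eq_zero_left h)
  have hlim : Filter.Tendsto
      (fun N : ℕ => Real.log 2 - ((1 + (1 + ((a * conj b) ^ 2).re) / 2) / 2) ^ N) Filter.atTop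
      (nhds (Real.log 2 - 0)) :=
    tendsto_const_nhds.sub (tendsto_pow_atTop_nhds_zero_of_lt_one (by linarith) (by linarith))
  rw [sub_zero] at hlim
  refine le_of_tendsto' hlim fun N => ?_
  obtain ⟨s, hs, hs'⟩ := entropy_ge T ha hb N
  exact hs'.trans (hu hs)

end Pool.Agent.Lib.MP_862c25_an.RE
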