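import Pool.Agent.Lib.MP_862c25_an.RE.Base

open scoped Matrix ComplexConjugate

namespace Pool.Agent.Lib.MP_862c25_an.RE

lemma conj_mul_self {c : ℂ} (hc : ‖c‖ = 1) : conj c * c = 1 := by
  rw [Complex.conj_mul', hc]; simp

lemma had_eq (c : ℂ) : hadamard c = !![1 / 2, 1 / 2, 1 / 2, 1 / 2;
    1 / 2, Complex.I * c / 2, -1 / 2, -(Complex.I * c) / 2; 1 / 2, -1 / 2, 1 / 2, -1 / 2;
    1 / 2, -(Complex.I * c) / 2, -1 / 2, Complex.I * c / 2] := by
  ext i j
  fin_cases i <;> fin_cases j <;> simp [hadamard] <;> ring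

lemma had_star (c : ℂ) : (hadamard c)ᴴ = !![1 / 2, 1 / 2, 1 / 2, 1 / 2;
    1 / 2, -(Complex.I * conj c) / 2, -1 / 2, Complex.I * conj c / 2; 1 / 2, -1 / 2, 1 / 2, -1 / 2;
    1 / 2, Complex.I * conj c / 2, -1 / 2, -(Complex.I * conj c) / 2] := by
  have h2 : conj (2 : ℂ) = 2 := Complex.conj_ofNat 2
  rw [had_eq]
  ext i j
  fin_cases i <;> fin_cases j <;> simp [h2]

lemma diag_eq (d : Fin 4 → ℂ) :
    Matrix.diagonal d = !![d 0, 0, 0, 0; 0, d 1, 0, 0; 0, 0, d 2, 0; 0, 0, 0, d 3] := by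
  ext i j
  fin_cases i <;> fin_cases j <;> simp

lemma had_star_mul {c : ℂ} (hc : ‖c‖ = 1) : (hadamard c)ᴴ * hadamard c = 1 := by
  have h := conj_mul_self hc
  have hI := Complex.I_mul_I
  rw [had_star, had_eq]
  ext i j
  fin_cases i <;> fin_cases j <;>
    simp [Matrix.mul_apply, Fin.sum_univ_four] <;> grind

lemma had_mul_star {c : ℂ} (hc : ‖c‖ = 1) : hadamard c * (hadamard c)ᴴ = 1 :=
  mul_eq_one_comm.1 (had_star_mul hc)

lemma mZ0_had (c : ℂ) : mZ0 * hadamard c = hadamard c * mX1 := by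
  ext i j
  fin_cases i <;> fin_cases j <;> simp [hadamard, mZ0, mX1, Matrix.mul_apply, Fin.sum_univ_four]

lemma mX1_had (c : ℂ) : mX1 * hadamard c = hadamard c * mZ0 := by
  ext i j
  fin_cases i <;> fin_cases j <;> simp [hadamard, mZ0, mX1, Matrix.mul_apply, Fin.sum_univ_four]

lemma mZ0_eq : mZ0 = Matrix.diagonal ![1, -1, 1, -1] := by
  ext i j
  fin_cases i <;> fin_cases j <;> simp [mZ0]

lemma mZ1_eq : mZ1 = Matrix.diagonal ![1, 1, -1, -1] := by
  ext i j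
  fin_cases i <;> fin_cases j <;> simp [mZ1]

lemma mZ0_sq : mZ0 * mZ0 = 1 := by
  ext i j
  fin_cases i <;> fin_cases j <;> simp [mZ0, Matrix.mul_apply, Fin.sum_univ_four]

lemma mZ1_sq : mZ1 * mZ1 = 1 := by
  ext i j
  fin_cases i <;> fin_cases j <;> simp [mZ1, Matrix.mul_apply, Fin.sum_univ_four]

lemma mX1_sq : mX1 * mX1 = 1 := by
  ext i j
  fin_cases i <;> fin_cases j <;> simp [mX1, Matrix.mul_apply, Fin.sum_univ_four]

lemma mZ0_star : mZ0ᴴ = mZ0 := by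
  ext i j
  fin_cases i <;> fin_cases j <;> simp [mZ0]

lemma mZ1_star : mZ1ᴴ = mZ1 := by
  ext i j
  fin_cases i <;> fin_cases j <;> simp [mZ1]

lemma mX1_star : mX1ᴴ = mX1 := by
  ext i j
  fin_cases i <;> fin_cases j <;> simp [mX1]

lemma mZ1_mX1 : mZ1 * mX1 = -(mX1 * mZ1) := by
  ext i j
  fin_cases i <;> fin_cases j <;> simp [mZ1, mX1, Matrix.mul_apply, Fin.sum_univ_four]

lemma mZ0_mX1 : mZ0 * mX1 = mX1 * mZ0 := by
  ext i j
  fin_cases i <;> fin_cases j <;> simp [mZ0, mX1, Matrix.mul_apply, Fin.sum_univ_four]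

lemma mX1_diag (d : Fin 4 → ℂ) :
    mX1 * Matrix.diagonal d * mX1 = Matrix.diagonal ![d 2, d 3, d 0, d 1] := by
  rw [diag_eq, diag_eq]
  ext i j
  fin_cases i <;> fin_cases j <;> simp [mX1, Matrix.mul_apply, Fin.sum_univ_four]

lemma had_star_mZ0 (c : ℂ) : (hadamard c)ᴴ * mZ0 = mX1 * (hadamard c)ᴴ := by
  have := congrArg Matrix.conjTranspose (mZ0_had c)
  rwa [Matrix.conjTranspose_mul, Matrix.conjTranspose_mul, mZ0_star, mX1_star] at this

lemma had_star_mX1 (c : ℂ) : (hadamard c)ᴴ * mX1 = mZ0 * (hadamard c)ᴴ := by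
  have := congrArg Matrix.conjTranspose (mX1_had c)
  rwa [Matrix.conjTranspose_mul, Matrix.conjTranspose_mul, mZ0_star, mX1_star] at this

lemma diag_comm (d d' : Fin 4 → ℂ) :
    Matrix.diagonal d * Matrix.diagonal d' = Matrix.diagonal d' * Matrix.diagonal d := by
  rw [Matrix.diagonal_mul_diagonal, Matrix.diagonal_mul_diagonal]
  simp only [mul_comm]

lemma mZ0_conj {c : ℂ} {y : M4} (hy : y ∈ conjDiag (hadamard c)) :
    mZ0 * y * mZ0 ∈ conjDiag (hadamard c) := by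
  obtain ⟨d, rfl⟩ := hy
  refine ⟨![d 2, d 3, d 0, d 1], ?_⟩
  rw [← mX1_diag]
  calc mZ0 * (hadamard c * Matrix.diagonal d * (hadamard c)ᴴ) * mZ0
      = (mZ0 * hadamard c) * Matrix.diagonal d * ((hadamard c)ᴴ * mZ0) := by
        simp only [mul_assoc]
    _ = _ := by rw [mZ0_had, had_star_mZ0]; simp only [mul_assoc]

lemma conjDiag_sub_mQ {c : ℂ} {y : M4} (hy : y ∈ conjDiag (hadamard c)) : y ∈ mQ := by
  obtain ⟨d, rfl⟩ := hy
  change _ * mX1 = mX1 * _
  calc hadamard c * Matrix.diagonal d * (hadamard c)ᴴ * mX1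
      = hadamard c * (Matrix.diagonal d * mZ0) * (hadamard c)ᴴ := by
        rw [mul_assoc, had_star_mX1]; simp only [mul_assoc]
    _ = (hadamard c * mZ0) * Matrix.diagonal d * (hadamard c)ᴴ := by
        rw [mZ0_eq, diag_comm]; simp only [mul_assoc]
    _ = _ := by rw [← mX1_had]; simp only [mul_assoc]

lemma mZ0_mem_mQ : mZ0 ∈ mQ := mZ0_mX1

lemma mQ_mul {y y' : M4} (hy : y ∈ mQ) (hy' : y' ∈ mQ) : y * y' ∈ mQ := by
  change _ * mX1 = mX1 * _
  have h1 : y * mX1 = mX1 * y := hy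
  have h2 : y' * mX1 = mX1 * y' := hy'
  rw [mul_assoc, h2, ← mul_assoc, h1, mul_assoc]

lemma mZ1_conj_mQ {y : M4} (hy : y ∈ mQ) : mZ1 * y * mZ1 ∈ mQ := by
  change _ * mX1 = mX1 * _
  have h1 : y * mX1 = mX1 * y := hy
  have h3 : mX1 * mZ1 = -(mZ1 * mX1) := by rw [mZ1_mX1, neg_neg]
  calc mZ1 * y * mZ1 * mX1 = -(mZ1 * (y * mX1) * mZ1) := by
        rw [mul_assoc, mZ1_mX1]; simp only [mul_assoc, mul_neg]
    _ = _ := by rw [h1, ← mul_assoc, ← mul_assoc, ← mul_assoc, h3]; simp only [mul_assoc, neg_mul]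

lemma split_M4 (y : M4) : ∃ q ∈ mQ, ∃ q' ∈ mQ, y = q + mZ1 * q' := by
  have h3 : mX1 * mZ1 = -(mZ1 * mX1) := by rw [mZ1_mX1, neg_neg]
  have h4 : ∀ z : M4, mX1 * (mX1 * z) = z := fun z => by rw [← mul_assoc, mX1_sq, one_mul]
  have h5 : ∀ z : M4, mX1 * (mZ1 * z) = -(mZ1 * (mX1 * z)) := fun z => by
    rw [← mul_assoc, h3, neg_mul, mul_assoc]
  refine ⟨(1 / 2 : ℂ) • (y + mX1 * y * mX1), ?_, (1 / 2 : ℂ) • (mZ1 * (y - mX1 * y * mX1)), ?_, ?_⟩
  · change _ * mX1 = mX1 * _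
    simp only [smul_mul_assoc, mul_smul_comm, add_mul, mul_add, mul_assoc, mX1_sq, mul_one, h4]
    rw [add_comm]
  · change _ * mX1 = mX1 * _
    simp only [smul_mul_assoc, mul_smul_comm, sub_mul, mul_sub, mul_assoc, mX1_sq, mul_one, h4, h5]
    module
  · rw [mul_smul_comm, ← mul_assoc, mZ1_sq, one_mul]
    module

lemma split_mQ {c : ℂ} (hc : ‖c‖ = 1) {y : M4} (hy : y ∈ mQ) :
    ∃ b ∈ conjDiag (hadamard c), ∃ b' ∈ conjDiag (hadamard c), y = b + mZ0 * b' := by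
  set t := (hadamard c)ᴴ * y * hadamard c with ht
  have h1 : y * mX1 = mX1 * y := hy
  have h2 : t * mZ0 = mZ0 * t := by
    rw [ht, mul_assoc, ← mX1_had, ← mul_assoc, mul_assoc _ y, h1, ← mul_assoc, had_star_mX1]
    simp only [mul_assoc]
  have h3 : t = Matrix.diagonal ![t 0 0, t 1 1, t 2 2, t 3 3] +
      mX1 * Matrix.diagonal ![t 2 0, t 3 1, t 0 2, t 1 3] := by
    have e := fun i j => congrFun (congrFun h2 i) j
    have e01 := e 0 1
    have e03 := e 0 3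
    have e10 := e 1 0
    have e12 := e 1 2
    have e21 := e 2 1
    have e23 := e 2 3
    have e30 := e 3 0
    have e32 := e 3 2
    simp [mZ0, Matrix.mul_apply, Fin.sum_univ_four] at e01 e03 e10 e12 e21 e23 e30 e32
    rw [diag_eq, diag_eq]
    ext i j
    fin_cases i <;> fin_cases j <;> simp [mX1, Matrix.mul_apply, Fin.sum_univ_four] <;> grind
  refine ⟨_, ⟨![t 0 0, t 1 1, t 2 2, t 3 3], rfl⟩, _, ⟨![t 2 0, t 3 1, t 0 2, t 1 3], rfl⟩, ?_⟩
  calc y = (hadamard c * (hadamard c)ᴴ) * y * (hadamard c * (hadamard c)ᴴ) := by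
        rw [had_mul_star hc, one_mul, mul_one]
    _ = hadamard c * t * (hadamard c)ᴴ := by rw [ht]; simp only [mul_assoc]
    _ = _ := by
        conv_lhs => rw [h3]
        rw [mul_add, add_mul, ← mul_assoc, ← mZ0_had]
        simp only [mul_assoc]

/-- the symmetry of `u Δ u*` implementing the reflection -/
noncomputable def mX (c : ℂ) : M4 := hadamard c * mZ1 * (hadamard c)ᴴ

lemma mX_mem (c : ℂ) : mX c ∈ conjDiag (hadamard c) := ⟨![1, 1, -1, -1], by rw [← mZ1_eq]; rfl⟩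

lemma mX_star (c : ℂ) : (mX c)ᴴ = mX c := by
  rw [mX, Matrix.conjTranspose_mul, Matrix.conjTranspose_mul, Matrix.conjTranspose_conjTranspose,
    mZ1_star, mul_assoc]

lemma conjDiag_mul {u : M4} (hu : uᴴ * u = 1) (d d' : Fin 4 → ℂ) :
    (u * Matrix.diagonal d * uᴴ) * (u * Matrix.diagonal d' * uᴴ) =
      u * (Matrix.diagonal d * Matrix.diagonal d') * uᴴ := by
  calc (u * Matrix.diagonal d * uᴴ) * (u * Matrix.diagonal d' * uᴴ)
      = u * Matrix.diagonal d * (uᴴ * u) * Matrix.diagonal d' * uᴴ := by simp only [mul_assoc]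
    _ = _ := by rw [hu]; simp only [mul_assoc, mul_one, one_mul]

lemma mX_sq {c : ℂ} (hc : ‖c‖ = 1) : mX c * mX c = 1 := by
  rw [mX, mZ1_eq, conjDiag_mul (had_star_mul hc), ← mZ1_eq, mZ1_sq, mul_one, had_mul_star hc]

lemma mX_comm {c : ℂ} (hc : ‖c‖ = 1) {b : M4} (hb : b ∈ conjDiag (hadamard c)) :
    mX c * b * mX c = b := by
  obtain ⟨d, rfl⟩ := hb
  have : mX c * (hadamard c * Matrix.diagonal d * (hadamard c)ᴴ) =
      (hadamard c * Matrix.diagonal d * (hadamard c)ᴴ) * mX c := by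
    rw [mX, mZ1_eq, conjDiag_mul (had_star_mul hc), conjDiag_mul (had_star_mul hc), diag_comm]
  rw [this, mul_assoc, mX_sq hc, mul_one]

lemma mX_mZ0 (c : ℂ) : mX c * mZ0 = -(mZ0 * mX c) := by
  rw [mX, mul_assoc, had_star_mZ0, ← mul_assoc, mul_assoc _ mZ1, mZ1_mX1, ← mul_assoc,
    ← mul_assoc, mZ0_had]
  simp only [mul_assoc, mul_neg, neg_mul]

lemma mX_eq (c : ℂ) (hc : ‖c‖ = 1) : mX c =
    !![0, (1 - Complex.I * conj c) / 2, 0, (1 + Complex.I * conj c) / 2;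
      (1 + Complex.I * c) / 2, 0, (1 - Complex.I * c) / 2, 0;
      0, (1 + Complex.I * conj c) / 2, 0, (1 - Complex.I * conj c) / 2;
      (1 - Complex.I * c) / 2, 0, (1 + Complex.I * c) / 2, 0] := by
  have h := conj_mul_self hc
  have hI := Complex.I_mul_I
  rw [mX, had_star, had_eq]
  ext i j
  fin_cases i <;> fin_cases j <;>
    simp [mZ1, Matrix.mul_apply, Fin.sum_univ_four] <;> grind

lemma mX_had {a b : ℂ} (ha : ‖a‖ = 1) (hb : ‖b‖ = 1) :
    mX b * hadamard a =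
      hadamard (b ^ 2 * conj a) * Matrix.diagonal ![1, a * conj b, -1, -(a * conj b)] := by
  have h := conj_mul_self ha
  have h' := conj_mul_self hb
  have hI := Complex.I_mul_I
  rw [mX_eq b hb, had_eq, had_eq, diag_eq]
  ext i j
  fin_cases i <;> fin_cases j <;>
    simp [Matrix.mul_apply, Fin.sum_univ_four] <;> grind

lemma mX_conj {a b : ℂ} (ha : ‖a‖ = 1) (hb : ‖b‖ = 1) (d : Fin 4 → ℂ) :
    mX b * (hadamard a * Matrix.diagonal d * (hadamard a)ᴴ) * mX b =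
      hadamard (b ^ 2 * conj a) * Matrix.diagonal d * (hadamard (b ^ 2 * conj a))ᴴ := by
  have h := conj_mul_self ha
  have h' := conj_mul_self hb
  have h1 := congrArg Matrix.conjTranspose (mX_had ha hb)
  rw [Matrix.conjTranspose_mul, Matrix.conjTranspose_mul, mX_star] at h1
  have h2 : Matrix.diagonal ![1, a * conj b, -1, -(a * conj b)] * Matrix.diagonal d *
      (Matrix.diagonal ![1, a * conj b, -1, -(a * conj b)])ᴴ = Matrix.diagonal d := by
    rw [Matrix.diagonal_conjTranspose, Matrix.diagonal_mul_diagonal, Matrix.diagonal_mul_diagonal]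
    congr 1
    funext i
    fin_cases i <;> simp <;> grind
  calc mX b * (hadamard a * Matrix.diagonal d * (hadamard a)ᴴ) * mX b
      = (mX b * hadamard a) * Matrix.diagonal d * ((hadamard a)ᴴ * mX b) := by
        simp only [mul_assoc]
    _ = _ := by
        rw [mX_had ha hb, h1]
        conv_rhs => rw [← h2]
        simp only [mul_assoc]

lemma trace_mX_mul {a c : ℂ} (ha : ‖a‖ = 1) (hc : ‖c‖ = 1) :
    Matrix.trace (mX a * mX c) / 4 = (2 + a * conj c + conj a * c) / 4 := by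
  have hI := Complex.I_mul_I
  rw [mX_eq a ha, mX_eq c hc]
  simp [Matrix.trace, Matrix.mul_apply, Fin.sum_univ_four]
  grind

lemma trace_diag_mul {c : ℂ} (hc : ‖c‖ = 1) (d d' : Fin 4 → ℂ) :
    Matrix.trace (Matrix.diagonal d * (hadamard c * Matrix.diagonal d' * (hadamard c)ᴴ)) =
      (∑ i, d i) * (∑ i, d' i) / 4 := by
  have h := conj_mul_self hc
  have hI := Complex.I_mul_I
  rw [had_star, had_eq, diag_eq, diag_eq]
  simp [Matrix.trace, Matrix.mul_apply, Fin.sum_univ_four]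
  grind

lemma continuous_mX : Continuous mX := by
  have h : Continuous hadamard := by
    refine continuous_matrix fun i j => ?_
    fin_cases i <;> fin_cases j <;> simp [hadamard] <;> fun_prop
  unfold mX
  fun_prop

end Pool.Agent.Lib.MP_862c25_an.RE
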