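import Pool.Agent.Lib.MP_862c25_an.RE.Rigid
import Pool.Agent.Lib.MP_862c25_an.RE.Entropy

open scoped InnerProductSpace Matrix ComplexConjugate

namespace Pool.Agent.Lib.MP_862c25_an.RE

variable {H : Type*} [NormedAddCommGroup H] [InnerProductSpace ℂ H] [CompleteSpace H]

/-- a weight vector of the rotations -/
noncomputable def mN : M4 := !![0, 0, 0, 0; 1, 0, -1, 0; 0, 0, 0, 0; -1, 0, 1, 0]

lemma mN_star : mNᴴ = !![0, 1, 0, -1; 0, 0, 0, 0; 0, -1, 0, 1; 0, 0, 0, 0] := by
  ext i j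
  fin_cases i <;> fin_cases j <;> simp [mN]

lemma mN_mem : mN ∈ mQ := by
  change _ * mX1 = mX1 * _
  ext i j
  fin_cases i <;> fin_cases j <;> simp [mN, mX1, Matrix.mul_apply, Fin.sum_univ_four]

lemma mN_star_mem : mNᴴ ∈ mQ := by
  change _ * mX1 = mX1 * _
  rw [mN_star]
  ext i j
  fin_cases i <;> fin_cases j <;> simp [mX1, Matrix.mul_apply, Fin.sum_univ_four]

lemma mN_sq : mN * mN = 0 := by
  ext i j
  fin_cases i <;> fin_cases j <;> simp [mN, Matrix.mul_apply, Fin.sum_univ_four]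

lemma mN_trace : Matrix.trace (mNᴴ * mN) = 4 := by
  rw [mN_star]
  simp [mN, Matrix.trace, Fin.sum_univ_four]
  norm_num

lemma mX_mN {c : ℂ} (hc : ‖c‖ = 1) : mX c * mN * mX c = (-(conj c) ^ 2) • mNᴴ := by
  have h := conj_mul_self hc
  have hI := Complex.I_mul_I
  rw [mX_eq c hc, mN_star]
  ext i j
  fin_cases i <;> fin_cases j <;> simp [mN, Matrix.mul_apply, Fin.sum_univ_four] <;> grind

/-- Elements of the intermediate algebra of weight `m + 1`. -/
lemma exists_weight (T : JonesTower H) (m : ℕ) : ∃ k, ∃ w ∈ T.Qk k,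
    ⟪T.Ω, (star w * w) T.Ω⟫_ℂ = 1 ∧ (m ≠ 0 → w * w = 0) ∧
      ∀ c V, ‖c‖ = 1 → IsRefl T c V → V * w * V = (-(conj c) ^ 2) ^ m • star w := by
  induction m with
  | zero =>
    refine ⟨0, 1, one_mem _, by simpa using T.inner_self, fun h => absurd rfl h, fun c V _ hV => ?_⟩
    rw [mul_one, hV.sq, pow_zero, one_smul, star_one]
  | succ m ih =>
    obtain ⟨k, w, hw, h1, -, h3⟩ := ih
    obtain ⟨g1, g2, g3, g4⟩ := GG_unitary T (k + 1)
    have c1 := GG_comm T k mN_mem hw
    have c2 := GG_comm T k mN_star_mem (star_mem hw)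
    have c3 := GG_comm T k mN_star_mem (mul_mem (star_mem hw) hw)
    have i1 := GG_indep T k (mNᴴ * mN) (T.Qk_le_A k (mul_mem (star_mem hw) hw))
    set G := GG T (k + 1) with hG
    have g3' : ∀ z, star G * (G * z) = z := fun z => by rw [← mul_assoc, g3, one_mul]
    have hs : star (G * T.π mN * star G) = G * T.π mNᴴ * star G := by
      rw [star_mul, star_mul, star_star, ← map_star, Matrix.star_eq_conjTranspose, mul_assoc]
    refine ⟨k + 1 + 1, w * (G * T.π mN * star G), mul_mem (T.Qk_mono (by omega) hw)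
      (mul_mem (mul_mem g2 (T.Qk_mono (by omega : 1 ≤ k + 1 + 1)
        (StarAlgebra.subset_adjoin ℂ _ ⟨_, mN_mem, rfl⟩))) (star_mem g2)), ?_, fun _ => ?_,
      fun c V hc hV => ?_⟩
    · have e1 : star (w * (G * T.π mN * star G)) * (w * (G * T.π mN * star G)) =
          star w * w * (G * T.π (mNᴴ * mN) * star G) := by
        rw [star_mul, hs, mul_assoc, ← mul_assoc (star w), ← mul_assoc, ← c3, map_mul]
        simp only [mul_assoc, g3']
      rw [e1, i1, mN_trace, h1]
      norm_num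
    · rw [mul_assoc, ← mul_assoc _ w, ← c1]
      simp only [mul_assoc, g3']
      rw [← mul_assoc (T.π mN), ← map_mul, mN_sq, map_zero]
      simp
    · have d1 := hV.comm _ (TL_le_Binf T c g1)
      have d2 := hV.comm _ (star_mem (TL_le_Binf T c g1))
      have e2 : V * (G * T.π mN * star G) * V = (-(conj c) ^ 2) • (G * T.π mNᴴ * star G) := by
        have e3 := hV.conj_pi hc mN_mem
        rw [mX_mN hc, map_smul] at e3
        rw [← smul_mul_assoc, ← mul_smul_comm, ← e3, mul_assoc, mul_assoc, d2, ← mul_assoc,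
          ← mul_assoc, ← mul_assoc, ← d1]
        simp only [mul_assoc]
      calc V * (w * (G * T.π mN * star G)) * V
          = (V * w * V) * (V * (G * T.π mN * star G) * V) := by
            have : ∀ z, V * (V * z) = z := fun z => by rw [← mul_assoc, hV.sq, one_mul]
            simp only [mul_assoc, this]
        _ = _ := by
            rw [h3 c V hc hV, e2, star_mul, hs, ← c2, smul_mul_smul_comm, pow_succ _ m]

lemma orbit_necessary (T : JonesTower H) {a b c : ℂ} (ha : ‖a‖ = 1) (hb : ‖b‖ = 1) (hc : ‖c‖ = 1)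
    (h : ∀ x, x ∈ T.spin (hadamard a) → x ∈ T.spin (hadamard b) → x ∈ T.spin (hadamard c))
    {m : ℕ} (hm : a ^ (2 * m) = b ^ (2 * m)) : c ^ (2 * m) = a ^ (2 * m) := by
  rcases Nat.eq_zero_or_pos m with rfl | hpos
  · simp
  obtain ⟨k, w, hw, h1, h2, h3⟩ := exists_weight T m
  have hww := h2 hpos.ne'
  have hwQ : w ∈ Qinf T := mem_Qinf.2 ⟨k, hw⟩
  set x := w + (-(conj a) ^ 2) ^ m • star w with hx
  have hxQ : x ∈ vnGen (Qinf T : Set (H →L[ℂ] H)) :=
    subset_vnGen _ (add_mem hwQ (SMulMemClass.smul_mem _ (star_mem hwQ)))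
  have hconj : ∀ d V, ‖d‖ = 1 → IsRefl T d V →
      V * x * V = (-(conj d) ^ 2) ^ m • star w + ((-(conj a) ^ 2) ^ m * (-d ^ 2) ^ m) • w := by
    intro d V hd hV
    have e1 := congrArg star (h3 d V hd hV)
    rw [star_mul, star_mul, hV.star_eq, ← mul_assoc, star_smul, star_star] at e1
    rw [hx, mul_add, add_mul, h3 d V hd hV, mul_smul_comm, smul_mul_assoc, e1, smul_smul]
    simp
  have hmem : ∀ d, ‖d‖ = 1 → a ^ (2 * m) = d ^ (2 * m) → x ∈ T.spin (hadamard d) := by
    intro d hd hda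
    obtain ⟨V, hV⟩ := exists_refl T hd
    have e0 : (-(conj d) ^ 2) ^ m = (-(conj a) ^ 2) ^ m := by
      have := congrArg conj hda
      rw [map_pow, map_pow, pow_mul, pow_mul] at this
      rw [neg_pow, neg_pow ((conj a) ^ 2), this]
    have e1 : (-(conj a) ^ 2) ^ m * (-d ^ 2) ^ m = 1 := by
      rw [← e0, ← mul_pow, neg_mul_neg, ← mul_pow, conj_mul_self hd, one_pow, one_pow]
    have e2 : V * x * V = x := by rw [hconj d V hd hV, e0, e1, one_smul, add_comm]
    have := (refl_split hd hV hxQ).2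
    rwa [e2, ← two_smul ℂ x, smul_smul, one_div_mul_cancel two_ne_zero, one_smul] at this
  obtain ⟨V, hV⟩ := exists_refl T hc
  have hxc := hV.comm_spin (h x (hmem a ha rfl) (hmem b hb hm))
  have e3 : V * x * V = x := by rw [hxc, mul_assoc, hV.sq, mul_one]
  have hss : star w * star w = 0 := by rw [← star_mul, hww, star_zero]
  have e4 := congrArg (fun y => ⟪T.Ω, (star w * y) T.Ω⟫_ℂ) ((hconj c V hc hV).symm.trans e3)
  simp only [hx, mul_add, mul_smul_comm, hss, smul_zero, zero_add, add_zero, smul_apply,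
    inner_smul_right, h1, mul_one] at e4
  rw [← mul_pow, neg_mul_neg, mul_pow, ← pow_mul, ← pow_mul] at e4
  have e5 : (conj a) ^ (2 * m) * a ^ (2 * m) = 1 := by rw [← mul_pow, conj_mul_self ha, one_pow]
  linear_combination a ^ (2 * m) * e4 - c ^ (2 * m) * e5

lemma spin_neg (T : JonesTower H) (c : ℂ) {x : H →L[ℂ] H} (hx : x ∈ T.spin (hadamard c)) :
    x ∈ T.spin (hadamard (-c)) := by
  have : Binf T c ≤ Binf T (-c) := by
    refine Binf_le (fun y hy => pi_mem_Binf T ?_) (e_mem_Binf T _)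
    obtain ⟨d, rfl⟩ := hy
    refine ⟨![d 0, d 3, d 2, d 1], ?_⟩
    rw [had_star, had_star, had_eq, had_eq, diag_eq, diag_eq]
    ext i j
    fin_cases i <;> fin_cases j <;> simp [Matrix.mul_apply, Fin.sum_univ_four] <;> ring
  rw [spin_eq] at hx ⊢
  exact vnGen_mono this hx

lemma orbit_nat (T : JonesTower H) {a b : ℂ} (ha : ‖a‖ = 1) (hb : ‖b‖ = 1) {x : H →L[ℂ] H}
    (hxa : x ∈ T.spin (hadamard a)) (hxb : x ∈ T.spin (hadamard b)) (i : ℕ) :
    x ∈ T.spin (hadamard (a * (b * conj a) ^ i)) ∧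
      x ∈ T.spin (hadamard (a * (b * conj a) ^ (i + 1))) := by
  have h1 := conj_mul_self ha
  have h2 := conj_mul_self hb
  induction i with
  | zero =>
    have : a * (b * conj a) ^ (0 + 1) = b := by linear_combination b * h1
    rw [this]
    simpa using ⟨hxa, hxb⟩
  | succ i ih =>
    refine ⟨ih.2, ?_⟩
    have hn : ∀ j : ℕ, ‖a * (b * conj a) ^ j‖ = 1 := fun j => by simp [ha, hb]
    obtain ⟨V, hV⟩ := exists_refl T (hn (i + 1))
    have := hV.conj_spin (hn (i + 1)) (hn i) ih.1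
    rw [hV.comm_spin ih.2, mul_assoc, hV.sq, mul_one] at this
    refine (congrArg (fun s => x ∈ T.spin (hadamard s)) ?_).mp this
    have h3 := conj_mul_self (hn i)
    set t := b * conj a
    set s := conj (a * t ^ i)
    linear_combination (a * t ^ (i + 1 + 1)) * h3

lemma eq_ex {c : ℂ} (hc : ‖c‖ = 1) : c = ex (Complex.arg c) := by
  have := Complex.norm_mul_exp_arg_mul_I c
  rw [hc] at this
  simpa [ex] using this.symm

lemma ex_pow (t : ℝ) (n : ℕ) : ex t ^ n = ex (n * t) := by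
  unfold ex
  rw [← Complex.exp_nat_mul]
  congr 1
  push_cast
  ring

/-- The spin model subfactors of the family which contain the intersection of two of them. -/
theorem orbit_iff (T : JonesTower H) {a b c : ℂ} (ha : ‖a‖ = 1) (hb : ‖b‖ = 1) (hc : ‖c‖ = 1) :
    (∀ x, x ∈ T.spin (hadamard a) → x ∈ T.spin (hadamard b) → x ∈ T.spin (hadamard c)) ↔
      ∀ m : ℕ, a ^ (2 * m) = b ^ (2 * m) → c ^ (2 * m) = a ^ (2 * m) := by
  refine ⟨fun h m hm => orbit_necessary T ha hb hc h hm, fun h x hxa hxb => ?_⟩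
  have h1 := conj_mul_self ha
  by_cases hfin : ∃ m : ℕ, 0 < m ∧ a ^ (2 * m) = b ^ (2 * m)
  · obtain ⟨m, hm, hab⟩ := hfin
    have key : ∀ (d : ℂ) (n : ℕ), ((d * conj a) ^ 2) ^ n = 1 ↔ d ^ (2 * n) = a ^ (2 * n) := by
      intro d n
      have e5 : (conj a) ^ (2 * n) * a ^ (2 * n) = 1 := by rw [← mul_pow, h1, one_pow]
      rw [← pow_mul, mul_pow]
      constructor
      · intro e
        linear_combination a ^ (2 * n) * e - d ^ (2 * n) * e5
      · intro e
        linear_combination (conj a) ^ (2 * n) * e + e5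
    have hfo : IsOfFinOrder ((b * conj a) ^ 2) :=
      isOfFinOrder_iff_pow_eq_one.2 ⟨m, hm, (key b m).2 hab.symm⟩
    have hprim := IsPrimitiveRoot.orderOf ((b * conj a) ^ 2)
    haveI : NeZero (orderOf ((b * conj a) ^ 2)) := ⟨hfo.orderOf_pos.ne'⟩
    have hc' := (key c _).2 (h _ ((key b _).1 hprim.pow_eq_one).symm)
    obtain ⟨i, -, hi⟩ := hprim.eq_pow_of_pow_eq_one hc'
    have hx := (orbit_nat T ha hb hxa hxb i).1
    have e : (c - a * (b * conj a) ^ i) * (c + a * (b * conj a) ^ i) = 0 := by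
      rw [← pow_mul, mul_comm 2 i, pow_mul] at hi
      linear_combination (-a ^ 2) * hi - c ^ 2 * (conj a * a + 1) * h1
    rcases mul_eq_zero.1 e with e | e
    · rwa [sub_eq_zero.1 e]
    · rw [eq_neg_of_add_eq_zero_left e]
      exact spin_neg T _ hx
  · rw [eq_ex ha] at hxa
    rw [eq_ex hb] at hxb
    refine rigid T ?_ hxa hxb hc
    rintro ⟨q, hq⟩
    refine hfin ⟨q.den, q.den_pos, ?_⟩
    rw [eq_ex ha, eq_ex hb, ex_pow, ex_pow, ← ex_add_int (_ * Complex.arg b) q.num]
    congr 1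
    have hpi := Real.pi_ne_zero
    have hd : (q.den : ℝ) ≠ 0 := Nat.cast_ne_zero.2 q.den_ne_zero
    rw [Rat.cast_def, div_eq_div_iff hd hpi] at hq
    push_cast
    linear_combination (-2 : ℝ) * hq

end Pool.Agent.Lib.MP_862c25_an.RE
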