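import Pool.Agent.Lib.MP_862c25_an.RE.Trace

open scoped InnerProductSpace Matrix ComplexConjugate

namespace Pool.Agent.Lib.MP_862c25_an.RE

variable {H : Type*} [NormedAddCommGroup H] [InnerProductSpace ℂ H] [CompleteSpace H]

/-- the algebra `D + w D` -/
def extSub {w : H →L[ℂ] H} (hs : star w = w) (h2 : w * w = 1)
    (D : StarSubalgebra ℂ (H →L[ℂ] H)) (hD : ∀ d ∈ D, w * d * w ∈ D) :
    StarSubalgebra ℂ (H →L[ℂ] H) where
  carrier := {x | ∃ d ∈ D, ∃ d' ∈ D, x = d + w * d'}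
  mul_mem' := by
    rintro _ _ ⟨a, ha, a', ha', rfl⟩ ⟨b, hb, b', hb', rfl⟩
    have h2' : ∀ z : H →L[ℂ] H, w * (w * z) = z := fun z => by rw [← mul_assoc, h2, one_mul]
    refine ⟨a * b + w * a' * w * b', add_mem (mul_mem ha hb) (mul_mem (hD _ ha') hb'),
      w * a * w * b' + a' * b, add_mem (mul_mem (hD _ ha) hb') (mul_mem ha' hb), ?_⟩
    simp only [mul_add, add_mul, mul_assoc, h2']
    abel
  add_mem' := by
    rintro _ _ ⟨a, ha, a', ha', rfl⟩ ⟨b, hb, b', hb', rfl⟩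
    exact ⟨a + b, add_mem ha hb, a' + b', add_mem ha' hb', by rw [mul_add]; abel⟩
  algebraMap_mem' := fun r => ⟨_, algebraMap_mem D r, 0, zero_mem _, by rw [mul_zero, add_zero]⟩
  star_mem' := by
    rintro _ ⟨a, ha, a', ha', rfl⟩
    refine ⟨star a, star_mem ha, w * star a' * w, hD _ (star_mem ha'), ?_⟩
    rw [star_add, star_mul, hs, ← mul_assoc, ← mul_assoc, h2, one_mul]

section

variable (T : JonesTower H)

lemma Z0_star : star (T.π mZ0) = T.π mZ0 := by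
  rw [← map_star, Matrix.star_eq_conjTranspose, mZ0_star]

lemma Z1_star : star (T.π mZ1) = T.π mZ1 := by
  rw [← map_star, Matrix.star_eq_conjTranspose, mZ1_star]

lemma Z0_sq : T.π mZ0 * T.π mZ0 = 1 := by rw [← map_mul, mZ0_sq, map_one]

lemma Z1_sq : T.π mZ1 * T.π mZ1 = 1 := by rw [← map_mul, mZ1_sq, map_one]

lemma e_diag (k : ℕ) (d : Fin 4 → ℂ) :
    T.e k * T.π (Matrix.diagonal d) = T.π (Matrix.diagonal d) * T.e k :=
  T.comm k _ (T.A_mono (Nat.zero_le k) (T.diag_mem_A0 d))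

lemma Z0_e (k : ℕ) : T.π mZ0 * T.e k * T.π mZ0 = T.e k := by
  have := e_diag T k ![1, -1, 1, -1]
  rw [← mZ0_eq] at this
  rw [← this, mul_assoc, Z0_sq, mul_one]

lemma Z1_e (k : ℕ) : T.π mZ1 * T.e k * T.π mZ1 = T.e k := by
  have := e_diag T k ![1, 1, -1, -1]
  rw [← mZ1_eq] at this
  rw [← this, mul_assoc, Z1_sq, mul_one]

lemma Z0_conj (c : ℂ) : ∀ b ∈ Binf T c, T.π mZ0 * b * T.π mZ0 ∈ Binf T c := by
  have : Binf T c ≤ conjSub (Z0_star T) (Z0_sq T) (Binf T c) := by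
    refine Binf_le (fun y hy => ?_) fun k => ?_
    · change T.π mZ0 * T.π y * T.π mZ0 ∈ Binf T c
      rw [← map_mul, ← map_mul]
      exact pi_mem_Binf T (mZ0_conj hy)
    · change T.π mZ0 * T.e k * T.π mZ0 ∈ Binf T c
      rw [Z0_e]
      exact e_mem_Binf T c k
  exact fun b hb => this hb

lemma Z1_conj : ∀ q ∈ Qinf T, T.π mZ1 * q * T.π mZ1 ∈ Qinf T := by
  have : Qinf T ≤ conjSub (Z1_star T) (Z1_sq T) (Qinf T) := by
    refine Qinf_le (fun y hy => ?_) fun k => ?_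
    · change T.π mZ1 * T.π y * T.π mZ1 ∈ Qinf T
      rw [← map_mul, ← map_mul]
      exact pi_mem_Qinf T (mZ1_conj_mQ hy)
    · change T.π mZ1 * T.e k * T.π mZ1 ∈ Qinf T
      rw [Z1_e]
      exact e_mem_Qinf T k
  exact fun b hb => this hb

lemma split_Q {c : ℂ} (hc : ‖c‖ = 1) :
    ∀ q ∈ Qinf T, ∃ b ∈ Binf T c, ∃ b' ∈ Binf T c, q = b + T.π mZ0 * b' := by
  have : Qinf T ≤ extSub (Z0_star T) (Z0_sq T) (Binf T c) (Z0_conj T c) := by
    refine Qinf_le (fun y hy => ?_) fun k => ?_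
    · obtain ⟨b, hb, b', hb', rfl⟩ := split_mQ hc hy
      exact ⟨_, pi_mem_Binf T hb, _, pi_mem_Binf T hb', by rw [map_add, map_mul]⟩
    · exact ⟨_, e_mem_Binf T c k, 0, zero_mem _, by rw [mul_zero, add_zero]⟩
  exact fun q hq => this hq

lemma split_A : ∀ x ∈ T.Ainf, ∃ q ∈ Qinf T, ∃ q' ∈ Qinf T, x = q + T.π mZ1 * q' := by
  have : T.Ainf ≤ extSub (Z1_star T) (Z1_sq T) (Qinf T) (Z1_conj T) := by
    refine Ainf_le (fun y => ?_) fun k => ?_
    · obtain ⟨b, hb, b', hb', rfl⟩ := split_M4 y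
      exact ⟨_, pi_mem_Qinf T hb, _, pi_mem_Qinf T hb', by rw [map_add, map_mul]⟩
    · exact ⟨_, e_mem_Qinf T k, 0, zero_mem _, by rw [mul_zero, add_zero]⟩
  exact fun q hq => this hq

lemma tau_Z0 {c : ℂ} (hc : ‖c‖ = 1) {b : H →L[ℂ] H} (hb : b ∈ Binf T c) :
    ⟪T.Ω, (T.π mZ0 * b) T.Ω⟫_ℂ = 0 := by
  rw [mZ0_eq]
  exact trace_diag T hc (by simp [Fin.sum_univ_four]) hb

lemma tau_Z1 {c : ℂ} (hc : ‖c‖ = 1) {b : H →L[ℂ] H} (hb : b ∈ Binf T c) :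
    ⟪T.Ω, (T.π mZ1 * b) T.Ω⟫_ℂ = 0 := by
  rw [mZ1_eq]
  exact trace_diag T hc (by simp [Fin.sum_univ_four]) hb

lemma tau_Z1Z0 {c : ℂ} (hc : ‖c‖ = 1) {b : H →L[ℂ] H} (hb : b ∈ Binf T c) :
    ⟪T.Ω, (T.π mZ1 * (T.π mZ0 * b)) T.Ω⟫_ℂ = 0 := by
  rw [← mul_assoc, ← map_mul, mZ0_eq, mZ1_eq, Matrix.diagonal_mul_diagonal]
  exact trace_diag T hc (by simp [Fin.sum_univ_four]) hb

/-- the symmetry of `L²(R)` whose commutant cuts out the intermediate algebra -/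
theorem exists_U : ∃ U : H →L[ℂ] H, star U = U ∧ U * U = 1 ∧ (∀ q ∈ Qinf T, q * U = U * q) ∧
    T.π mZ1 * U = -(U * T.π mZ1) ∧ U T.Ω = T.Ω := by
  obtain ⟨U, h1, h2, h3, h4, h5⟩ := exists_symm
    ((Qinf T).toSubalgebra.toSubmodule.map (ev T.Ω)) (Qinf T) (Z1_sq T) (by
      rintro d hd _ ⟨q, hq, rfl⟩
      have hq' : q ∈ Qinf T := hq
      have hm : d * q ∈ Qinf T := mul_mem hd hq'
      exact ⟨d * q, hm, rfl⟩) (by
      rintro d hd _ ⟨q, hq, rfl⟩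
      have hq' : q ∈ Qinf T := hq
      have hm : T.π mZ1 * d * T.π mZ1 * q ∈ Qinf T := mul_mem (Z1_conj T d hd) hq'
      exact ⟨T.π mZ1 * d * T.π mZ1 * q, hm, rfl⟩) (by
      rintro _ ⟨q, hq, rfl⟩ _ ⟨q', hq', rfl⟩
      have hq1 : q ∈ Qinf T := hq
      have hq2 : q' ∈ Qinf T := hq'
      change ⟪q T.Ω, (T.π mZ1 * q') T.Ω⟫_ℂ = 0
      obtain ⟨b, hb, b', hb', h⟩ := split_Q T (c := 1) norm_one _
        (mul_mem (Z1_conj T _ (star_mem hq1)) hq2)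
      have e1 : star q * (T.π mZ1 * q') = T.π mZ1 * (T.π mZ1 * star q * T.π mZ1 * q') := by
        simp only [← mul_assoc, Z1_sq, one_mul]
      rw [inner_apply_apply, e1, h, mul_add, add_apply, inner_add_right, tau_Z1 T norm_one hb,
        tau_Z1Z0 T norm_one hb', add_zero]) (by
      refine T.tr.dense.mono ?_
      rintro _ ⟨x, hx, rfl⟩
      obtain ⟨q, hq, q', hq', rfl⟩ := split_A T x hx
      exact ⟨_, ⟨q, hq, rfl⟩, _, ⟨q', hq', rfl⟩, rfl⟩)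
  exact ⟨U, h1, h2, h3, h4, h5 _ ⟨1, one_mem (Qinf T), rfl⟩⟩

/-- the reflection attached to the spin model subfactor of `u(c)` -/
structure IsRefl (c : ℂ) (V : H →L[ℂ] H) : Prop where
  star_eq : star V = V
  sq : V * V = 1
  comm : ∀ b ∈ Binf T c, b * V = V * b
  anti : T.π mZ0 * V = -(V * T.π mZ0)
  fix : V T.Ω = T.Ω
  fix' : V (T.π mZ1 T.Ω) = T.π mZ1 T.Ω

theorem exists_refl {c : ℂ} (hc : ‖c‖ = 1) : ∃ V, IsRefl T c V := by
  let M : Submodule ℂ H :=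
    { carrier := {ξ | ∃ b ∈ Binf T c, ∃ b' ∈ Binf T c, ξ = (b + b' * T.π mZ1) T.Ω}
      add_mem' := by
        rintro _ _ ⟨a, ha, a', ha', rfl⟩ ⟨b, hb, b', hb', rfl⟩
        refine ⟨a + b, add_mem ha hb, a' + b', add_mem ha' hb', ?_⟩
        rw [← add_apply, add_mul]
        congr 1
        abel
      zero_mem' := ⟨0, zero_mem _, 0, zero_mem _, by simp⟩
      smul_mem' := by
        rintro r _ ⟨a, ha, a', ha', rfl⟩
        refine ⟨r • a, SMulMemClass.smul_mem _ ha, r • a', SMulMemClass.smul_mem _ ha', ?_⟩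
        rw [← smul_apply, smul_add, smul_mul_assoc] }
  have hinv : ∀ d ∈ Binf T c, ∀ m ∈ M, d m ∈ M := by
    rintro d hd _ ⟨a, ha, a', ha', rfl⟩
    refine ⟨d * a, mul_mem hd ha, d * a', mul_mem hd ha', ?_⟩
    rw [← mul_apply_eq_comp, mul_add, mul_assoc]
  have hBA : ∀ {b}, b ∈ Binf T c → b ∈ T.Ainf := fun hb => Qinf_le_Ainf T (Binf_le_Qinf T c hb)
  obtain ⟨V, h1, h2, h3, h4, h5⟩ := exists_symm M (Binf T c) (Z0_sq T) hinv
    (fun d hd => hinv _ (Z0_conj T c d hd)) (by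
      rintro _ ⟨a, ha, a', ha', rfl⟩ _ ⟨b, hb, b', hb', rfl⟩
      change ⟪(a + a' * T.π mZ1) T.Ω, (T.π mZ0 * (b + b' * T.π mZ1)) T.Ω⟫_ℂ = 0
      have k : ∀ x ∈ Binf T c, ∀ y ∈ Binf T c, T.π mZ0 * star x * T.π mZ0 * y ∈ Binf T c :=
        fun x hx y hy => mul_mem (Z0_conj T c _ (star_mem hx)) hy
      have h0 : ∀ z : H →L[ℂ] H, T.π mZ0 * (T.π mZ0 * z) = z := fun z => by
        rw [← mul_assoc, Z0_sq, one_mul]
      have e1 : star (a + a' * T.π mZ1) * (T.π mZ0 * (b + b' * T.π mZ1)) =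
          T.π mZ0 * (T.π mZ0 * star a * T.π mZ0 * b) +
          (T.π mZ0 * (T.π mZ0 * star a * T.π mZ0 * b')) * T.π mZ1 +
          T.π mZ1 * (T.π mZ0 * (T.π mZ0 * star a' * T.π mZ0 * b)) +
          (T.π mZ1 * (T.π mZ0 * (T.π mZ0 * star a' * T.π mZ0 * b'))) * T.π mZ1 := by
        rw [star_add, star_mul, Z1_star]
        simp only [mul_add, add_mul, mul_assoc, h0]
        abel
      rw [inner_apply_apply, e1, add_apply, add_apply, add_apply, inner_add_right, inner_add_right,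
        inner_add_right, tau_Z0 T hc (k _ ha _ hb), tau_Z1Z0 T hc (k _ ha' _ hb),
        T.tr.tr _ (mul_mem (pi_mem_Ainf T _) (hBA (k _ ha _ hb'))) _ (pi_mem_Ainf T _),
        tau_Z1Z0 T hc (k _ ha _ hb'),
        T.tr.tr _ (mul_mem (pi_mem_Ainf T _) (mul_mem (pi_mem_Ainf T _) (hBA (k _ ha' _ hb')))) _
          (pi_mem_Ainf T _), ← mul_assoc (T.π mZ1), Z1_sq, one_mul, tau_Z0 T hc (k _ ha' _ hb')]
      simp) (by
      refine T.tr.dense.mono ?_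
      rintro _ ⟨x, hx, rfl⟩
      obtain ⟨q, hq, q', hq', rfl⟩ := split_A T x hx
      obtain ⟨a, ha, a', ha', rfl⟩ := split_Q T hc q hq
      obtain ⟨b, hb, b', hb', h⟩ := split_Q T hc _ (Z1_conj T q' hq')
      refine ⟨_, ⟨a, ha, b, hb, rfl⟩, _, ⟨a', ha', b', hb', rfl⟩, ?_⟩
      have e1 : T.π mZ1 * q' = (b + T.π mZ0 * b') * T.π mZ1 := by
        rw [← h, mul_assoc, Z1_sq, mul_one]
      rw [e1, ← mul_apply_eq_comp, ← add_apply]
      congr 1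
      simp only [mul_add, add_mul, mul_assoc]
      abel)
  refine ⟨V, h1, h2, h3, h4, ?_, ?_⟩
  · exact h5 _ ⟨1, one_mem _, 0, zero_mem _, by simp⟩
  · exact h5 _ ⟨0, zero_mem _, 1, one_mem _, by simp⟩

end

namespace IsRefl

variable {T : JonesTower H} {c : ℂ} {V : H →L[ℂ] H}

lemma conj_B (h : IsRefl T c V) {b : H →L[ℂ] H} (hb : b ∈ Binf T c) : V * b * V = b := by
  rw [← h.comm b hb, mul_assoc, h.sq, mul_one]

lemma conj_pi (h : IsRefl T c V) (hc : ‖c‖ = 1) {y : M4} (hy : y ∈ mQ) :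
    V * T.π y * V = T.π (mX c * y * mX c) := by
  obtain ⟨b, hb, b', hb', rfl⟩ := split_mQ hc hy
  have e1 : mX c * (b + mZ0 * b') * mX c = b - mZ0 * b' := by
    rw [mul_add, add_mul, mX_comm hc hb, ← mul_assoc, mX_mZ0, neg_mul, neg_mul, mul_assoc mZ0,
      mul_assoc mZ0, mX_comm hc hb', sub_eq_add_neg]
  have e2 : V * T.π mZ0 = -(T.π mZ0 * V) := by rw [h.anti, neg_neg]
  rw [e1, map_add, map_sub, map_mul, mul_add, add_mul, h.conj_B (pi_mem_Binf T hb), ← mul_assoc,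
    e2, neg_mul, neg_mul, mul_assoc (T.π mZ0), mul_assoc (T.π mZ0), h.conj_B (pi_mem_Binf T hb'),
    sub_eq_add_neg]

lemma comm_spin (h : IsRefl T c V) {x : H →L[ℂ] H} (hx : x ∈ T.spin (hadamard c)) :
    V * x = x * V := by
  rw [spin_eq] at hx
  exact mem_vnGen_iff.1 hx V h.comm

/-- The reflection of `u(c)` moves the subfactor of `u(a)` to the subfactor of `u(c² / a)`. -/
lemma conj_spin (h : IsRefl T c V) (hc : ‖c‖ = 1) {a : ℂ} (ha : ‖a‖ = 1) {x : H →L[ℂ] H}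
    (hx : x ∈ T.spin (hadamard a)) : V * x * V ∈ T.spin (hadamard (c ^ 2 * conj a)) := by
  have : Binf T a ≤ conjSub h.star_eq h.sq (Binf T (c ^ 2 * conj a)) := by
    refine Binf_le (fun y hy => ?_) fun k => ?_
    · change V * T.π y * V ∈ Binf T _
      rw [h.conj_pi hc (conjDiag_sub_mQ hy)]
      obtain ⟨d, rfl⟩ := hy
      rw [mX_conj ha hc]
      exact pi_mem_Binf T ⟨d, rfl⟩
    · change V * T.e k * V ∈ Binf T _
      rw [h.conj_B (e_mem_Binf T c k)]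
      exact e_mem_Binf T _ k
  rw [spin_eq] at hx ⊢
  exact conj_mem_vnGen h.sq (fun d hd => this hd) hx

end IsRefl

end Pool.Agent.Lib.MP_862c25_an.RE
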