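import Pool.Agent.Lib.MP_862c25_an.RE.Refl

open scoped InnerProductSpace Matrix ComplexConjugate

namespace Pool.Agent.Lib.MP_862c25_an.RE

variable {H : Type*} [NormedAddCommGroup H] [InnerProductSpace ℂ H] [CompleteSpace H]

/-- the point of the circle with argument `t` -/
noncomputable def ex (t : ℝ) : ℂ := Complex.exp (t * Complex.I)

lemma norm_ex (t : ℝ) : ‖ex t‖ = 1 := Complex.norm_exp_ofReal_mul_I t

lemma ex_refl (s t : ℝ) : ex t ^ 2 * conj (ex s) = ex (2 * t - s) := by
  unfold ex
  rw [← Complex.exp_conj, sq, ← Complex.exp_add, ← Complex.exp_add]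
  congr 1
  simp only [map_mul, Complex.conj_ofReal, Complex.conj_I]
  push_cast
  ring

lemma ex_add_int (t : ℝ) (n : ℤ) : ex (t + n * (2 * Real.pi)) = ex t := by
  unfold ex
  have : ((t + n * (2 * Real.pi) : ℝ) : ℂ) * Complex.I =
      t * Complex.I + n * (2 * Real.pi * Complex.I) := by push_cast; ring
  rw [this, Complex.exp_add, Complex.exp_int_mul_two_pi_mul_I, mul_one]

lemma continuous_ex : Continuous ex := by
  unfold ex
  fun_prop

/-- a choice of the reflections -/
noncomputable def VV (T : JonesTower H) (t : ℝ) : H →L[ℂ] H :=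
  (exists_refl T (norm_ex t)).choose

lemma VV_spec (T : JonesTower H) (t : ℝ) : IsRefl T (ex t) (VV T t) :=
  (exists_refl T (norm_ex t)).choose_spec

lemma VV_conj_continuous (T : JonesTower H) {q : H →L[ℂ] H} (hq : q ∈ Qinf T) :
    Continuous fun t => VV T t * q * VV T t := by
  let S : StarSubalgebra ℂ (H →L[ℂ] H) :=
    { carrier := {q | Continuous fun t => VV T t * q * VV T t}
      mul_mem' := by
        intro a b ha hb
        have : (fun t => VV T t * (a * b) * VV T t) =
            fun t => (VV T t * a * VV T t) * (VV T t * b * VV T t) := by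
          funext t
          calc VV T t * (a * b) * VV T t = VV T t * a * (VV T t * VV T t) * b * VV T t := by
                rw [(VV_spec T t).sq]; simp only [mul_assoc, mul_one]
            _ = _ := by simp only [mul_assoc]
        change Continuous fun t => VV T t * (a * b) * VV T t
        rw [this]
        exact Continuous.mul ha hb
      add_mem' := by
        intro a b ha hb
        change Continuous fun t => VV T t * (a + b) * VV T t
        simp only [mul_add, add_mul]
        exact Continuous.add ha hb
      algebraMap_mem' := by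
        intro r
        change Continuous fun t => VV T t * algebraMap ℂ _ r * VV T t
        have : (fun t => VV T t * algebraMap ℂ _ r * VV T t) = fun _ => algebraMap ℂ _ r := by
          funext t
          rw [← Algebra.commutes, mul_assoc, (VV_spec T t).sq, mul_one]
        rw [this]
        exact continuous_const
      star_mem' := by
        intro a ha
        change Continuous fun t => VV T t * star a * VV T t
        have : (fun t => VV T t * star a * VV T t) = fun t => star (VV T t * a * VV T t) := by
          funext t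
          rw [star_mul, star_mul, (VV_spec T t).star_eq, mul_assoc]
        rw [this]
        exact Continuous.star ha }
  have : Qinf T ≤ S := by
    refine Qinf_le (fun y hy => ?_) fun k => ?_
    · change Continuous fun t => VV T t * T.π y * VV T t
      have : (fun t => VV T t * T.π y * VV T t) = fun t => T.π (mX (ex t) * y * mX (ex t)) := by
        funext t
        exact (VV_spec T t).conj_pi (norm_ex t) hy
      rw [this]
      have h1 : Continuous T.π :=
        (T.π.toAlgHom.toLinearMap).continuous_of_finiteDimensional
      have h2 := continuous_mX.comp continuous_ex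
      exact h1.comp ((h2.mul continuous_const).mul h2)
    · change Continuous fun t => VV T t * T.e k * VV T t
      have : (fun t => VV T t * T.e k * VV T t) = fun _ => T.e k := by
        funext t
        exact (VV_spec T t).conj_B (e_mem_Binf T _ k)
      rw [this]
      exact continuous_const
  exact this hq

lemma norm_symm {V : H →L[ℂ] H} (hs : star V = V) (h2 : V * V = 1) (ξ : H) : ‖V ξ‖ = ‖ξ‖ := by
  have h1 : ⟪V ξ, V ξ⟫_ℂ = ⟪ξ, ξ⟫_ℂ := by
    rw [inner_apply_apply, hs, h2]
    rfl
  rw [inner_self_eq_norm_sq_to_K, inner_self_eq_norm_sq_to_K] at h1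
  have h3 : ‖V ξ‖ ^ 2 = ‖ξ‖ ^ 2 := by exact_mod_cast h1
  exact (sq_eq_sq₀ (norm_nonneg _) (norm_nonneg _)).1 h3

/-- The reflections depend strongly continuously on the parameter. -/
lemma VV_continuous (T : JonesTower H) (ξ : H) : Continuous fun t => VV T t ξ := by
  have hA : ∀ x ∈ T.Ainf, Continuous fun t => VV T t (x T.Ω) := by
    intro x hx
    obtain ⟨q, hq, q', hq', rfl⟩ := split_A T x hx
    have : (fun t => VV T t ((q + T.π mZ1 * q') T.Ω)) = fun t => (VV T t * q * VV T t) T.Ω +
        (VV T t * (T.π mZ1 * q' * T.π mZ1) * VV T t) (T.π mZ1 T.Ω) := by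
      funext t
      have e1 : T.π mZ1 (T.π mZ1 T.Ω) = T.Ω := by rw [← mul_apply_eq_comp, Z1_sq]; rfl
      simp only [add_apply, map_add, mul_apply_eq_comp, (VV_spec T t).fix, (VV_spec T t).fix', e1]
    rw [this]
    exact ((VV_conj_continuous T hq).clm_apply continuous_const).add
      ((VV_conj_continuous T (Z1_conj T q' hq')).clm_apply continuous_const)
  refine continuous_of_uniform_approx_of_continuous fun u hu => ?_
  obtain ⟨ε, hε, hu'⟩ := Metric.mem_uniformity_dist.1 hu
  obtain ⟨_, ⟨x, hx, rfl⟩, hd⟩ := Metric.mem_closure_iff.1 (T.tr.dense ξ) ε hε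
  refine ⟨_, hA x hx, fun t => hu' ?_⟩
  rw [dist_eq_norm, ← map_sub, norm_symm (VV_spec T t).star_eq (VV_spec T t).sq, ← dist_eq_norm]
  exact hd

/-- For an irrational angle the intersection lies in every spin model subfactor of the family. -/
theorem rigid (T : JonesTower H) {φ ψ : ℝ} (hirr : Irrational ((φ - ψ) / Real.pi))
    {x : H →L[ℂ] H} (ha : x ∈ T.spin (hadamard (ex φ))) (hb : x ∈ T.spin (hadamard (ex ψ)))
    {c : ℂ} (hc : ‖c‖ = 1) : x ∈ T.spin (hadamard c) := by
  have fixV : ∀ t, VV T t * x = x * VV T t → VV T t * x * VV T t = x := fun t h => by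
    rw [h, mul_assoc, (VV_spec T t).sq, mul_one]
  have refl : ∀ s t, x ∈ T.spin (hadamard (ex s)) → VV T t * x = x * VV T t →
      x ∈ T.spin (hadamard (ex (2 * t - s))) := by
    intro s t hs ht
    have := (VV_spec T t).conj_spin (norm_ex t) (norm_ex s) hs
    rwa [fixV t ht, ex_refl] at this
  have hstep : ∀ m : ℤ, x ∈ T.spin (hadamard (ex (ψ + m * (φ - ψ)))) ∧
      x ∈ T.spin (hadamard (ex (ψ + (m + 1) * (φ - ψ)))) := by
    intro m
    induction m using Int.induction_on with
    | zero => simpa using ⟨hb, ha⟩
    | succ m ih =>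
      refine ⟨by push_cast at ih ⊢; exact ih.2, ?_⟩
      have := refl _ _ ih.1 ((VV_spec T _).comm_spin ih.2)
      refine (congrArg (fun s => x ∈ T.spin (hadamard (ex s))) ?_).mp this
      push_cast
      ring
    | pred m ih =>
      have := refl _ _ ih.2 ((VV_spec T _).comm_spin ih.1)
      constructor
      · refine (congrArg (fun s => x ∈ T.spin (hadamard (ex s))) ?_).mp this
        push_cast
        ring
      · refine (congrArg (fun s => x ∈ T.spin (hadamard (ex s))) ?_).mp ih.1
        push_cast
        ring
  have hdense : Dense (AddSubgroup.closure {φ - ψ, 2 * Real.pi} : Set ℝ) := by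
    rw [dense_addSubgroupClosure_pair_iff]
    have : (φ - ψ) / (2 * Real.pi) = (φ - ψ) / Real.pi / (2 : ℕ) := by
      push_cast
      field_simp
    rw [this]
    exact hirr.div_natCast two_ne_zero
  have hall : ∀ s, VV T (ψ + s) * x = x * VV T (ψ + s) := by
    intro s
    ext ξ
    refine closure_minimal (t := {s | (VV T (ψ + s) * x) ξ = (x * VV T (ψ + s)) ξ}) ?_ ?_
      (hdense s)
    · intro r hr
      obtain ⟨m, n, rfl⟩ := AddSubgroup.mem_closure_pair.1 hr
      have h1 := (hstep m).1
      rw [← ex_add_int _ n] at h1
      have e1 : ψ + (m • (φ - ψ) + n • (2 * Real.pi)) = ψ + m * (φ - ψ) + n * (2 * Real.pi) := by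
        rw [zsmul_eq_mul, zsmul_eq_mul, add_assoc]
      change (VV T (ψ + _) * x) ξ = (x * VV T (ψ + _)) ξ
      rw [e1, (VV_spec T _).comm_spin h1]
    · refine isClosed_eq ((VV_continuous T (x ξ)).comp (continuous_const.add continuous_id)) ?_
      exact x.continuous.comp ((VV_continuous T ξ).comp (continuous_const.add continuous_id))
  have hc' : c = ex (Complex.arg c) := by
    have := Complex.norm_mul_exp_arg_mul_I c
    rw [hc] at this
    simpa [ex] using this.symm
  have := refl ψ _ hb (hall ((Complex.arg c - ψ) / 2))
  rw [hc']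
  refine (congrArg (fun s => x ∈ T.spin (hadamard (ex s))) ?_).mp this
  ring

end Pool.Agent.Lib.MP_862c25_an.RE
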