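import Pool.Agent.Lib.MP_862c25_an.RE.Base

open scoped InnerProductSpace

namespace Pool.Agent.Lib.MP_862c25_an.RE

variable {H : Type*} [NormedAddCommGroup H] [InnerProductSpace ℂ H] [CompleteSpace H]

lemma mem_vnGen_iff {D : StarSubalgebra ℂ (H →L[ℂ] H)} {y : H →L[ℂ] H} :
    y ∈ vnGen (D : Set (H →L[ℂ] H)) ↔ ∀ t, (∀ d ∈ D, d * t = t * d) → t * y = y * t := by
  change y ∈ StarSubalgebra.centralizer ℂ
    (StarSubalgebra.centralizer ℂ (D : Set (H →L[ℂ] H)) : Set (H →L[ℂ] H)) ↔ _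
  rw [StarSubalgebra.mem_centralizer_iff]
  constructor
  · intro h t ht
    refine (h t ?_).1
    rw [SetLike.mem_coe, StarSubalgebra.mem_centralizer_iff]
    exact fun g hg => ⟨ht g hg, ht _ (star_mem hg)⟩
  · intro h t ht
    have hs : star t ∈ StarSubalgebra.centralizer ℂ (D : Set (H →L[ℂ] H)) := star_mem ht
    rw [SetLike.mem_coe, StarSubalgebra.mem_centralizer_iff] at ht
    rw [StarSubalgebra.mem_centralizer_iff] at hs
    exact ⟨h t fun d hd => (ht d hd).1, h _ fun d hd => (hs d hd).1⟩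

lemma conj_mem_vnGen {D C : StarSubalgebra ℂ (H →L[ℂ] H)} {σ y : H →L[ℂ] H} (h2 : σ * σ = 1)
    (hD : ∀ d ∈ D, σ * d * σ ∈ C) (hy : y ∈ vnGen (D : Set (H →L[ℂ] H))) :
    σ * y * σ ∈ vnGen (C : Set (H →L[ℂ] H)) := by
  rw [mem_vnGen_iff] at hy ⊢
  have h2' : ∀ z : H →L[ℂ] H, σ * (σ * z) = z := fun z => by rw [← mul_assoc, h2, one_mul]
  intro t ht
  have key : (σ * t * σ) * y = y * (σ * t * σ) := by
    refine hy _ fun d hd => ?_
    have := ht _ (hD d hd)
    calc d * (σ * t * σ) = σ * ((σ * d * σ) * t) * σ := by simp only [mul_assoc, h2']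
      _ = σ * (t * (σ * d * σ)) * σ := by rw [this]
      _ = σ * t * σ * d := by simp only [mul_assoc, h2, mul_one]
  calc t * (σ * y * σ) = σ * ((σ * t * σ) * y) * σ := by simp only [mul_assoc, h2']
    _ = σ * (y * (σ * t * σ)) * σ := by rw [key]
    _ = σ * y * σ * t := by simp only [mul_assoc, h2, mul_one]

/-- the elements moved into `C` by a symmetry -/
def conjSub {σ : H →L[ℂ] H} (hs : star σ = σ) (h2 : σ * σ = 1)
    (C : StarSubalgebra ℂ (H →L[ℂ] H)) : StarSubalgebra ℂ (H →L[ℂ] H) where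
  carrier := {x | σ * x * σ ∈ C}
  mul_mem' := by
    intro a b ha hb
    have : σ * (a * b) * σ = (σ * a * σ) * (σ * b * σ) := by
      calc σ * (a * b) * σ = σ * a * (σ * σ) * b * σ := by rw [h2]; simp only [mul_assoc, mul_one]
        _ = _ := by simp only [mul_assoc]
    change σ * (a * b) * σ ∈ C
    rw [this]
    exact mul_mem ha hb
  add_mem' := by
    intro a b ha hb
    change σ * (a + b) * σ ∈ C
    rw [mul_add, add_mul]
    exact add_mem ha hb
  algebraMap_mem' := by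
    intro c
    change σ * algebraMap ℂ _ c * σ ∈ C
    rw [← Algebra.commutes, mul_assoc, h2, mul_one]
    exact algebraMap_mem C c
  star_mem' := by
    intro a ha
    change σ * star a * σ ∈ C
    have : σ * star a * σ = star (σ * a * σ) := by rw [star_mul, star_mul, hs, mul_assoc]
    rw [this]
    exact star_mem (s := C) ha

lemma tower_le {S₀ S₁ : Set (H →L[ℂ] H)} {e : ℕ → (H →L[ℂ] H)}
    {S : StarSubalgebra ℂ (H →L[ℂ] H)} (h0 : S₀ ⊆ S) (h1 : S₁ ⊆ S) (he : ∀ k, e k ∈ S) :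
    ∀ k, tower S₀ S₁ e k ≤ S
  | 0 => StarAlgebra.adjoin_le h0
  | 1 => StarAlgebra.adjoin_le h1
  | k + 2 => StarAlgebra.adjoin_le (Set.union_subset (tower_le h0 h1 he (k + 1))
      (Set.singleton_subset_iff.2 (he k)))

/-- A symmetry attached to an orthogonal splitting `M ⊕ w M`. -/
theorem exists_symm (M : Submodule ℂ H) (D : Set (H →L[ℂ] H)) {w : H →L[ℂ] H} (hww : w * w = 1)
    (hD : ∀ d ∈ D, ∀ m ∈ M, d m ∈ M) (hDw : ∀ d ∈ D, ∀ m ∈ M, (w * d * w) m ∈ M)
    (horth : ∀ m ∈ M, ∀ m' ∈ M, ⟪m, w m'⟫_ℂ = 0)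
    (hdense : Dense {ξ : H | ∃ m ∈ M, ∃ m' ∈ M, ξ = m + w m'}) :
    ∃ V : H →L[ℂ] H, star V = V ∧ V * V = 1 ∧ (∀ d ∈ D, d * V = V * d) ∧ w * V = -(V * w) ∧
      ∀ m ∈ M, V m = m := by
  let K := M.topologicalClosure
  let P : H →L[ℂ] H := K.starProjection
  have hP : star P = P := (isStarProjection_starProjection (U := K)).isSelfAdjoint
  have hw2 : ∀ ξ, w (w ξ) = ξ := fun ξ => by
    rw [← mul_apply_eq_comp, hww]; rfl
  have h1 : ∀ m ∈ M, ((2 : ℂ) • P - 1) m = m := by
    intro m hm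
    have : P m = m := Submodule.starProjection_eq_self_iff.2 (M.le_topologicalClosure hm)
    change (2 : ℂ) • P m - m = m
    rw [this]; module
  have h2 : ∀ m ∈ M, ((2 : ℂ) • P - 1) (w m) = - w m := by
    intro m hm
    have : P (w m) = 0 := by
      apply (Submodule.starProjection_apply_eq_zero_iff K).2
      change w m ∈ M.topologicalClosureᗮ
      rw [Submodule.orthogonal_closure, Submodule.mem_orthogonal]
      exact fun u hu => horth u hu m hm
    change (2 : ℂ) • P (w m) - w m = - w m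
    rw [this]; module
  set V : H →L[ℂ] H := (2 : ℂ) • P - 1 with hV
  have hext : ∀ s t : H →L[ℂ] H, (∀ m ∈ M, s m = t m) → (∀ m ∈ M, s (w m) = t (w m)) → s = t := by
    intro s t ha hb
    ext ξ
    refine closure_minimal (t := {ξ | s ξ = t ξ}) ?_ (isClosed_eq s.continuous t.continuous)
      (hdense ξ)
    rintro _ ⟨m, hm, m', hm', rfl⟩
    change s (m + w m') = t (m + w m')
    rw [map_add, map_add, ha m hm, hb m' hm']
  refine ⟨V, by simp [hV, hP], ?_, ?_, ?_, h1⟩
  · refine hext _ _ (fun m hm => ?_) fun m hm => ?_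
    · change V (V m) = m
      rw [h1 m hm, h1 m hm]
    · change V (V (w m)) = w m
      rw [h2 m hm, map_neg, h2 m hm, neg_neg]
  · intro d hd
    refine hext _ _ (fun m hm => ?_) fun m hm => ?_
    · change d (V m) = V (d m)
      rw [h1 m hm, h1 _ (hD d hd m hm)]
    · change d (V (w m)) = V (d (w m))
      have h3 := h2 _ (hDw d hd m hm)
      change V (w (w (d (w m)))) = - w (w (d (w m))) at h3
      rw [hw2] at h3
      rw [h2 m hm, h3, map_neg]
  · refine hext _ _ (fun m hm => ?_) fun m hm => ?_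
    · change w (V m) = - V (w m)
      rw [h1 m hm, h2 m hm, neg_neg]
    · change w (V (w m)) = - V (w (w m))
      rw [h2 m hm, hw2, h1 m hm, map_neg, hw2]

/-- The even part of an element of `(D + w D)''` lies in `D''`. -/
theorem split {D E : StarSubalgebra ℂ (H →L[ℂ] H)} {w V : H →L[ℂ] H} (hww : w * w = 1)
    (hVV : V * V = 1) (hDE : ∀ x ∈ E, ∃ d ∈ D, ∃ d' ∈ D, x = d + w * d') (hle : D ≤ E)
    (hw : w ∈ E) (hDw : ∀ d ∈ D, w * d * w ∈ D) (hc : ∀ d ∈ D, d * V = V * d)
    (ha : w * V = -(V * w)) {y : H →L[ℂ] H} (hy : y ∈ vnGen (E : Set (H →L[ℂ] H))) :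
    V * y * V ∈ vnGen (E : Set (H →L[ℂ] H)) ∧
      (1 / 2 : ℂ) • (y + V * y * V) ∈ vnGen (D : Set (H →L[ℂ] H)) := by
  have hw' : ∀ z : H →L[ℂ] H, w * (w * z) = z := fun z => by rw [← mul_assoc, hww, one_mul]
  have hV' : ∀ z : H →L[ℂ] H, V * (V * z) = z := fun z => by rw [← mul_assoc, hVV, one_mul]
  have ha' : ∀ z : H →L[ℂ] H, w * (V * z) = -(V * (w * z)) := fun z => by
    rw [← mul_assoc, ha, neg_mul, mul_assoc]
  have hy' : V * y * V ∈ vnGen (E : Set (H →L[ℂ] H)) := by
    refine conj_mem_vnGen hVV (fun x hx => ?_) hy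
    obtain ⟨d, hd, d', hd', rfl⟩ := hDE x hx
    have : V * (d + w * d') * V = d - w * d' := by
      rw [mul_add, add_mul, mul_assoc V d, hc d hd, hV', mul_assoc, mul_assoc, hc d' hd', ha',
        mul_neg, hV', sub_eq_add_neg]
    rw [this]
    exact sub_mem (hle hd) (mul_mem hw (hle hd'))
  refine ⟨hy', ?_⟩
  have hs : y + V * y * V ∈ vnGen (E : Set (H →L[ℂ] H)) := add_mem hy hy'
  set s := y + V * y * V with hsdef
  have hsV : V * s = s * V := by
    simp only [hsdef, mul_add, add_mul, mul_assoc, hV', hVV, mul_one]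
    abel
  rw [mem_vnGen_iff] at hs ⊢
  intro t ht
  have hwt : ∀ d ∈ D, d * (w * t * w) = (w * t * w) * d := by
    intro d hd
    have := ht _ (hDw d hd)
    calc d * (w * t * w) = w * ((w * d * w) * t) * w := by simp only [mul_assoc, hw']
      _ = w * (t * (w * d * w)) * w := by rw [this]
      _ = w * t * w * d := by simp only [mul_assoc, hww, mul_one]
  have hcE : ∀ r : H →L[ℂ] H, (∀ d ∈ D, d * r = r * d) → w * r = r * w → r * s = s * r := by
    intro r h1 h2
    refine hs r fun x hx => ?_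
    obtain ⟨d, hd, d', hd', rfl⟩ := hDE x hx
    rw [add_mul, mul_add, h1 d hd, mul_assoc, h1 d' hd', ← mul_assoc, h2, mul_assoc]
  have p1 : (t + w * t * w) * s = s * (t + w * t * w) := by
    refine hcE _ (fun d hd => ?_) ?_
    · rw [mul_add, add_mul, ht d hd, hwt d hd]
    · simp only [mul_add, add_mul, mul_assoc, hw', hww, mul_one]
      abel
  have p2 : ((t - w * t * w) * V) * s = s * ((t - w * t * w) * V) := by
    refine hcE _ (fun d hd => ?_) ?_
    · rw [← mul_assoc, mul_sub, ht d hd, hwt d hd, ← sub_mul, mul_assoc, hc d hd, ← mul_assoc]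
    · have hVw : V * w = -(w * V) := by rw [ha, neg_neg]
      simp only [mul_sub, sub_mul, mul_assoc, hw', hVw, mul_neg]
      abel
  have p3 : (t - w * t * w) * s = s * (t - w * t * w) := by
    calc (t - w * t * w) * s = ((t - w * t * w) * V) * s * V := by
          rw [mul_assoc _ s V, ← hsV, mul_assoc _ V, hV']
      _ = _ := by rw [p2, mul_assoc, mul_assoc, hVV, mul_one]
  have p4 : (2 : ℂ) • (t * s) = (2 : ℂ) • (s * t) := by
    have e1 : (2 : ℂ) • (t * s) = (t + w * t * w) * s + (t - w * t * w) * s := by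
      simp only [add_mul, sub_mul]; module
    have e2 : (2 : ℂ) • (s * t) = s * (t + w * t * w) + s * (t - w * t * w) := by
      simp only [mul_add, mul_sub]; module
    rw [e1, e2, p1, p3]
  have p5 : t * s = s * t := smul_right_injective _ (two_ne_zero) p4
  rw [mul_smul_comm, smul_mul_assoc, p5]

end Pool.Agent.Lib.MP_862c25_an.RE
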