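import Pool.Agent.Lib.MP_862c25_an.RE.Mat
import Pool.Agent.Lib.MP_862c25_an.RE.Sym

open scoped InnerProductSpace Matrix

namespace Pool.Agent.Lib.MP_862c25_an.RE

variable {H : Type*} [NormedAddCommGroup H] [InnerProductSpace ℂ H] [CompleteSpace H]

/-- level `k` of the tower of the spin model subfactor -/
noncomputable abbrev Bk (T : JonesTower H) (c : ℂ) (k : ℕ) : StarSubalgebra ℂ (H →L[ℂ] H) :=
  tower ∅ (T.π '' conjDiag (hadamard c)) T.e k

lemma Bk_mono (T : JonesTower H) (c : ℂ) : Monotone (Bk T c) :=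
  monotone_nat_of_le_succ (tower_succ_le _ _ _ (Set.empty_subset _))

lemma Bk_le_A (T : JonesTower H) (c : ℂ) (k : ℕ) : Bk T c k ≤ T.A k :=
  tower_le_tower T.e (Set.empty_subset _) (Set.image_subset_range _ _) k

/-- the union of the tower of the spin model subfactor -/
noncomputable def Binf (T : JonesTower H) (c : ℂ) : StarSubalgebra ℂ (H →L[ℂ] H) :=
  unionAlg (Bk T c) (Bk_mono T c)

/-- the union of the intermediate tower -/
noncomputable def Qinf (T : JonesTower H) : StarSubalgebra ℂ (H →L[ℂ] H) :=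
  unionAlg T.Qk T.Qk_mono

lemma mem_Binf {T : JonesTower H} {c : ℂ} {x : H →L[ℂ] H} : x ∈ Binf T c ↔ ∃ k, x ∈ Bk T c k :=
  Set.mem_iUnion

lemma mem_Qinf {T : JonesTower H} {x : H →L[ℂ] H} : x ∈ Qinf T ↔ ∃ k, x ∈ T.Qk k :=
  Set.mem_iUnion

lemma spin_eq (T : JonesTower H) (c : ℂ) :
    T.spin (hadamard c) = vnGen (Binf T c : Set (H →L[ℂ] H)) := rfl

lemma Binf_le {T : JonesTower H} {c : ℂ} {S : StarSubalgebra ℂ (H →L[ℂ] H)}
    (h1 : ∀ y ∈ conjDiag (hadamard c), T.π y ∈ S) (he : ∀ k, T.e k ∈ S) : Binf T c ≤ S := by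
  intro x hx
  obtain ⟨k, hk⟩ := mem_Binf.1 hx
  refine tower_le (Set.empty_subset _) ?_ he k hk
  rintro _ ⟨y, hy, rfl⟩
  exact h1 y hy

lemma Qinf_le {T : JonesTower H} {S : StarSubalgebra ℂ (H →L[ℂ] H)}
    (h1 : ∀ y ∈ mQ, T.π y ∈ S) (he : ∀ k, T.e k ∈ S) : Qinf T ≤ S := by
  intro x hx
  obtain ⟨k, hk⟩ := mem_Qinf.1 hx
  refine tower_le (Set.empty_subset _) ?_ he k hk
  rintro _ ⟨y, hy, rfl⟩
  exact h1 y hy

lemma Ainf_le {T : JonesTower H} {S : StarSubalgebra ℂ (H →L[ℂ] H)}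
    (h1 : ∀ y, T.π y ∈ S) (he : ∀ k, T.e k ∈ S) : T.Ainf ≤ S := by
  intro x hx
  obtain ⟨k, hk⟩ := T.mem_Ainf.1 hx
  refine tower_le ?_ ?_ he k hk
  · rintro _ ⟨y, -, rfl⟩
    exact h1 y
  · rintro _ ⟨y, rfl⟩
    exact h1 y

lemma pi_mem_Binf (T : JonesTower H) {c : ℂ} {y : M4} (hy : y ∈ conjDiag (hadamard c)) :
    T.π y ∈ Binf T c :=
  mem_Binf.2 ⟨1, StarAlgebra.subset_adjoin ℂ _ ⟨y, hy, rfl⟩⟩

lemma e_mem_Binf (T : JonesTower H) (c : ℂ) (k : ℕ) : T.e k ∈ Binf T c :=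
  mem_Binf.2 ⟨k + 2, e_mem_tower _ _ _ k⟩

lemma pi_mem_Qinf (T : JonesTower H) {y : M4} (hy : y ∈ mQ) : T.π y ∈ Qinf T :=
  mem_Qinf.2 ⟨1, StarAlgebra.subset_adjoin ℂ _ ⟨y, hy, rfl⟩⟩

lemma e_mem_Qinf (T : JonesTower H) (k : ℕ) : T.e k ∈ Qinf T :=
  mem_Qinf.2 ⟨k + 2, e_mem_tower _ _ _ k⟩

lemma pi_mem_Ainf (T : JonesTower H) (y : M4) : T.π y ∈ T.Ainf := T.A_le_Ainf 1 (T.pi_mem_A1 y)

lemma e_mem_Ainf (T : JonesTower H) (k : ℕ) : T.e k ∈ T.Ainf :=
  T.A_le_Ainf (k + 2) (e_mem_tower _ _ _ k)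

lemma Binf_le_Qinf (T : JonesTower H) (c : ℂ) : Binf T c ≤ Qinf T :=
  Binf_le (fun _ hy => pi_mem_Qinf T (conjDiag_sub_mQ hy)) (e_mem_Qinf T)

lemma Qinf_le_Ainf (T : JonesTower H) : Qinf T ≤ T.Ainf :=
  Qinf_le (fun y _ => pi_mem_Ainf T y) (e_mem_Ainf T)

lemma mem_B1 (T : JonesTower H) {c : ℂ} (hc : ‖c‖ = 1) {x : H →L[ℂ] H} (hx : x ∈ Bk T c 1) :
    ∃ d, x = T.π (hadamard c * Matrix.diagonal d * (hadamard c)ᴴ) := by
  induction hx using StarAlgebra.adjoin_induction with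
  | mem x hx =>
    obtain ⟨_, ⟨d, rfl⟩, rfl⟩ := hx
    exact ⟨d, rfl⟩
  | algebraMap r =>
    refine ⟨fun _ => r, ?_⟩
    have : Matrix.diagonal (fun _ : Fin 4 => r) = r • (1 : M4) := by
      rw [← Matrix.diagonal_one, ← Matrix.diagonal_smul]
      congr 1
      funext i
      simp
    rw [this, mul_smul_comm, smul_mul_assoc, mul_one, had_mul_star hc, map_smul, map_one,
      Algebra.algebraMap_eq_smul_one]
  | add x y _ _ hx hy =>
    obtain ⟨d, rfl⟩ := hx
    obtain ⟨d', rfl⟩ := hy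
    refine ⟨d + d', ?_⟩
    rw [← map_add, ← add_mul, ← mul_add, Matrix.diagonal_add]
    rfl
  | mul x y _ _ hx hy =>
    obtain ⟨d, rfl⟩ := hx
    obtain ⟨d', rfl⟩ := hy
    exact ⟨fun i => d i * d' i, by
      rw [← map_mul, conjDiag_mul (had_star_mul hc), Matrix.diagonal_mul_diagonal]⟩
  | star x _ hx =>
    obtain ⟨d, rfl⟩ := hx
    refine ⟨star d, ?_⟩
    rw [← map_star, Matrix.star_eq_conjTranspose, Matrix.conjTranspose_mul,
      Matrix.conjTranspose_mul, Matrix.conjTranspose_conjTranspose, Matrix.diagonal_conjTranspose,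
      mul_assoc]

/-- The trace preserving expectation onto `A_k` maps `B_(k+1)` into `B_k`. -/
lemma exp_level (T : JonesTower H) {c : ℂ} (hc : ‖c‖ = 1) (k : ℕ) :
    ∀ x ∈ Bk T c (k + 1), ∃ y ∈ Bk T c k,
      ∀ z ∈ T.A k, ⟪T.Ω, (z * x) T.Ω⟫_ℂ = ⟪T.Ω, (z * y) T.Ω⟫_ℂ := by
  induction k with
  | zero =>
    intro x hx
    obtain ⟨d', rfl⟩ := mem_B1 T hc hx
    refine ⟨((∑ i, d' i) / 4) • 1, SMulMemClass.smul_mem _ (one_mem _), fun z hz => ?_⟩
    obtain ⟨d, rfl⟩ := mem_level_zero T.π hz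
    rw [← map_mul, T.trace_π, trace_diag_mul hc, mul_smul_comm, mul_one,
      smul_apply, inner_smul_right, T.trace_π, Matrix.trace_diagonal]
    ring
  | succ k ih =>
    set B := Bk T c (k + 1) with hB
    have hBA : B ≤ T.A (k + 1) := Bk_le_A T c (k + 1)
    have he : ∀ b ∈ B, ∃ y ∈ B, T.e k * b * T.e k = y * T.e k := by
      intro b hb
      obtain ⟨y, hy, hy'⟩ := ih b hb
      obtain ⟨y0, hy0, h1, h2⟩ := T.jones k b (hBA hb)
      have hm : y0 - y ∈ T.A k := sub_mem hy0 (Bk_le_A T c k hy)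
      have : y0 - y = 0 := by
        refine T.faithful (T.Ainf_le_R (T.A_le_Ainf k hm)) ?_
        rw [mul_sub, sub_apply, inner_sub_right, ← h1 _ (star_mem hm),
          hy' _ (star_mem hm), sub_self]
      exact ⟨y, Bk_mono T c (Nat.le_succ k) hy, by rw [h2, sub_eq_zero.1 this]⟩
    let G : Set (H →L[ℂ] H) := {x | x ∈ B ∨ ∃ b ∈ B, ∃ b' ∈ B, x = b * T.e k * b'}
    let p := Submodule.span ℂ G
    have hmul : p * p ≤ p := by
      rw [Submodule.span_mul_span, Submodule.span_le]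
      rintro _ ⟨x, hx, y, hy, rfl⟩
      refine Submodule.subset_span ?_
      rcases hx with hx | ⟨b, hb, b', hb', rfl⟩ <;> rcases hy with hy | ⟨a, ha, a', ha', rfl⟩
      · exact Or.inl (mul_mem hx hy)
      · exact Or.inr ⟨x * a, mul_mem hx ha, a', ha', by simp only [mul_assoc]⟩
      · exact Or.inr ⟨b, hb, b' * y, mul_mem hb' hy, by simp only [mul_assoc]⟩
      · obtain ⟨w, hw, hw'⟩ := he _ (mul_mem hb' ha)
        refine Or.inr ⟨b * w, mul_mem hb hw, a', ha', ?_⟩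
        calc b * T.e k * b' * (a * T.e k * a') = b * (T.e k * (b' * a) * T.e k) * a' := by
              simp only [mul_assoc]
          _ = _ := by rw [hw']; simp only [mul_assoc]
    have hstar : ∀ x ∈ p, star x ∈ p := by
      intro x hx
      induction hx using Submodule.span_induction with
      | mem x hx =>
        refine Submodule.subset_span ?_
        rcases hx with hx | ⟨b, hb, b', hb', rfl⟩
        · exact Or.inl (star_mem hx)
        · refine Or.inr ⟨star b', star_mem hb', star b, star_mem hb, ?_⟩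
          rw [star_mul, star_mul, (T.proj k).isSelfAdjoint.star_eq, mul_assoc]
      | zero => rw [star_zero]; exact zero_mem _
      | add x y _ _ hx hy => rw [star_add]; exact add_mem hx hy
      | smul a x _ hx => rw [star_smul]; exact Submodule.smul_mem _ _ hx
    have hsub : ∀ x ∈ Bk T c (k + 2), x ∈ p := by
      intro x hx
      induction hx using StarAlgebra.adjoin_induction with
      | mem x hx =>
        refine Submodule.subset_span ?_
        rcases hx with hx | hx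
        · exact Or.inl hx
        · exact Or.inr ⟨1, one_mem _, 1, one_mem _, by rw [one_mul, mul_one]; exact hx⟩
      | algebraMap r => exact Submodule.subset_span (Or.inl (algebraMap_mem B r))
      | add x y _ _ hx hy => exact add_mem hx hy
      | mul x y _ _ hx hy => exact hmul (Submodule.mul_mem_mul hx hy)
      | star x _ hx => exact hstar x hx
    intro x hx
    have hx' := hsub x hx
    clear hx
    induction hx' using Submodule.span_induction with
    | mem x hx =>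
      rcases hx with hx | ⟨b, hb, b', hb', rfl⟩
      · exact ⟨x, hx, fun _ _ => rfl⟩
      · refine ⟨(1 / 4 : ℂ) • (b * b'), SMulMemClass.smul_mem _ (mul_mem hb hb'), fun z hz => ?_⟩
        have m1 : ∀ {a}, a ∈ T.A (k + 1) → a ∈ T.Ainf := fun ha => T.A_le_Ainf _ ha
        have e1 : z * (b * T.e k * b') = (z * b * T.e k) * b' := by simp only [mul_assoc]
        rw [e1, T.tr.tr _ (mul_mem (m1 (mul_mem hz (hBA hb))) (e_mem_Ainf T k)) _ (m1 (hBA hb')),
          ← mul_assoc, T.markov k _ (mul_mem (hBA hb') (mul_mem hz (hBA hb))),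
          T.tr.tr _ (m1 (hBA hb')) _ (m1 (mul_mem hz (hBA hb))), mul_smul_comm,
          smul_apply, inner_smul_right, mul_assoc]
        ring
    | zero => exact ⟨0, zero_mem _, fun _ _ => rfl⟩
    | add x y _ _ hx hy =>
      obtain ⟨x', hx', hx⟩ := hx
      obtain ⟨y', hy', hy⟩ := hy
      refine ⟨x' + y', add_mem hx' hy', fun z hz => ?_⟩
      simp only [mul_add, add_apply, inner_add_right, hx z hz, hy z hz]
    | smul a x _ hx =>
      obtain ⟨x', hx', hx⟩ := hx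
      refine ⟨a • x', SMulMemClass.smul_mem _ hx', fun z hz => ?_⟩
      simp only [mul_smul_comm, smul_apply, inner_smul_right, hx z hz]

/-- Traceless diagonal matrices are orthogonal to the tower of the spin model subfactor. -/
theorem trace_diag (T : JonesTower H) {c : ℂ} (hc : ‖c‖ = 1) {d : Fin 4 → ℂ} (hd : ∑ i, d i = 0)
    {x : H →L[ℂ] H} (hx : x ∈ Binf T c) : ⟪T.Ω, (T.π (Matrix.diagonal d) * x) T.Ω⟫_ℂ = 0 := by
  obtain ⟨k, hk⟩ := mem_Binf.1 hx
  clear hx
  induction k generalizing x with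
  | zero =>
    have : x ∈ (⊥ : StarSubalgebra ℂ (H →L[ℂ] H)) := StarAlgebra.adjoin_le (Set.empty_subset _) hk
    obtain ⟨r, rfl⟩ := (StarSubalgebra.mem_bot (R := ℂ)).1 this
    rw [Algebra.algebraMap_eq_smul_one, mul_smul_comm, mul_one, smul_apply,
      inner_smul_right, T.trace_π, Matrix.trace_diagonal, hd]
    simp
  | succ k ih =>
    obtain ⟨y, hy, h⟩ := exp_level T hc k x hk
    rw [h _ (T.A_mono (Nat.zero_le k) (T.diag_mem_A0 d)), ih hy]

end Pool.Agent.Lib.MP_862c25_an.RE
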